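import Pool.Agent.STW.Defs

/-!
Basic facts used by all modules of `STW`.
-/

open Cardinal Ordinal Order Set Filter

namespace Pool.Agent.STW

open Pool.Agent.STP

/-! ### the filter `tl` and unbounded sets -/

theorem tl_iff {t : Ordinal.{0}} (ht : 0 < t) {p : Ordinal.{0} → Prop} :
    (∀ᶠ r in tl t, p r) ↔ ∃ a < t, ∀ r, a ≤ r → r < t → p r := by
  have : Nonempty (Iio t) := ⟨⟨0, ht⟩⟩
  unfold tl
  rw [Filter.eventually_map, Filter.eventually_atTop]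
  constructor
  · rintro ⟨⟨a, ha⟩, h1⟩
    exact ⟨a, ha, fun b hb hb' => h1 ⟨b, hb'⟩ hb⟩
  · rintro ⟨a, ha, h1⟩
    exact ⟨⟨a, ha⟩, fun b hb => h1 b hb b.2⟩

theorem tl_neBot {t : Ordinal.{0}} (ht : 0 < t) : (tl t).NeBot := by
  have : Nonempty (Iio t) := ⟨⟨0, ht⟩⟩
  unfold tl
  infer_instance

theorem tl_lt (t : Ordinal.{0}) : ∀ᶠ r in tl t, r < t := by
  unfold tl
  rw [Filter.eventually_map]
  exact Filter.Eventually.of_forall fun b => b.2

theorem tl_ge {t a : Ordinal.{0}} (h : a < t) : ∀ᶠ r in tl t, a ≤ r :=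
  (tl_iff (bot_le.trans_lt h)).2 ⟨a, h, fun _ hb _ => hb⟩

/-- `t` is closed under successors -/
theorem tl_gt {t a : Ordinal.{0}} (ht : ∀ b < t, b + 1 < t) (h : a < t) : ∀ᶠ r in tl t, a < r :=
  (tl_ge (ht a h)).mono fun _ hb => (lt_add_one a).trans_le hb

theorem Unb.mono {t : Ordinal.{0}} {A B : Set Ordinal.{0}} (h : Unb t A) (hAB : A ⊆ B) :
    Unb t B := fun a ha => by
  obtain ⟨r, h1, h2⟩ := h a ha
  exact ⟨r, hAB h1, h2⟩

theorem unb_iff {t : Ordinal.{0}} (ht0 : 0 < t) (ht : ∀ b < t, b + 1 < t) {A : Set Ordinal.{0}} :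
    Unb t A ↔ ∃ᶠ r in tl t, r ∈ A := by
  unfold Filter.Frequently
  rw [tl_iff ht0]
  constructor
  · rintro h ⟨a, ha, h1⟩
    obtain ⟨r, h2, h3, h4⟩ := h a ha
    exact h1 r h3.le h4 h2
  · intro h a ha
    by_contra hcon
    push Not at hcon
    exact h ⟨a + 1, ht a ha, fun r h1 h2 h3 =>
      absurd h2 (not_lt.2 (hcon r h3 ((lt_add_one a).trans_le h1)))⟩

/-- an unbounded set meets every set in the filter -/
theorem Unb.exists {t : Ordinal.{0}} (ht0 : 0 < t) (ht : ∀ b < t, b + 1 < t) {A : Set Ordinal.{0}}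
    (h : Unb t A) {p : Ordinal.{0} → Prop} (hp : ∀ᶠ r in tl t, p r) : ∃ r ∈ A, p r := by
  obtain ⟨r, h1, h2⟩ := (((unb_iff ht0 ht).1 h).and_eventually hp).exists
  exact ⟨r, h1, h2⟩

/-! ### the setup -/

section
variable {κ χ ν₀ lam τ : Cardinal.{0}} {z e F : Ordinal.{0} → Ordinal.{0} → Ordinal.{0}}

theorem SetupL.aleph0_le_χ (S : SetupL κ χ ν₀ lam) : ℵ₀ ≤ χ := S.unc.le.trans S.kle

theorem SetupL.χ_lt (S : SetupL κ χ ν₀ lam) : χ < ν₀ := by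
  rw [S.pow]
  exact cantor χ

theorem SetupL.κ_lt (S : SetupL κ χ ν₀ lam) : κ < ν₀ := S.kle.trans_lt S.χ_lt

theorem SetupL.aleph0_lt_ν₀ (S : SetupL κ χ ν₀ lam) : ℵ₀ < ν₀ := S.aleph0_le_χ.trans_lt S.χ_lt

theorem SetupL.aleph0_le_ν₀ (S : SetupL κ χ ν₀ lam) : ℵ₀ ≤ ν₀ := S.aleph0_lt_ν₀.le

theorem SetupL.pow_χ (S : SetupL κ χ ν₀ lam) : ν₀ ^ χ = ν₀ := by
  rw [S.pow, ← power_mul, mul_eq_self S.aleph0_le_χ]

theorem SetupL.aleph0_le_lam (S : SetupL κ χ ν₀ lam) : ℵ₀ ≤ lam := S.aleph0_le_ν₀.trans S.lt.le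

theorem SetupL.succ_regular (S : SetupL κ χ ν₀ lam) : (succ lam).IsRegular :=
  isRegular_succ S.aleph0_le_lam

theorem SetupL.two_pow_lt (S : SetupL κ χ ν₀ lam) {c : Cardinal.{0}} (hc : c ≤ χ) :
    2 ^ c < succ lam := by
  have h1 : (2 : Cardinal.{0}) ^ c ≤ 2 ^ χ := Cardinal.power_le_power_left two_ne_zero hc
  rw [← S.pow] at h1
  exact h1.trans_lt (S.lt.trans (lt_succ lam))

theorem SetupL.pow_lt (S : SetupL κ χ ν₀ lam) (h : τ < lam) : τ ^ χ < lam := by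
  rcases le_total ν₀ τ with h1 | h1
  · exact (S.small τ h1 h).trans_lt (S.limit τ h)
  · refine (Cardinal.power_le_power_right h1).trans_lt ?_
    rw [S.pow_χ]
    exact S.lt

theorem SetupL.not_regular (S : SetupL κ χ ν₀ lam) {r : Cardinal.{0}} (hr : r.IsRegular)
    (h : r ≤ lam) : r < lam := by
  rcases h.lt_or_eq with h1 | h1
  · exact h1
  · exfalso
    have h2 := hr.cof_ord
    rw [h1, S.cof] at h2
    exact absurd h2 (S.aleph0_lt_ν₀.trans S.lt).ne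

theorem SS.κ_lt (S : SetupL κ χ ν₀ lam) (h : SS κ ν₀ lam τ) : κ < τ := S.κ_lt.trans h.gt

theorem SS.pos (h : SS κ ν₀ lam τ) : 0 < τ.ord := by
  rw [← Cardinal.ord_zero, Cardinal.ord_lt_ord]
  exact bot_le.trans_lt h.gt

theorem SS.aleph0_le (S : SetupL κ χ ν₀ lam) (h : SS κ ν₀ lam τ) : ℵ₀ ≤ τ :=
  S.aleph0_le_ν₀.trans h.gt.le

theorem SS.add_one_lt (S : SetupL κ χ ν₀ lam) (h : SS κ ν₀ lam τ) : ∀ b < τ.ord, b + 1 < τ.ord :=
  fun _ hb => (isSuccLimit_ord (h.aleph0_le S)).add_one_lt hb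

theorem SS.succ_regular (S : SetupL κ χ ν₀ lam) (h : SS κ ν₀ lam τ) : (succ τ).IsRegular :=
  isRegular_succ (h.aleph0_le S)

theorem SS.succ_add_one_lt (S : SetupL κ χ ν₀ lam) (h : SS κ ν₀ lam τ) :
    ∀ b < (succ τ).ord, b + 1 < (succ τ).ord :=
  fun _ hb => (isSuccLimit_ord (h.succ_regular S).aleph0_le).add_one_lt hb

theorem SS.κ_lt_succ (S : SetupL κ χ ν₀ lam) (h : SS κ ν₀ lam τ) : κ < succ τ :=
  (h.κ_lt S).trans (lt_succ τ)

theorem SS.lt_succ_ord : τ.ord < (succ τ).ord := Cardinal.ord_lt_ord.2 (lt_succ τ)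

/-- a regular cardinal `≤ |β|`, `β < τ⁺`, is below `τ` -/
theorem SS.regO_lt (S : SetupL κ χ ν₀ lam) (h : SS κ ν₀ lam τ) {r : Ordinal.{0}} (hr : RegO r)
    (h1 : r < (succ τ).ord) : r < τ.ord := by
  have h2 : r.card ≤ τ := card_le_of_lt_succ_ord h1
  rw [← hr.eq, Cardinal.ord_lt_ord]
  rcases h2.lt_or_eq with h3 | h3
  · exact h3
  · exfalso
    have h4 := hr.reg.cof_ord
    rw [h3] at h4
    exact absurd (h4 ▸ h.cof) (not_lt.2 (h.κ_lt S).le)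

theorem Co_reg {r : Ordinal.{0}} (h : r ∈ Co κ τ) : r.card.IsRegular := h.1.reg

theorem Co_κ_lt {r : Ordinal.{0}} (h : r ∈ Co κ τ) : κ < r.card := by
  have := h.2.1
  rw [← h.1.eq, Cardinal.ord_lt_ord] at this
  exact this

/-- the strict supremum of few elements below a coordinate -/
theorem Co_ssup_lt {r : Ordinal.{0}} (h : r ∈ Co κ τ) {w : Set Ordinal.{0}} (hw : #w ≤ up κ)
    (h1 : ∀ α ∈ w, α < r) : ssup w < r := by
  have h2 : r = r.card.ord := h.1.eq.symm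
  rw [h2] at h1 ⊢
  exact ssup_lt_of_regular (Co_reg h) (hw.trans_lt (Cardinal.lift_lt.2 (Co_κ_lt h))) h1

theorem exists_isE : ∃ e, IsE e := by
  have key : ∀ β : Ordinal.{0}, ∃ E : Ordinal.{0} → Ordinal.{0},
      (∀ i < β.cof.ord, E i < β) ∧ (∀ i j, i < j → j < β.cof.ord → E i < E j) ∧
      ∀ α < β, ∃ i < β.cof.ord, α ≤ E i := fun β => fund rfl
  choose e h1 h2 h3 using key
  exact ⟨e, fun β i hi => h1 β i hi, fun β i j hij hj => h2 β i j hij hj,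
    fun β α hα => h3 β α hα⟩

theorem ib_spec (he : IsE e) {β α : Ordinal.{0}} (h : α < β) :
    ib e β α < β.cof.ord ∧ α ≤ e β (ib e β α) := by
  have hne : ({i | i < β.cof.ord ∧ α ≤ e β i} : Set Ordinal.{0}).Nonempty := by
    obtain ⟨i, h1, h2⟩ := he.cofinal β α h
    exact ⟨i, h1, h2⟩
  exact csInf_mem hne

theorem IsE.mono_le (he : IsE e) {β i j : Ordinal.{0}} (h : i ≤ j) (hj : j < β.cof.ord) :
    e β i ≤ e β j := by
  rcases h.eq_or_lt with h1 | h1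
  · rw [h1]
  · exact (he.mono β i j h1 hj).le

/-- a successor ordinal: `e β 0` is the predecessor -/
theorem IsE.succ (he : IsE e) (γ : Ordinal.{0}) : e (γ + 1) 0 = γ ∧ (0 : Ordinal.{0}) < (γ + 1).cof.ord := by
  have h0 : (γ + 1).cof = 1 := by simp
  have h1 : (0 : Ordinal.{0}) < (γ + 1).cof.ord := by
    rw [h0]
    simp
  refine ⟨?_, h1⟩
  have h2 := he.lt (γ + 1) 0 h1
  obtain ⟨i, hi, h3⟩ := he.cofinal (γ + 1) γ (lt_add_one γ)
  have h4 : i = 0 := by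
    rw [h0] at hi
    simpa using hi
  rw [h4] at h3
  exact le_antisymm (Order.lt_add_one_iff.1 h2) h3

end

end Pool.Agent.STW
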