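import Pool.Agent.STW.Xi

/-!
(3c) of the text: the chain `(Y i)`.
-/

open Cardinal Ordinal Order Set Filter

namespace Pool.Agent.STW

open Pool.Agent.STP

variable {κ χ ν₀ lam τ σ : Cardinal.{0}} {z e F : Ordinal.{0} → Ordinal.{0} → Ordinal.{0}}

/-- iteration of a set operation: `Y i = y ∪ ⋃ j < i, Φ (Y j)` -/
def itY (Φ : Set Ordinal.{0} → Set Ordinal.{0}) (y : Set Ordinal.{0}) (i : Ordinal.{0}) :
    Set Ordinal.{0} :=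
  y ∪ ⋃ t : {j : Ordinal.{0} // j < i}, Φ (itY Φ y t.1)
termination_by i
decreasing_by exact t.2

theorem mem_itY {Φ : Set Ordinal.{0} → Set Ordinal.{0}} {y : Set Ordinal.{0}}
    {i α : Ordinal.{0}} : α ∈ itY Φ y i ↔ α ∈ y ∨ ∃ j < i, α ∈ Φ (itY Φ y j) := by
  rw [itY, Set.mem_union, Set.mem_iUnion]
  constructor
  · rintro (h | ⟨⟨j, hj⟩, h⟩)
    · exact Or.inl h
    · exact Or.inr ⟨j, hj, h⟩
  · rintro (h | ⟨j, hj, h⟩)
    · exact Or.inl h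
    · exact Or.inr ⟨⟨j, hj⟩, h⟩

theorem itY_small (hκ : κ.IsRegular) {Φ : Set Ordinal.{0} → Set Ordinal.{0}}
    (hΦ : ∀ Z : Set Ordinal.{0}, #Z < up κ → #(Φ Z) < up κ) {y : Set Ordinal.{0}} (hy : #y < up κ) :
    ∀ i < κ.ord, #(itY Φ y i) < up κ := by
  have hup : (up κ).IsRegular := hκ.lift
  intro i
  induction i using WellFoundedLT.induction with
  | ind i ih =>
    intro hi
    have h1 : #{j : Ordinal.{0} // j < i} < up κ := by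
      have h2 : #{j : Ordinal.{0} // j < i} = up i.card := by
        have h3 := Cardinal.mk_Iio_ordinal i
        exact h3
      rw [h2]
      exact Cardinal.lift_lt.2 (card_lt_of_lt_ord hi)
    have h4 : #(⋃ t : {j : Ordinal.{0} // j < i}, Φ (itY Φ y t.1) : Set Ordinal.{0}) < up κ :=
      (Cardinal.card_iUnion_lt_iff_forall_of_isRegular hup h1).2 fun t =>
        hΦ _ (ih t.1 t.2 (t.2.trans hi))
    have h5 : itY Φ y i = y ∪ ⋃ t : {j : Ordinal.{0} // j < i}, Φ (itY Φ y t.1) := by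
      rw [itY]
    rw [h5]
    exact (Cardinal.mk_union_le _ _).trans_lt (Cardinal.add_lt_of_lt hup.aleph0_le hy h4)

/-- one step of the chain -/
def stY (κ ν₀ lam τ : Cardinal.{0}) (z e F : Ordinal.{0} → Ordinal.{0} → Ordinal.{0})
    (Z : Set Ordinal.{0}) : Set Ordinal.{0} :=
  {α | α < (succ τ).ord ∧ (α ∈ Z ∨ (∃ β ∈ Z, α = β.cof.ord) ∨ (∃ β ∈ Z, ∃ j ∈ Z, α = e β j) ∨
    (∃ β ∈ Z, ∃ γ ∈ Z, α = ib e β γ) ∨ (∃ ξ ∈ Z, ∃ r ∈ Z, α = F ξ r) ∨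
    (∃ β ∈ Z, α = (succ β.card).ord) ∨ (∃ w : Set Ordinal.{0}, w ⊆ Z ∧ α = ssup w) ∨
    α ∈ Xi κ ν₀ lam τ z e F Z)}

private theorem y3_ssup {Z : Set Ordinal.{0}} (hs : Small.{0} Z) : #{α : Ordinal.{0} | ∃ w : Set Ordinal.{0}, w ⊆ Z ∧ α = ssup w} ≤ #Z + 1 := by
  classical
  rw [← Cardinal.mk_option]
  let f : {α : Ordinal.{0} | ∃ w : Set Ordinal.{0}, w ⊆ Z ∧ α = ssup w} → Option Z := fun v =>
    if h : {β | β ∈ Z ∧ v.1 ≤ β}.Nonempty then some ⟨sInf {β | β ∈ Z ∧ v.1 ≤ β}, (csInf_mem h).1⟩ else none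
  refine Cardinal.mk_le_of_injective (f := f) ?_
  have key : ∀ v₁ v₂ : {α : Ordinal.{0} | ∃ w : Set Ordinal.{0}, w ⊆ Z ∧ α = ssup w}, v₁.1 < v₂.1 → f v₁ ≠ f v₂ := by
    rintro ⟨v₁, h₁⟩ ⟨v₂, w, hw, rfl⟩ hlt he
    have hsw : Small.{0} w := small_subset hw
    obtain ⟨α, hα, hle⟩ := (lt_ssup_iff hsw).1 hlt
    have hαlt : α < ssup w := lt_ssup hsw hα
    have hn : {β | β ∈ Z ∧ v₁ ≤ β}.Nonempty := ⟨α, hw hα, hle⟩
    have h1 : f ⟨v₁, h₁⟩ = some ⟨sInf {β | β ∈ Z ∧ v₁ ≤ β}, (csInf_mem hn).1⟩ := dif_pos hn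
    by_cases hn2 : {β | β ∈ Z ∧ ssup w ≤ β}.Nonempty
    · have h2 : f ⟨ssup w, w, hw, rfl⟩ = some ⟨sInf {β | β ∈ Z ∧ ssup w ≤ β}, (csInf_mem hn2).1⟩ := dif_pos hn2
      rw [h1, h2] at he
      have h3 := congrArg Subtype.val (Option.some.inj he)
      have h4 : sInf {β | β ∈ Z ∧ v₁ ≤ β} ≤ α := csInf_le' ⟨hw hα, hle⟩
      have h5 : ssup w ≤ sInf {β | β ∈ Z ∧ ssup w ≤ β} := (csInf_mem hn2).2
      have h6 : sInf {β | β ∈ Z ∧ v₁ ≤ β} = sInf {β | β ∈ Z ∧ ssup w ≤ β} := h3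
      exact absurd (h5.trans (h6 ▸ h4)) (not_le.2 hαlt)
    · have h2 : f ⟨ssup w, w, hw, rfl⟩ = none := dif_neg hn2
      rw [h1, h2] at he
      cases he
  intro v₁ v₂ he
  rcases lt_trichotomy v₁.1 v₂.1 with h | h | h
  · exact absurd he (key _ _ h)
  · exact Subtype.ext h
  · exact absurd he.symm (key _ _ h)

private theorem y3_image2 {c : Cardinal.{1}} (hc : ℵ₀ < c) {Z : Set Ordinal.{0}} (hZ : #Z < c) (g : Ordinal.{0} → Ordinal.{0} → Ordinal.{0}) :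
    #{α : Ordinal.{0} | ∃ β ∈ Z, ∃ γ ∈ Z, α = g β γ} < c := by
  have h1 : {α : Ordinal.{0} | ∃ β ∈ Z, ∃ γ ∈ Z, α = g β γ} ⊆ Set.range (fun p : Z × Z => g p.1 p.2) := by
    rintro _ ⟨β, hβ, γ, hγ, rfl⟩
    exact ⟨(⟨β, hβ⟩, ⟨γ, hγ⟩), rfl⟩
  refine (Cardinal.mk_le_mk_of_subset h1).trans_lt (Cardinal.mk_range_le.trans_lt ?_)
  rw [Cardinal.mk_prod, Cardinal.lift_id]
  exact Cardinal.mul_lt_of_lt hc.le hZ hZ

private theorem y3_image {c : Cardinal.{1}} {Z : Set Ordinal.{0}} (hZ : #Z < c) (g : Ordinal.{0} → Ordinal.{0}) :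
    #{α : Ordinal.{0} | ∃ β ∈ Z, α = g β} < c := by
  have h1 : {α : Ordinal.{0} | ∃ β ∈ Z, α = g β} ⊆ Set.range (fun p : Z => g p.1) := by
    rintro _ ⟨β, hβ, rfl⟩
    exact ⟨⟨β, hβ⟩, rfl⟩
  exact (Cardinal.mk_le_mk_of_subset h1).trans_lt (Cardinal.mk_range_le.trans_lt hZ)

private theorem y3_union {c : Cardinal.{1}} (hc : ℵ₀ < c) {A B : Set Ordinal.{0}} (hA : #A < c) (hB : #B < c) : #(A ∪ B : Set Ordinal.{0}) < c :=
  (Cardinal.mk_union_le A B).trans_lt (Cardinal.add_lt_of_lt hc.le hA hB)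

theorem stY_small (D : Data κ χ ν₀ lam z e F) (h : SS κ ν₀ lam τ) {Z : Set Ordinal.{0}}
    (hZ : #Z < up κ) : #(stY κ ν₀ lam τ z e F Z) < up κ := by
  have hc : ℵ₀ < up κ := by
    rw [← Cardinal.lift_aleph0.{1, 0}]
    exact Cardinal.lift_lt.2 D.setup.unc
  have hs : Small.{0} Z := by
    rw [Cardinal.small_iff_lift_mk_lt_univ, Cardinal.lift_id]
    exact hZ.trans (Cardinal.lift_lt_univ κ)
  have h1 : stY κ ν₀ lam τ z e F Z ⊆ Z ∪ ({α | ∃ β ∈ Z, α = β.cof.ord} ∪ ({α | ∃ β ∈ Z, ∃ j ∈ Z, α = e β j} ∪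
      ({α | ∃ β ∈ Z, ∃ γ ∈ Z, α = ib e β γ} ∪ ({α | ∃ ξ ∈ Z, ∃ r ∈ Z, α = F ξ r} ∪
      ({α | ∃ β ∈ Z, α = (succ β.card).ord} ∪ ({α | ∃ w : Set Ordinal.{0}, w ⊆ Z ∧ α = ssup w} ∪ Xi κ ν₀ lam τ z e F Z)))))) := by
    rintro α ⟨_, h2⟩
    exact h2
  have h8 : #({α : Ordinal.{0} | ∃ w : Set Ordinal.{0}, w ⊆ Z ∧ α = ssup w}) < up κ := by
    refine (y3_ssup hs).trans_lt (Cardinal.add_lt_of_lt hc.le hZ (Cardinal.one_lt_aleph0.trans hc))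
  refine (Cardinal.mk_le_mk_of_subset h1).trans_lt ?_
  exact y3_union hc hZ (y3_union hc (y3_image hZ _) (y3_union hc (y3_image2 hc hZ _) (y3_union hc (y3_image2 hc hZ _)
    (y3_union hc (y3_image2 hc hZ _) (y3_union hc (y3_image hZ _) (y3_union hc h8 (Xi_small D h hZ).1))))))

/-- the chain `itY (stY …) y` -/
theorem exists_chain (D : Data κ χ ν₀ lam z e F) (h : SS κ ν₀ lam τ) (hσ : σ.IsRegular)
    (hσκ : σ < κ) {y : Set Ordinal.{0}} (hy : y ⊆ Iio τ.ord) (hyc : #y < up κ) :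
    ∃ Y, IsChain κ ν₀ lam τ σ z e F Y ∧ y ⊆ Y 0 := by
  have S := D.setup
  have hsmall : ∀ i < σ.ord, #(itY (stY κ ν₀ lam τ z e F) y i) < up κ := fun i hi =>
    itY_small S.reg (fun Z hZ => stY_small D h hZ) hyc i
      (hi.trans (Cardinal.ord_lt_ord.2 hσκ))
  have hsub : ∀ i, itY (stY κ ν₀ lam τ z e F) y i ⊆ Iio (succ τ).ord := by
    intro i α hα
    rcases mem_itY.1 hα with h1 | ⟨j, _, h1⟩
    · exact (hy h1).trans SS.lt_succ_ord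
    · exact h1.1
  have hstep : ∀ i α, α ∈ stY κ ν₀ lam τ z e F (itY (stY κ ν₀ lam τ z e F) y i) →
      α ∈ itY (stY κ ν₀ lam τ z e F) y (i + 1) := fun i α h1 =>
    mem_itY.2 (Or.inr ⟨i, lt_add_one i, h1⟩)
  have hcof : ∀ β < (succ τ).ord, β.cof.ord < (succ τ).ord := fun β hβ =>
    (Ordinal.ord_cof_le β).trans_lt hβ
  refine ⟨itY (stY κ ν₀ lam τ z e F) y, ⟨fun i _ => hsub i, hsmall, ?_, ?_, ?_, ?_, ?_, ?_, ?_,
    ?_, ?_⟩, ?_⟩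
  · intro i j hij _ α hα
    rcases mem_itY.1 hα with h1 | ⟨k, hk, h1⟩
    · exact mem_itY.2 (Or.inl h1)
    · exact mem_itY.2 (Or.inr ⟨k, hk.trans_le hij, h1⟩)
  · intro i _ h0 hlim α hα
    rcases mem_itY.1 hα with h1 | ⟨k, hk, h1⟩
    · exact ⟨0, h0, mem_itY.2 (Or.inl h1)⟩
    · exact ⟨k + 1, hlim k hk, hstep k α h1⟩
  · intro i _ β hβ
    exact hstep i _ ⟨hcof β (hsub i hβ), Or.inr (Or.inl ⟨β, hβ, rfl⟩)⟩
  · intro i _ β hβ j hj hjβ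
    refine hstep i _ ⟨(D.ise.lt β j hjβ).trans (hsub i hβ), ?_⟩
    exact Or.inr (Or.inr (Or.inl ⟨β, hβ, j, hj, rfl⟩))
  · intro i _ β hβ α hα hαβ
    refine hstep i _ ⟨(ib_spec D.ise hαβ).1.trans (hcof β (hsub i hβ)), ?_⟩
    exact Or.inr (Or.inr (Or.inr (Or.inl ⟨β, hβ, α, hα, rfl⟩)))
  · intro i _ ξ hξ hτξ r hr hrCo
    refine hstep i _ ⟨?_, ?_⟩
    · exact (((D.us τ h).lt ξ hτξ (hsub i hξ) r hrCo).trans hrCo.2.2).trans SS.lt_succ_ord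
    · exact Or.inr (Or.inr (Or.inr (Or.inr (Or.inl ⟨ξ, hξ, r, hr, rfl⟩))))
  · intro i _ α hα hατ
    refine hstep i _ ⟨?_, ?_⟩
    · refine lt_trans ?_ SS.lt_succ_ord
      exact Cardinal.ord_lt_ord.2 (h.limit _ (lt_ord.1 hατ))
    · exact Or.inr (Or.inr (Or.inr (Or.inr (Or.inr (Or.inl ⟨α, hα, rfl⟩)))))
  · intro i hi w hw
    refine hstep i _ ⟨?_, ?_⟩
    · refine ssup_lt_of_regular (h.succ_regular S) ?_ fun α hα => hsub i (hw hα)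
      refine ((Cardinal.mk_le_mk_of_subset hw).trans_lt (hsmall i hi)).trans ?_
      exact Cardinal.lift_lt.2 (h.κ_lt_succ S)
    · exact Or.inr (Or.inr (Or.inr (Or.inr (Or.inr (Or.inr (Or.inl ⟨w, hw, rfl⟩))))))
  · intro i hi ξ hξ
    refine hstep i _ ⟨((Xi_small D h (hsmall i hi)).2 ξ hξ).2, ?_⟩
    exact Or.inr (Or.inr (Or.inr (Or.inr (Or.inr (Or.inr (Or.inr hξ))))))
  · intro α hα
    exact mem_itY.2 (Or.inl hα)

end Pool.Agent.STW
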