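import Pool.Agent.STW.Basic

/-!
(2) and (5) of the text: closed sets, small closures and the first hull system.
-/

open Cardinal Ordinal Order Set Filter

namespace Pool.Agent.STW

open Pool.Agent.STP

variable {κ χ ν₀ lam τ : Cardinal.{0}} {z e F : Ordinal.{0} → Ordinal.{0} → Ordinal.{0}}

theorem closed_sInter {C : Set (Set Ordinal.{0})} (h : ∀ M ∈ C, Closed κ ν₀ lam z e F M) :
    Closed κ ν₀ lam z e F (⋂₀ C) where
  low := fun α hα M hM => (h M hM).low α hα
  zm := fun ε hε α hα =>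
    ⟨fun h1 M hM => ((h M hM).zm ε (hε M hM) α hα).1 (h1 M hM),
      fun h1 M hM => ((h M hM).zm ε (hε M hM) α hα).2 (h1 M hM)⟩
  supm := fun w hw hc M hM => (h M hM).supm w (fun _ ha => hw ha M hM) hc
  cofm := fun β hβ M hM => (h M hM).cofm β (hβ M hM)
  em := fun β hβ i hi hlt M hM => (h M hM).em β (hβ M hM) i (hi M hM) hlt
  ibm := fun β hβ α hα hlt M hM => (h M hM).ibm β (hβ M hM) α (hα M hM) hlt
  Fm := fun τ hτ ξ hξ h1 h2 r hr hr' M hM => (h M hM).Fm τ hτ ξ (hξ M hM) h1 h2 r (hr M hM) hr'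
  xim := fun τ hτ G hG hc hu hm M hM =>
    (h M hM).xim τ hτ G hG hc hu fun p hp => ⟨(hm p hp).1 M hM, (hm p hp).2 M hM⟩
  sucm := fun α hα M hM => (h M hM).sucm α (hα M hM)

theorem Closed.inter {M M' : Set Ordinal.{0}} (h : Closed κ ν₀ lam z e F M)
    (h' : Closed κ ν₀ lam z e F M') : Closed κ ν₀ lam z e F (M ∩ M') := by
  have h1 := closed_sInter (C := {M, M'}) (κ := κ) (ν₀ := ν₀) (lam := lam) (z := z) (e := e)
    (F := F) (by
      rintro N (rfl | hN)
      · exact h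
      · rw [mem_singleton_iff.1 hN]
        exact h')
  rwa [Set.sInter_pair] at h1

/-- arities -/
private def k2_ar {A : Set Ordinal.{0}} (I P : Type 1) : A ⊕ P → Type 1
  | Sum.inl _ => PEmpty
  | Sum.inr _ => I

/-- evaluation -/
private def k2_ev {I P : Type 1} {A : Set Ordinal.{0}} (W : P → (I → Ordinal.{0}) → Ordinal.{0}) :
    WType (k2_ar (A := A) I P) → Ordinal.{0}
  | WType.mk (Sum.inl a) _ => a.1
  | WType.mk (Sum.inr p) g => W p (fun j : I => k2_ev W (g j))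

/-- closing off a set under `d` many operations of arity `≤ χ`, `d ^ χ = d` (see `ClosedSet.lean`
of the library: `WType` on `A ⊕ P` with arities `PEmpty`, `I`) -/
theorem exists_small_closure {χ d : Cardinal.{0}} (hd : ℵ₀ ≤ d) (hpow : d ^ χ = d)
    {I P : Type 1} (hI : #I ≤ up χ) (hP : #P ≤ up d) (W : P → (I → Ordinal.{0}) → Ordinal.{0})
    {A : Set Ordinal.{0}} (hA : #A ≤ up d) :
    ∃ N : Set Ordinal.{0}, A ⊆ N ∧ #N ≤ up d ∧
      ∀ p, ∀ g : I → Ordinal.{0}, (∀ i, g i ∈ N) → W p g ∈ N := by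
  refine ⟨Set.range (k2_ev (A := A) W), ?_, ?_, ?_⟩
  · intro a ha
    exact ⟨WType.mk (Sum.inl ⟨a, ha⟩) (fun x : PEmpty => x.elim), by rw [k2_ev]⟩
  · refine (Cardinal.mk_range_le).trans ?_
    have hν₀' : ℵ₀ ≤ up d := by
      rw [up, aleph0_le_lift]; exact hd
    have hpow2 : (up d) ^ (up χ) = up d := by
      rw [up, up, ← lift_power, hpow]
    refine WType.cardinalMk_le_of_le' ?_
    calc (Cardinal.sum fun a : A ⊕ P => (up d) ^ lift.{1} #(k2_ar (A := A) I P a))
        ≤ Cardinal.sum fun _ : A ⊕ P => up d := by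
          refine Cardinal.sum_le_sum _ _ fun a => ?_
          rw [Cardinal.lift_id]
          rcases a with i | i
          · have : #(k2_ar (A := A) I P (Sum.inl i)) = 0 := by
              change #PEmpty = 0
              exact mk_pempty
            rw [this, power_zero]
            exact one_le_aleph0.trans hν₀'
          · have : #(k2_ar (A := A) I P (Sum.inr i)) = #I := rfl
            rw [this]
            calc (up d) ^ #I ≤ (up d) ^ (up χ) := by
                  refine power_le_power_left ?_ hI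
                  intro h0
                  rw [h0] at hν₀'
                  exact absurd (hν₀') (not_le.2 aleph0_pos)
              _ = up d := hpow2
      _ = #(A ⊕ P) * up d := by rw [Cardinal.sum_const']
      _ ≤ up d * up d := by
          refine mul_le_mul' ?_ le_rfl
          rw [mk_sum, Cardinal.lift_id, Cardinal.lift_id]
          calc #A + #P ≤ up d + up d := add_le_add hA hP
            _ = up d := add_eq_self hν₀'
      _ = up d := mul_eq_self hν₀'
  · intro p u hu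
    choose t ht using hu
    refine ⟨WType.mk (Sum.inr p) (fun j : I => t j), ?_⟩
    rw [k2_ev]
    have : (fun j : I => k2_ev W (t j)) = u := funext ht
    rw [this]

open Classical in
/-- the operations -/
noncomputable def k3_W {κ : Cardinal.{0}} (z e F : Ordinal.{0} → Ordinal.{0} → Ordinal.{0})
    (f : Ordinal.{0} → ℕ → Ordinal.{0}) (i0 : Iio κ.ord) (p : ULift.{1} ℕ)
    (g : Iio κ.ord ⊕ Iio κ.ord → Ordinal.{0}) : Ordinal.{0} :=
  match p.down with
  | 0 => if g (Sum.inr i0) < g (Sum.inl i0) then z (g (Sum.inl i0)) (g (Sum.inr i0)) else 0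
  | 1 => if h : ∃ α, α < g (Sum.inl i0) ∧ z (g (Sum.inl i0)) α = g (Sum.inr i0) then h.choose
      else 0
  | 2 => ssup (range fun i => g (Sum.inl i))
  | 3 => (g (Sum.inl i0)).cof.ord
  | 4 => e (g (Sum.inl i0)) (g (Sum.inr i0))
  | 5 => ib e (g (Sum.inl i0)) (g (Sum.inr i0))
  | 6 => F (g (Sum.inl i0)) (g (Sum.inr i0))
  | 7 => xi (ssup (range fun i => g (Sum.inl i))).card F
      (range fun i => (g (Sum.inl i), g (Sum.inr i)))
  | 8 => (succ (g (Sum.inl i0)).card).ord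
  | n + 9 => f (g (Sum.inl i0)) n

/-- small closed sets exist.  The operations: `z`, its inverse, `ssup` of the range of
`g : κ → Ord`, `cof`, `e`, `ib`, `F`, `α ↦ |α|⁺`, `f · n` and
`(g₁, g₂) ↦ xi |ssup (range g₁)| F {(g₁ i, g₂ i) : i < κ}`, all as operations of arity
`Iio κ.ord ⊕ Iio κ.ord` (so `I` has size `κ ≤ χ`) -/
theorem exists_small_closed (D : Data κ χ ν₀ lam z e F) {d : Cardinal.{0}} (hd : ν₀ ≤ d)
    (hpow : d ^ χ = d) (f : Ordinal.{0} → ℕ → Ordinal.{0}) {A : Set Ordinal.{0}}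
    (hA : #A ≤ up d) :
    ∃ N : Set Ordinal.{0}, Closed κ ν₀ lam z e F N ∧ (∀ γ' ∈ N, ∀ n, f γ' n ∈ N) ∧ A ⊆ N ∧
      #N ≤ up d := by
  classical
  have S := D.setup
  have hd0 : ℵ₀ ≤ d := S.aleph0_le_ν₀.trans hd
  have hd1 : ℵ₀ ≤ up d := Cardinal.aleph0_le_lift.2 hd0
  have hκ1 : ℵ₀ ≤ up κ := Cardinal.aleph0_le_lift.2 S.unc.le
  have hκ0 : (0 : Ordinal.{0}) < κ.ord := by
    rw [← Cardinal.ord_zero, Cardinal.ord_lt_ord]
    exact S.reg.pos
  let i0 : Iio κ.ord := ⟨0, hκ0⟩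
  have hI : #(Iio κ.ord ⊕ Iio κ.ord) ≤ up χ := by
    rw [mk_sum, Cardinal.lift_id, mk_Iio_ord, Cardinal.add_eq_self hκ1]
    exact Cardinal.lift_le.2 S.kle
  have hP : #(ULift.{1} ℕ) ≤ up d := by
    rw [Cardinal.mk_uLift, Cardinal.mk_nat, Cardinal.lift_aleph0]
    exact hd1
  have hA' : #(A ∪ Iio ν₀.ord : Set Ordinal.{0}) ≤ up d := by
    refine (mk_union_le _ _).trans ?_
    rw [mk_Iio_ord]
    exact (add_le_add hA (Cardinal.lift_le.2 hd)).trans (Cardinal.add_eq_self hd1).le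
  obtain ⟨N, hAN, hN, hW⟩ := exists_small_closure hd0 hpow hI hP (k3_W z e F f i0) hA'
  have hlow : ∀ α < ν₀.ord, α ∈ N := fun α hα => hAN (Or.inr hα)
  have h2 : ∀ n : ℕ, ∀ a ∈ N, ∀ b ∈ N,
      k3_W z e F f i0 ⟨n⟩ (Sum.elim (fun _ => a) (fun _ => b)) ∈ N := by
    intro n a ha b hb
    apply hW
    rintro (i | i)
    · exact ha
    · exact hb
  -- families of fewer than `κ` elements
  have hfam : ∀ {X : Type 1} (_ : Nonempty X) (_ : #X < up κ),
      ∃ φ : Iio κ.ord → X, Function.Surjective φ := by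
    intro X hX hc
    have h1 : #X ≤ #(Iio κ.ord) := by
      rw [mk_Iio_ord]
      exact hc.le
    obtain ⟨ψ⟩ := h1
    exact ⟨Function.invFun ψ, Function.invFun_surjective ψ.injective⟩
  refine ⟨N, ⟨hlow, ?_, ?_, ?_, ?_, ?_, ?_, ?_, ?_⟩, ?_, fun α hα => hAN (Or.inl hα), hN⟩
  · intro ε hε α hα
    constructor
    · intro h
      have := h2 0 ε hε α h
      simpa [k3_W, hα] using this
    · intro h
      have := h2 1 ε hε _ h
      have hex : ∃ α', α' < ε ∧ z ε α' = z ε α := ⟨α, hα, rfl⟩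
      simp only [k3_W, Sum.elim_inl, Sum.elim_inr, dif_pos hex] at this
      rwa [D.isz.inj ε _ _ hex.choose_spec.1 hα hex.choose_spec.2] at this
  · intro w hw hwc
    rcases w.eq_empty_or_nonempty with h0 | h0
    · rw [h0, ssup_empty]
      refine hlow 0 ?_
      rw [← Cardinal.ord_zero, Cardinal.ord_lt_ord]
      exact S.κ_lt.pos
    · obtain ⟨φ, hφ⟩ := hfam h0.to_subtype hwc
      have := hW ⟨2⟩ (Sum.elim (fun i => (φ i : Ordinal.{0})) (fun i => (φ i : Ordinal.{0})))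
        (by
          rintro (i | i)
          · exact hw (φ i).2
          · exact hw (φ i).2)
      have h3 : (range fun i => (φ i : Ordinal.{0})) = w := by
        ext x
        constructor
        · rintro ⟨i, rfl⟩
          exact (φ i).2
        · intro hx
          obtain ⟨i, hi⟩ := hφ ⟨x, hx⟩
          exact ⟨i, congrArg Subtype.val hi⟩
      simpa [k3_W, h3] using this
  · intro β hβ
    exact h2 3 β hβ β hβ
  · intro β hβ i hi _
    exact h2 4 β hβ i hi
  · intro β hβ α hα _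
    exact h2 5 β hβ α hα
  · intro τ _ ξ hξ _ _ r hr _
    exact h2 6 ξ hξ r hr
  · intro τ hτ G hGc hG hu hGN
    have hne : Nonempty G := by
      obtain ⟨p, hp, -⟩ := hu 0 hτ.pos
      exact ⟨⟨p, hp⟩⟩
    obtain ⟨φ, hφ⟩ := hfam hne hGc
    have := hW ⟨7⟩ (Sum.elim (fun i => (φ i).1.1) (fun i => (φ i).1.2))
      (by
        rintro (i | i)
        · exact (hGN _ (φ i).2).1
        · exact (hGN _ (φ i).2).2)
    have h3 : (range fun i => ((φ i).1.1, (φ i).1.2)) = G := by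
      ext x
      constructor
      · rintro ⟨i, rfl⟩
        exact (φ i).2
      · intro hx
        obtain ⟨i, hi⟩ := hφ ⟨x, hx⟩
        exact ⟨i, congrArg Subtype.val hi⟩
    have h4 : ssup (range fun i => (φ i).1.1) = τ.ord := by
      apply le_antisymm
      · apply ssup_le
        rintro _ ⟨i, rfl⟩
        exact (hG _ (φ i).2).1.2.2
      · by_contra hcon
        rw [not_le] at hcon
        obtain ⟨p, hp, h5⟩ := hu _ hcon
        obtain ⟨i, hi⟩ := hφ ⟨p, hp⟩
        have hsm : Small.{0} (range fun i => (φ i).1.1) := by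
          apply small_of_mk_le (c := κ)
          refine mk_range_le.trans ?_
          rw [mk_Iio_ord]
        have h6 := lt_ssup hsm (α := p.1) ⟨i, by simp [hi]⟩
        exact absurd h5 (not_lt.2 h6.le)
    simp only [k3_W, Sum.elim_inl, Sum.elim_inr] at this
    rw [h3, h4, card_ord] at this
    exact this
  · intro α hα
    exact h2 8 α hα α hα
  · intro γ' hγ' n
    exact h2 (n + 9) γ' hγ' γ' hγ'

variable {d t : ℕ → Cardinal.{0}} {f : Ordinal.{0} → ℕ → Ordinal.{0}}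

theorem H1_closed (γ : Ordinal.{0}) (m : ℕ) :
    Closed κ ν₀ lam z e F (H1 κ ν₀ lam z e F d f γ m) ∧
    (∀ γ' ∈ H1 κ ν₀ lam z e F d f γ m, γ' < (succ lam).ord → ∀ n,
      f γ' n ∈ H1 κ ν₀ lam z e F d f γ m) ∧
    Iio (d m).ord ⊆ H1 κ ν₀ lam z e F d f γ m ∧ γ ∈ H1 κ ν₀ lam z e F d f γ m := by
  refine ⟨closed_sInter fun M hM => hM.1, ?_, ?_, ?_⟩
  · intro γ' h hlt n M hM
    exact hM.2.1 γ' (h M hM) hlt n
  · intro α hα M hM
    exact hM.2.2.1 hα
  · intro M hM
    exact hM.2.2.2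

theorem H1_mono {γ γ' : Ordinal.{0}} {m : ℕ} (h : γ' ∈ H1 κ ν₀ lam z e F d f γ m) :
    H1 κ ν₀ lam z e F d f γ' m ⊆ H1 κ ν₀ lam z e F d f γ m := by
  intro α hα
  rw [H1, Set.mem_sInter] at hα h ⊢
  intro M hM
  exact hα M ⟨hM.1, hM.2.1, hM.2.2.1, h M hM⟩

/-- increasing modulo finite: for `γ' < γ < λ⁺` and almost all `m` -/
theorem H1_mono_ev (D : Data κ χ ν₀ lam z e F) (R : IsRootN χ ν₀ lam d t f)
    {γ γ' : Ordinal.{0}} (h : γ' < γ) (hγ : γ < (succ lam).ord) :
    ∀ᶠ m in atTop, γ' ∈ H1 κ ν₀ lam z e F d f γ m ∧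
      H1 κ ν₀ lam z e F d f γ' m ⊆ H1 κ ν₀ lam z e F d f γ m := by
  have h1 : z γ γ' < lam.ord :=
    (D.isz.lt γ γ' h).trans_le (Cardinal.ord_le_ord.2 (card_le_of_lt_succ_ord hγ))
  have h2 : (z γ γ').card < lam := Cardinal.lt_ord.1 h1
  refine (R.d_tend _ h2).mono fun m hm => ?_
  obtain ⟨hC, -, hlow, hself⟩ := H1_closed (κ := κ) (ν₀ := ν₀) (lam := lam) (z := z) (e := e)
    (F := F) (d := d) (f := f) γ m
  have h3 : z γ γ' ∈ H1 κ ν₀ lam z e F d f γ m := hlow (Cardinal.lt_ord.2 hm)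
  have h4 : γ' ∈ H1 κ ν₀ lam z e F d f γ m := (hC.zm γ hself γ' h).2 h3
  exact ⟨h4, H1_mono h4⟩

theorem H1_small (D : Data κ χ ν₀ lam z e F) (R : IsRootN χ ν₀ lam d t f) (γ : Ordinal.{0})
    (m : ℕ) : #(H1 κ ν₀ lam z e F d f γ m) ≤ up (d m) := by
  have hinf : ℵ₀ ≤ up (d m) := by
    rw [Cardinal.aleph0_le_lift]
    exact D.setup.aleph0_le_ν₀.trans (R.d_ge m)
  have hA : #(Iio (d m).ord ∪ {γ} : Set Ordinal.{0}) ≤ up (d m) := by
    refine (Cardinal.mk_union_le _ _).trans ?_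
    rw [mk_Iio_ord, Cardinal.mk_singleton]
    exact Cardinal.add_le_of_le hinf le_rfl (Cardinal.one_le_aleph0.trans hinf)
  obtain ⟨N, h1, h2, h3, h4⟩ := exists_small_closed D (R.d_ge m) (R.d_pow m) f hA
  refine (Cardinal.mk_le_mk_of_subset (Set.sInter_subset_of_mem ?_)).trans h4
  exact ⟨h1, fun γ' hγ' _ n => h2 γ' hγ' n, fun α hα => h3 (Or.inl hα), h3 (Or.inr rfl)⟩

end Pool.Agent.STW
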