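import Pool.Agent.STW.Basic

/-!
(4) of the text: the root scale at `lam` (cofinality `ω`).
-/

open Cardinal Ordinal Order Set Filter

namespace Pool.Agent.STW

open Pool.Agent.STP

variable {κ χ ν₀ lam : Cardinal.{0}} {z : Ordinal.{0} → Ordinal.{0} → Ordinal.{0}}

theorem r1_Iio {c : Cardinal.{0}} (i : c.ord.ToType) : #(Iio i) < c := by
  have h := mk_Iio_lt i (by rw [mk_ord_toType, type_toType])
  rwa [mk_ord_toType] at h

/-- bounded functions -/
theorem r1_bdd {χ τ : Cardinal.{0}} (hτ : ℵ₀ ≤ τ) (hcof : χ < τ.ord.cof)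
    (h : ∀ b < τ, b ^ χ ≤ τ) : τ ^ χ ≤ τ := by
  classical
  have hα : #τ.ord.ToType = τ := mk_ord_toType τ
  have hbd : ∀ f : χ.out → τ.ord.ToType, ∃ t, ∀ x, f x < t := by
    intro f
    have h1 : #(range f) < τ.ord.cof := by
      refine mk_range_le.trans_lt ?_
      rwa [mk_out]
    have h2 : ¬ IsCofinal (range f) := by
      intro hc
      have h3 := Order.cof_le hc
      rw [cof_toType] at h3
      exact absurd h1 (not_lt.2 h3)
    unfold IsCofinal at h2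
    push Not at h2
    obtain ⟨t, ht⟩ := h2
    exact ⟨t, fun x => ht _ (mem_range_self x)⟩
  choose t ht using hbd
  let Φ : (χ.out → τ.ord.ToType) → Σ t : τ.ord.ToType, (χ.out → Iio t) :=
    fun f => ⟨t f, fun x => ⟨f x, ht f x⟩⟩
  have hΦ : Function.Injective Φ := by
    intro f g hfg
    funext x
    have h2 : ∀ (p q : Σ t : τ.ord.ToType, (χ.out → Iio t)), p = q →
        (p.2 x : τ.ord.ToType) = q.2 x := by
      rintro p q rfl
      rfl
    exact h2 _ _ hfg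
  have h1 := mk_le_of_injective hΦ
  rw [mk_pi, prod_const] at h1
  simp only [mk_out, hα, Cardinal.lift_id] at h1
  refine h1.trans ?_
  rw [mk_sigma]
  have h2 : ∀ t : τ.ord.ToType, #(χ.out → Iio t) ≤ τ := by
    intro t
    rw [mk_pi, prod_const]
    simp only [mk_out, Cardinal.lift_id]
    refine h _ ?_
    exact r1_Iio t
  refine (sum_le_sum _ (fun _ => τ) h2).trans ?_
  rw [sum_const]
  simp only [hα, Cardinal.lift_id]
  rw [mul_eq_self hτ]

/-- Hausdorff's formula -/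
theorem SetupL.pow_succ (S : SetupL κ χ ν₀ lam) {b : Cardinal.{0}} (hb : ν₀ ≤ b) (hb' : b < lam) :
    (succ b) ^ χ = succ b := by
  have h1 : χ < b := S.χ_lt.trans_le hb
  have h2 : ℵ₀ ≤ b := S.aleph0_le_ν₀.trans hb
  have hreg : (succ b).IsRegular := isRegular_succ h2
  refine le_antisymm ?_ ?_
  · refine r1_bdd (h2.trans (le_succ b)) ?_ ?_
    · rw [hreg.cof_ord]
      exact h1.trans (lt_succ b)
    · intro c hc
      exact (Cardinal.power_le_power_right (lt_succ_iff.1 hc)).trans (S.small b hb hb')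
  · exact Cardinal.self_le_power _ (Cardinal.one_le_aleph0.trans S.aleph0_le_χ)

/-- exact upper bounds modulo finite, index set `ℕ` (adapt `exists_eub`, library Eub.lean, with
`exists_closed_set` for `χ = ℵ₀`, `I = ULift ℕ`) -/
theorem exists_eubN {c : Cardinal.{0}} (hc : c.IsRegular) (h2 : 2 ^ ℵ₀ < c)
    {top : ℕ → Ordinal.{0}} {s : Ordinal.{0} → ℕ → Ordinal.{0}}
    (hlt : ∀ γ < c.ord, ∀ n, s γ n < top n)
    (hinc : ∀ γ γ', γ < γ' → γ' < c.ord → ∀ᶠ n in atTop, s γ n < s γ' n) :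
    ∃ δ : ℕ → Ordinal.{0}, (∀ n, δ n ≤ top n) ∧
      (∀ γ < c.ord, ∀ᶠ n in atTop, s γ n < δ n) ∧
      ∀ h : ℕ → Ordinal.{0}, ∃ γ < c.ord, ∀ᶠ n in atTop, h n < δ n → h n < s γ n := by
  classical
  by_contra hne
  have hsl : ∀ γ < c.ord, γ + 1 < c.ord := fun γ hγ =>
    (Cardinal.isSuccLimit_ord hc.aleph0_le).add_one_lt hγ
  let I : Type 1 := ULift.{1} ℕ
  have hI : #I ≤ up ℵ₀ := by
    simp [I]
  have hw : ∀ u : I → Ordinal.{0}, ∃ h : ℕ → Ordinal.{0},
      ((∀ n, u ⟨n⟩ ≤ top n) ∧ ∀ γ < c.ord, ∀ᶠ n in atTop, s γ n < u ⟨n⟩) →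
      ∀ γ < c.ord, ∃ᶠ n in atTop, h n < u ⟨n⟩ ∧ s γ n ≤ h n := by
    intro u
    by_cases hub : (∀ n, u ⟨n⟩ ≤ top n) ∧ ∀ γ < c.ord, ∀ᶠ n in atTop, s γ n < u ⟨n⟩
    · by_contra h0
      push Not at h0
      apply hne
      refine ⟨fun n => u ⟨n⟩, hub.1, hub.2, ?_⟩
      intro h
      obtain ⟨-, γ, hγ, h1⟩ := h0 h
      exact ⟨γ, hγ, h1⟩
    · exact ⟨fun _ => 0, fun h => absurd h hub⟩
  choose hh hhs using hw
  obtain ⟨N, hN1, hN2, hN3⟩ := exists_closed_set (χ := ℵ₀) (ν₀ := 2 ^ ℵ₀) rfl le_rfl (I := I)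
    hI (fun b => top b.down) (fun u b => hh u b.down)
  have hch : ∀ (γ : Ordinal.{0}) (b : I), ∃ x : N, s γ b.down < top b.down →
      s γ b.down ≤ x.1 ∧ x.1 ≤ top b.down ∧ ∀ y ∈ N, s γ b.down ≤ y → x.1 ≤ y := by
    intro γ b
    by_cases h : s γ b.down < top b.down
    · have hne1 : ({x | x ∈ N ∧ s γ b.down ≤ x} : Set Ordinal.{0}).Nonempty :=
        ⟨_, hN2 b, h.le⟩
      obtain ⟨a, ha, hm⟩ := WellFounded.has_min (wellFounded_lt (α := Ordinal.{0})) _ hne1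
      refine ⟨⟨a, ha.1⟩, fun _ => ⟨ha.2, ?_, ?_⟩⟩
      · exact not_lt.1 (hm _ ⟨hN2 b, h.le⟩)
      · intro y hy hy'
        exact not_lt.1 (hm _ ⟨hy, hy'⟩)
    · exact ⟨⟨_, hN2 b⟩, fun h' => absurd h' h⟩
  choose ch hch1 using hch
  have hcard : #(I → N) < up c := by
    have h1 : #(I → N) ≤ up (2 ^ ℵ₀) := by
      rw [← Cardinal.power_def]
      have h3 : (#N) ^ (#I) ≤ (up (2 ^ ℵ₀)) ^ (up ℵ₀) := by
        refine (Cardinal.power_le_power_right hN1).trans ?_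
        refine Cardinal.power_le_power_left ?_ hI
        intro h0
        have h4 : (2 : Cardinal.{0}) ^ ℵ₀ = 0 := Cardinal.lift_eq_zero.1 h0
        exact absurd (aleph0_pos.trans (cantor ℵ₀)) (by rw [h4]; exact lt_irrefl _)
      refine h3.trans ?_
      rw [← Cardinal.lift_power, ← power_mul, mul_eq_self le_rfl]
    exact lt_of_le_of_lt h1 (Cardinal.lift_strictMono.lt_iff_lt.2 h2)
  obtain ⟨u, hu⟩ := pigeonhole hc hcard ch
  obtain ⟨u', hu'⟩ : ∃ u' : I → Ordinal.{0}, ∀ b, u' b = (u b).1 := ⟨_, fun b => rfl⟩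
  have h0lt : (0 : Ordinal.{0}) < c.ord := (Cardinal.isSuccLimit_ord hc.aleph0_le).bot_lt
  have hub : (∀ n, u' ⟨n⟩ ≤ top n) ∧ ∀ γ < c.ord, ∀ᶠ n in atTop, s γ n < u' ⟨n⟩ := by
    constructor
    · intro n
      obtain ⟨γ', -, h3, h4⟩ := hu 0 h0lt
      rw [hu', ← h4]
      exact (hch1 γ' ⟨n⟩ (hlt γ' h3 n)).2.1
    · intro γ hγ
      obtain ⟨γ', h5, h3, h4⟩ := hu (γ + 1) (hsl γ hγ)
      have h6 : γ < γ' := lt_of_lt_of_le (lt_add_one γ) h5
      filter_upwards [hinc γ γ' h6 h3] with n h7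
      rw [hu', ← h4]
      exact h7.trans_le (hch1 γ' ⟨n⟩ (hlt γ' h3 n)).1
  obtain ⟨γ', -, h3, h4⟩ := hu 0 h0lt
  obtain ⟨n, h5, h6⟩ := (hhs u' hub γ' h3).exists
  have h7 : hh u' n ∈ N :=
    hN3 u' (fun i => by rw [hu']; exact (u i).2) ⟨n⟩
  rw [hu', ← h4] at h5
  have h8 := (hch1 γ' ⟨n⟩ (hlt γ' h3 n)).2.2 _ h7 h6
  exact absurd h5 (not_lt.2 h8)

/-- `d n = (max ν₀ |a n|)⁺` for a cofinal sequence `a` in `lam` -/
theorem exists_d (S : SetupL κ χ ν₀ lam) :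
    ∃ d : ℕ → Cardinal.{0}, (∀ n, ν₀ < d n) ∧ (∀ n, d n < lam) ∧ (∀ n, d n ^ χ = d n) ∧
      ∀ b < lam, ∀ᶠ n in atTop, b < d n := by
  obtain ⟨e, he⟩ := exists_isE
  have hcof : lam.ord.cof.ord = ω := by rw [S.cof, Cardinal.ord_aleph0]
  have hn : ∀ n : ℕ, (n : Ordinal.{0}) < lam.ord.cof.ord := fun n => by
    rw [hcof]; exact Ordinal.natCast_lt_omega0 n
  have ha : ∀ n : ℕ, e lam.ord n < lam.ord := fun n => he.lt _ _ (hn n)
  have hm : ∀ n : ℕ, max ν₀ (e lam.ord n).card < lam := fun n =>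
    max_lt S.lt (Cardinal.lt_ord.1 (ha n))
  refine ⟨fun n => succ (max ν₀ (e lam.ord n).card), fun n => lt_succ_of_le (le_max_left _ _),
    fun n => S.limit _ (hm n), fun n => S.pow_succ (le_max_left _ _) (hm n), fun b hb => ?_⟩
  obtain ⟨i, hi, h1⟩ := he.cofinal lam.ord b.ord (Cardinal.ord_lt_ord.2 hb)
  rw [hcof] at hi
  obtain ⟨m, rfl⟩ := Ordinal.lt_omega0.1 hi
  refine Filter.eventually_atTop.2 ⟨m, fun n hmn => ?_⟩
  have h2 : e lam.ord m ≤ e lam.ord n := he.mono_le (Nat.cast_le.2 hmn) (hn n)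
  have h3 : b ≤ (e lam.ord n).card := by
    have h4 := Ordinal.card_le_card (h1.trans h2)
    rwa [Cardinal.card_ord] at h4
  exact lt_succ_of_le (h3.trans (le_max_right _ _))

private noncomputable def r4_seq (z : Ordinal.{0} → Ordinal.{0} → Ordinal.{0}) (b : Cardinal.{0})
    (γ : Ordinal.{0}) : Ordinal.{0} :=
  ssup (range fun t : {γ' : Ordinal.{0} // γ' < γ ∧ z γ γ' < b.ord} => r4_seq z b t.1)
termination_by γ
decreasing_by exact t.2.1

private theorem r4_card {b : Cardinal.{0}}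
    {z : Ordinal.{0} → Ordinal.{0} → Ordinal.{0}} (hz : IsZ z) (γ : Ordinal.{0})
    (g : {γ' : Ordinal.{0} // γ' < γ ∧ z γ γ' < b.ord} → Ordinal.{0}) :
    #(range g) ≤ up b := by
  refine mk_range_le.trans ?_
  rw [← mk_Iio_ord b]
  refine Cardinal.mk_le_of_injective (f := fun t => ⟨z γ t.1, t.2.2⟩) ?_
  intro t t' h
  exact Subtype.ext (hz.inj γ _ _ t.2.1 t'.2.1 (congrArg Subtype.val h))

/-- `s γ n = ssup {s γ' n : γ' < γ, z γ γ' < d n}` (as `Root_seq`, library Root.lean) -/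
theorem exists_sN (S : SetupL κ χ ν₀ lam) (hz : IsZ z) {d : ℕ → Cardinal.{0}}
    (hd : ∀ n, ν₀ < d n) (htend : ∀ b < lam, ∀ᶠ n in atTop, b < d n) :
    ∃ s : Ordinal.{0} → ℕ → Ordinal.{0}, (∀ γ n, s γ n < (succ (d n)).ord) ∧
      ∀ γ γ', γ < γ' → γ' < (succ lam).ord → ∀ᶠ n in atTop, s γ n < s γ' n := by
  refine ⟨fun γ n => r4_seq z (d n) γ, ?_, ?_⟩
  · intro γ n
    induction γ using WellFoundedLT.induction with
    | _ γ ih =>
      show r4_seq z (d n) γ < (succ (d n)).ord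
      rw [r4_seq]
      refine ssup_lt_of_regular (isRegular_succ (S.aleph0_le_ν₀.trans (hd n).le)) ?_ ?_
      · refine (r4_card hz γ _).trans_lt ?_
        exact Cardinal.lift_lt.2 (Order.lt_succ _)
      · rintro _ ⟨t, rfl⟩
        exact ih t.1 t.2.1
  · intro γ γ' h hγ'
    have h1 : z γ' γ < lam.ord :=
      (hz.lt γ' γ h).trans_le (Cardinal.ord_le_ord.2 (card_le_of_lt_succ_ord hγ'))
    filter_upwards [htend _ (Cardinal.lt_ord.1 h1)] with n hn
    show r4_seq z (d n) γ < r4_seq z (d n) γ'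
    conv_rhs => rw [r4_seq]
    refine lt_ssup (small_of_mk_le (r4_card hz γ' _)) ?_
    exact ⟨⟨γ, h, Cardinal.lt_ord.2 hn⟩, rfl⟩

/-- the cofinalities of an exact upper bound tend to `lam` -/
theorem eub_cof (S : SetupL κ χ ν₀ lam) {s : Ordinal.{0} → ℕ → Ordinal.{0}}
    {δ : ℕ → Ordinal.{0}}
    (hinc : ∀ γ γ', γ < γ' → γ' < (succ lam).ord → ∀ᶠ n in atTop, s γ n < s γ' n)
    (hub : ∀ γ < (succ lam).ord, ∀ᶠ n in atTop, s γ n < δ n)
    (hexa : ∀ h : ℕ → Ordinal.{0}, ∃ γ < (succ lam).ord, ∀ᶠ n in atTop,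
      h n < δ n → h n < s γ n) :
    ∀ b < lam, ∀ᶠ n in atTop, b < (δ n).cof := by
  classical
  intro b hb
  obtain ⟨e, he⟩ := exists_isE
  by_contra hcon
  have hfr : ∃ᶠ n in atTop, (δ n).cof ≤ max b ν₀ := by
    refine (Filter.not_eventually.1 hcon).mono fun n hn => ?_
    exact (not_lt.1 hn).trans (le_max_left _ _)
  have hb' : max b ν₀ < lam := max_lt hb S.lt
  have hT : #(ℕ → Iio (max b ν₀).ord) < up (succ lam) := by
    have h1 : #(ℕ → Iio (max b ν₀).ord) = up ((max b ν₀) ^ ℵ₀) := by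
      rw [Cardinal.mk_arrow, mk_Iio_ord]
      simp [Cardinal.lift_power]
    rw [h1]
    refine Cardinal.lift_lt.2 ?_
    have h2 : (max b ν₀) ^ ℵ₀ ≤ (max b ν₀) ^ χ :=
      Cardinal.power_le_power_left (S.aleph0_lt_ν₀.trans_le (le_max_right _ _)).ne_bot
        S.aleph0_le_χ
    exact (h2.trans_lt (S.pow_lt hb')).trans (lt_succ lam)
  choose Γ hΓ1 hΓ2 using fun i : ℕ → Iio (max b ν₀).ord =>
    hexa fun n => if ((i n : Ordinal.{0})) < (δ n).cof.ord then e (δ n) (i n) else 0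
  obtain ⟨γ, hγ, hle⟩ := sup_bound S.succ_regular hT Γ hΓ1
  have hpos : (0 : Ordinal.{0}) < (max b ν₀).ord := by
    rw [← Cardinal.ord_zero, Cardinal.ord_lt_ord]
    exact (bot_le.trans_lt S.aleph0_lt_ν₀).trans_le (le_max_right _ _)
  let i : ℕ → Iio (max b ν₀).ord := fun n =>
    if h : ib e (δ n) (s γ n) < (max b ν₀).ord then ⟨ib e (δ n) (s γ n), h⟩ else ⟨0, hpos⟩
  have hmono : ∀ᶠ n in atTop, s (Γ i) n ≤ s γ n := by
    rcases (hle i).eq_or_lt with h | h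
    · rw [h]
      exact Eventually.of_forall fun n => le_rfl
    · exact (hinc _ _ h hγ).mono fun n hn => hn.le
  obtain ⟨n, h1, h2, h3, h4⟩ := (hfr.and_eventually ((hub γ hγ).and ((hΓ2 i).and hmono))).exists
  have hib := ib_spec he h2
  have hlt : ib e (δ n) (s γ n) < (max b ν₀).ord := hib.1.trans_le (Cardinal.ord_le_ord.2 h1)
  have hin : ((i n : Ordinal.{0})) = ib e (δ n) (s γ n) := by
    simp only [i]
    rw [dif_pos hlt]
  rw [hin, if_pos hib.1] at h3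
  exact absurd ((h3 (he.lt _ _ hib.1)).trans_le h4) (not_lt.2 hib.2)

theorem exists_rootN (S : SetupL κ χ ν₀ lam) (hz : IsZ z) :
    ∃ d t f, IsRootN χ ν₀ lam d t f := by
  classical
  obtain ⟨d, d1, d2, d3, d4⟩ := exists_d S
  obtain ⟨s, s1, s2⟩ := exists_sN S hz d1 d4
  have h2 : 2 ^ ℵ₀ < succ lam := S.two_pow_lt S.aleph0_le_χ
  obtain ⟨δ, e1, e2, e3⟩ := exists_eubN S.succ_regular h2 (top := fun n => (succ (d n)).ord)
    (fun γ _ n => s1 γ n) s2
  have hcof := eub_cof S s2 e2 e3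
  -- the data
  let t : ℕ → Cardinal.{0} := fun n => if ν₀ < (δ n).cof then (δ n).cof else succ ν₀
  have ht : ∀ n, ν₀ < (δ n).cof → t n = (δ n).cof := fun n h => by simp only [t, h, if_true]
  have key : ∀ᶠ n in atTop, ν₀ < (δ n).cof := hcof ν₀ S.lt
  have ht1 : ∀ n, (t n).IsRegular := by
    intro n
    by_cases h : ν₀ < (δ n).cof
    · rw [ht n h]
      refine ⟨S.aleph0_le_ν₀.trans h.le, ?_⟩
      rw [Ordinal.cof_ord_cof]
    · simp only [t, h, if_false]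
      exact isRegular_succ S.aleph0_le_ν₀
  have ht2 : ∀ n, ν₀ < t n := by
    intro n
    by_cases h : ν₀ < (δ n).cof
    · rw [ht n h]
      exact h
    · simp only [t, h, if_false]
      exact Order.lt_succ _
  have ht3 : ∀ n, t n < lam := by
    intro n
    by_cases h : ν₀ < (δ n).cof
    · rw [ht n h]
      have h4 : (δ n).card ≤ (succ (d n)).ord.card := Ordinal.card_le_card (e1 n)
      rw [Cardinal.card_ord] at h4
      exact ((Ordinal.cof_le_card _).trans h4).trans_lt (S.limit _ (d2 n))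
    · simp only [t, h, if_false]
      exact S.limit _ S.lt
  have hE : ∀ n, ∃ E : Ordinal.{0} → Ordinal.{0}, ν₀ < (δ n).cof → (∀ i < (t n).ord, E i < δ n) ∧
      (∀ i j, i < j → j < (t n).ord → E i < E j) ∧ ∀ α < δ n, ∃ i < (t n).ord, α ≤ E i := by
    intro n
    by_cases h : ν₀ < (δ n).cof
    · obtain ⟨E, hE⟩ := fund (δ := δ n) (c := t n) (ht n h).symm
      exact ⟨E, fun _ => hE⟩
    · exact ⟨fun _ => 0, fun h' => absurd h' h⟩
  choose E hE using hE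
  let A : Ordinal.{0} → ℕ → Set Ordinal.{0} := fun γ n =>
    {i | i < (t n).ord ∧ s γ n ≤ E n i}
  let f : Ordinal.{0} → ℕ → Ordinal.{0} := fun γ n =>
    if (A γ n).Nonempty then sInf (A γ n) else 0
  have hf : ∀ γ n, (A γ n).Nonempty → f γ n ∈ A γ n := by
    intro γ n h
    simp only [f, h, if_true]
    exact csInf_mem h
  have hpos : ∀ n, (0 : Ordinal.{0}) < (t n).ord := by
    intro n
    rw [← Cardinal.ord_zero, Cardinal.ord_lt_ord]
    exact bot_le.trans_lt (ht2 n)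
  refine ⟨d, t, f, fun n => (d1 n).le, d2, d3, d4, ht1, ht2, ht3, ?_, ?_, ?_⟩
  · intro b hb
    filter_upwards [key, hcof b hb] with n h1 h3
    rw [ht n h1]
    exact h3
  · intro γ n
    by_cases h : (A γ n).Nonempty
    · exact (hf γ n h).1
    · simp only [f, h, if_false]
      exact hpos n
  · intro g hg
    obtain ⟨γ, hγ, hγ2⟩ := e3 (fun n => E n (g n))
    refine ⟨γ, hγ, ?_⟩
    filter_upwards [key, hγ2, e2 γ hγ] with n h1 h5 h3
    obtain ⟨k1, k2, k3⟩ := hE n h1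
    have h4 := h5 (k1 _ (hg n))
    have hne : (A γ n).Nonempty := by
      obtain ⟨i, hi, hi2⟩ := k3 _ h3
      exact ⟨i, hi, hi2⟩
    by_contra hcon
    rw [not_lt] at hcon
    have h6 := (hf γ n hne).2
    have h7 : E n (f γ n) ≤ E n (g n) := by
      rcases hcon.eq_or_lt with h8 | h8
      · rw [h8]
      · exact (k2 _ _ h8 (hg n)).le
    exact absurd (h6.trans h7) (not_le.2 h4)

end Pool.Agent.STW
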