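import Pool.Agent.STW.Traces
import Pool.Agent.STW.RootN

/-!
(5) and (6) of the text: the sets `B` and the scales obtained from them.
-/

open Cardinal Ordinal Order Set Filter

namespace Pool.Agent.STW

open Pool.Agent.STP

variable {κ χ ν₀ lam : Cardinal.{0}} {z e F : Ordinal.{0} → Ordinal.{0} → Ordinal.{0}}
  {d t : ℕ → Cardinal.{0}} {f : Ordinal.{0} → ℕ → Ordinal.{0}}

/-- the limit sets obtained from the strong tree property -/
structure IsB (κ lam : Cardinal.{0}) (t : ℕ → Cardinal.{0}) (k : ℕ → ℕ)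
    (H : Ordinal.{0} → ℕ → Set Ordinal.{0}) (B : ℕ → Set Ordinal.{0}) : Prop where
  sub : ∀ m, B m ⊆ Iio (t (k m)).ord
  one : ∀ y : ℕ → Set Ordinal.{0}, (∀ m, y m ⊆ Iio (t (k m)).ord) → (∀ m, #(y m) < up κ) →
    ∃ γ < (succ lam).ord, ∀ m, B m ∩ y m = H γ m ∩ y m
  two : ∀ y : ℕ → Set Ordinal.{0}, (∀ m, y m ⊆ Iio (t (k m)).ord) → (∀ m, #(y m) < up κ) →
    ∃ γ₀ < (succ lam).ord, ∀ γ, γ₀ ≤ γ → γ < (succ lam).ord →
      ∀ᶠ m in atTop, B m ∩ y m = H γ m ∩ y m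

theorem H1_thin (D : Data κ χ ν₀ lam z e F) (R : IsRootN χ ν₀ lam d t f) (n m : ℕ)
    {y : Set Ordinal.{0}} (hy : y ⊆ Iio (t n).ord) (hyc : #y < up κ) :
    #{s : Set Ordinal.{0} | ∃ γ < (succ lam).ord,
      s = (H1 κ ν₀ lam z e F d f γ m ∩ Iio (t n).ord) ∩ y} < up κ := by
  refine (Cardinal.mk_le_mk_of_subset ?_).trans_lt (traces D (t n) (R.t_lt n) y hy hyc)
  rintro s ⟨γ, _, rfl⟩
  refine ⟨H1 κ ν₀ lam z e F d f γ m, (H1_closed γ m).1, ?_⟩
  rw [Set.inter_assoc, Set.inter_eq_right.2 hy]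

/-- the Branch Lemma (library, `Pool.Agent.STP.branch`) with `c = succ lam`,
`E γ m = H1 γ m ∩ Iio (t (k m)).ord` -/
theorem exists_B (D : Data κ χ ν₀ lam z e F) (R : IsRootN χ ν₀ lam d t f) (hTP : StrongTP κ)
    (k : ℕ → ℕ) : ∃ B, IsB κ lam t k (H1 κ ν₀ lam z e F d f) B := by
  have S := D.setup
  obtain ⟨B, h1, h2⟩ := branch S.reg S.unc hTP (c := succ lam) S.succ_regular
    (fun τ hτ => S.two_pow_lt (hτ.le.trans S.kle)) (fun m => (t (k m)).ord)
    (Cardinal.ord_le_ord.2 (S.κ_lt.le.trans (R.t_gt (k 0)).le))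
    (fun γ m => H1 κ ν₀ lam z e F d f γ m ∩ Iio (t (k m)).ord)
    (fun γ γ' h hγ' => (H1_mono_ev D R h hγ').mono fun m hm =>
      Set.inter_subset_inter_left _ hm.2)
    (fun i y hy hyc => H1_thin D R (k i) i hy hyc)
  refine ⟨B, h1, fun y hy hyc => ?_, fun y hy hyc => ?_⟩
  · obtain ⟨γ, hγ, h3⟩ := (h2 y hy hyc).1
    refine ⟨γ, hγ, fun m => ?_⟩
    rw [h3 m, Set.inter_assoc, Set.inter_eq_right.2 (hy m)]
  · obtain ⟨γ₀, hγ₀, h3⟩ := (h2 y hy hyc).2
    refine ⟨γ₀, hγ₀, fun γ hγ hγc => (h3 γ hγ hγc).mono fun m hm => ?_⟩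
    rw [hm, Set.inter_assoc, Set.inter_eq_right.2 (hy m)]

theorem IsB.unb (D : Data κ χ ν₀ lam z e F) (R : IsRootN χ ν₀ lam d t f) {k : ℕ → ℕ}
    (hk : StrictMono k) {B : ℕ → Set Ordinal.{0}}
    (hB : IsB κ lam t k (H1 κ ν₀ lam z e F d f) B) :
    ∀ᶠ m in atTop, ∀ α < (t (k m)).ord, ∃ β ∈ B m, α < β := by
  classical
  by_contra hcon
  rw [Filter.not_eventually] at hcon
  -- a bound for `B m` where there is one
  have ha : ∀ m, ∃ a < (t (k m)).ord, (¬ ∀ α < (t (k m)).ord, ∃ β ∈ B m, α < β) →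
      ∀ β ∈ B m, β ≤ a := by
    intro m
    by_cases hP : ∀ α < (t (k m)).ord, ∃ β ∈ B m, α < β
    · refine ⟨0, ?_, fun h => absurd hP h⟩
      exact (R.t_reg (k m)).ord_pos
    · have hP' := hP
      push Not at hP'
      obtain ⟨α, h1, h2⟩ := hP'
      exact ⟨α, h1, fun _ => h2⟩
  choose a ha1 ha2 using ha
  have hg : ∀ n, Function.extend k a (fun _ => 0) n < (t n).ord := by
    intro n
    by_cases hn : ∃ m, k m = n
    · obtain ⟨m, rfl⟩ := hn
      rw [hk.injective.extend_apply]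
      exact ha1 m
    · rw [Function.extend_apply' _ _ _ hn]
      exact (R.t_reg n).ord_pos
  obtain ⟨γ₁, hγ₁, h3⟩ := R.cofinal _ hg
  have h4 : ∀ᶠ m in atTop, a m < f γ₁ (k m) := by
    filter_upwards [hk.tendsto_atTop.eventually h3] with m hm
    rwa [hk.injective.extend_apply] at hm
  obtain ⟨γ₀, hγ₀, h5⟩ := hB.two (fun m => {f γ₁ (k m)}) (fun m => by
    rintro x rfl
    exact R.f_lt γ₁ (k m)) (fun m => by
    rw [Cardinal.mk_singleton]
    have h1 : (1 : Cardinal.{0}) < κ := Cardinal.one_lt_aleph0.trans D.setup.unc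
    have h2 := Cardinal.lift_lt.{0, 1}.2 h1
    rwa [Cardinal.lift_one] at h2)
  have hγ : max γ₀ (γ₁ + 1) < (succ lam).ord := max_lt hγ₀
    ((isSuccLimit_ord D.setup.succ_regular.aleph0_le).add_one_lt hγ₁)
  have h6 := h5 _ (le_max_left _ _) hγ
  have h7 := H1_mono_ev D R ((lt_add_one γ₁).trans_le (le_max_right γ₀ (γ₁ + 1))) hγ
  obtain ⟨m, hm, h8, h9, h10⟩ := (hcon.and_eventually (h4.and (h6.and h7))).exists
  have h11 := (H1_closed (κ := κ) (ν₀ := ν₀) (lam := lam) (z := z) (e := e) (F := F) (d := d)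
    (f := f) (max γ₀ (γ₁ + 1)) m).2.1 γ₁ h10.1 hγ₁ (k m)
  have h12 : f γ₁ (k m) ∈ B m ∩ ({f γ₁ (k m)} : Set Ordinal.{0}) := by
    rw [h9]
    exact ⟨h11, rfl⟩
  exact absurd h8 (not_lt.2 (ha2 m hm _ h12.1))

theorem exists_inj {c : Cardinal.{0}} (hc : c.IsRegular) {B : Set Ordinal.{0}}
    (hB : B ⊆ Iio c.ord) (hu : ∀ α < c.ord, ∃ β ∈ B, α < β) :
    ∃ π : Ordinal.{0} → Ordinal.{0}, (∀ i < c.ord, π i ∈ B) ∧
      ∀ i j, i < c.ord → j < c.ord → π i = π j → i = j := by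
  classical
  have h1 := cof_le_mk (W := B) (o := c.ord) (fun α hα => hB hα) hu
  rw [hc.cof_ord, ← mk_Iio_ord] at h1
  obtain ⟨g⟩ := h1
  refine ⟨fun i => if h : i < c.ord then (g ⟨i, h⟩ : Ordinal.{0}) else 0, ?_, ?_⟩
  · intro i hi
    simp only [hi, dif_pos]
    exact (g ⟨i, hi⟩).2
  · intro i j hi hj hij
    simp only [hi, hj, dif_pos] at hij
    exact congrArg Subtype.val (g.injective (Subtype.ext hij))

/-- `G γ m r = ssup {i : i < r, π m i ∈ H1 γ m}` for the `m` with `B m` unbounded, else `0` -/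
theorem exists_G (D : Data κ χ ν₀ lam z e F) (R : IsRootN χ ν₀ lam d t f) (hTP : StrongTP κ)
    {k : ℕ → ℕ} (hk : StrictMono k) : ∃ G, IsG lam d t k G := by
  classical
  obtain ⟨B, hB⟩ := exists_B D R hTP k
  have hunb := hB.unb D R hk
  have hpi : ∀ m : ℕ, ∃ π : Ordinal.{0} → Ordinal.{0},
      (∀ α < (t (k m)).ord, ∃ β ∈ B m, α < β) →
        (∀ i < (t (k m)).ord, π i ∈ B m) ∧
          ∀ i j, i < (t (k m)).ord → j < (t (k m)).ord → π i = π j → i = j := by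
    intro m
    by_cases h : ∀ α < (t (k m)).ord, ∃ β ∈ B m, α < β
    · obtain ⟨π, h1, h2⟩ := exists_inj (R.t_reg (k m)) (hB.sub m) h
      exact ⟨π, fun _ => ⟨h1, h2⟩⟩
    · exact ⟨fun _ => 0, fun h' => absurd h' h⟩
  choose π hπ using hpi
  refine ⟨fun γ m r => if ∀ α < (t (k m)).ord, ∃ β ∈ B m, α < β then
    ssup {i | i < r ∧ π m i ∈ H1 κ ν₀ lam z e F d f γ m} else 0, ⟨?_, ?_⟩⟩
  · intro γ _ m r hr h1 h2
    by_cases h : ∀ α < (t (k m)).ord, ∃ β ∈ B m, α < β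
    · simp only [if_pos h]
      obtain ⟨-, hinj⟩ := hπ m h
      have hcard : #({i | i < r ∧ π m i ∈ H1 κ ν₀ lam z e F d f γ m} : Set Ordinal.{0}) ≤
          #(H1 κ ν₀ lam z e F d f γ m) := by
        refine Cardinal.mk_le_of_injective (f := fun i => ⟨π m i.1, i.2.2⟩) ?_
        intro i j hij
        have h3 : π m i.1 = π m j.1 := congrArg Subtype.val hij
        exact Subtype.ext (hinj _ _ (i.2.1.trans_le h2) (j.2.1.trans_le h2) h3)
      have hd : d m < r.card := by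
        rw [← hr.eq, Cardinal.ord_lt_ord] at h1
        exact h1
      have hlt : #({i | i < r ∧ π m i ∈ H1 κ ν₀ lam z e F d f γ m} : Set Ordinal.{0}) <
          up r.card :=
        (hcard.trans (H1_small D R γ m)).trans_lt (Cardinal.lift_lt.2 hd)
      have h4 := ssup_lt_of_regular hr.reg hlt (fun α hα => by
        rw [hr.eq]
        exact hα.1)
      rwa [hr.eq] at h4
    · simp only [if_neg h]
      exact bot_le.trans_lt h1
  · intro r h
    have hy1 : ∀ m, ({x | (∀ α < (t (k m)).ord, ∃ β ∈ B m, α < β) ∧ h m < (t (k m)).ord ∧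
        x = π m (h m)} : Set Ordinal.{0}) ⊆ Iio (t (k m)).ord := by
      rintro m x ⟨h1, h2, rfl⟩
      exact hB.sub m ((hπ m h1).1 _ h2)
    have hy2 : ∀ m, #({x | (∀ α < (t (k m)).ord, ∃ β ∈ B m, α < β) ∧ h m < (t (k m)).ord ∧
        x = π m (h m)} : Set Ordinal.{0}) < up κ := by
      intro m
      have h1 : ({x | (∀ α < (t (k m)).ord, ∃ β ∈ B m, α < β) ∧ h m < (t (k m)).ord ∧
        x = π m (h m)} : Set Ordinal.{0}) ⊆ {π m (h m)} := fun x hx => hx.2.2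
      refine (Cardinal.mk_le_mk_of_subset h1).trans_lt ?_
      rw [Cardinal.mk_singleton]
      have h2 : (1 : Cardinal.{1}) = up 1 := by simp
      rw [h2]
      exact Cardinal.lift_lt.2 (one_lt_aleph0.trans D.setup.unc)
    obtain ⟨γ, hγ, h1⟩ := hB.one _ hy1 hy2
    refine ⟨γ, hγ, ?_⟩
    filter_upwards [hunb] with m hm hr hd hle hlt
    have hht : h m < (t (k m)).ord := hlt.trans_le hle
    show h m < if ∀ α < (t (k m)).ord, ∃ β ∈ B m, α < β then
      ssup {i | i < r m ∧ π m i ∈ H1 κ ν₀ lam z e F d f γ m} else 0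
    rw [if_pos hm]
    have h2 : π m (h m) ∈ B m ∩ {x | (∀ α < (t (k m)).ord, ∃ β ∈ B m, α < β) ∧
        h m < (t (k m)).ord ∧ x = π m (h m)} := ⟨(hπ m hm).1 _ hht, hm, hht, rfl⟩
    rw [h1 m] at h2
    have hsm : Small.{0} ({i | i < r m ∧ π m i ∈ H1 κ ν₀ lam z e F d f γ m} :
        Set Ordinal.{0}) :=
      small_subset (s := Iio (r m)) fun _ hi => hi.1
    exact lt_ssup hsm ⟨hlt, h2.1⟩

end Pool.Agent.STW
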