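import Pool.Agent.STW.UScale
import Pool.Agent.STW.HullB

/-!
(7) and (8) of the text: the second hull system and the conclusion.
-/

open Cardinal Ordinal Order Set Filter

namespace Pool.Agent.STW

open Pool.Agent.STP

variable {κ χ ν₀ lam : Cardinal.{0}} {z e F : Ordinal.{0} → Ordinal.{0} → Ordinal.{0}}
  {d t : ℕ → Cardinal.{0}} {f : Ordinal.{0} → ℕ → Ordinal.{0}}
  {G : (ℕ → ℕ) → Ordinal.{0} → ℕ → Ordinal.{0} → Ordinal.{0}}

/-- STABILISATION (page (8)): `N` from `exists_closed_set` (`χ = ℵ₀`, `I = ULift ℕ`), `top = β 0`,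
`w u = β γ_u` -/
theorem stabilise_dec {c : Cardinal.{0}} (hc : c.IsRegular) (h2 : 2 ^ ℵ₀ < c)
    {β : Ordinal.{0} → ℕ → Ordinal.{0}}
    (hdec : ∀ γ γ', γ < γ' → γ' < c.ord → ∀ᶠ n in atTop, β γ' n ≤ β γ n) :
    ∃ γ₀ < c.ord, ∀ γ, γ₀ ≤ γ → γ < c.ord → ∀ᶠ n in atTop, β γ n = β γ₀ n := by
  classical
  have hsl : ∀ γ < c.ord, γ + 1 < c.ord := fun γ hγ =>
    (isSuccLimit_ord hc.aleph0_le).add_one_lt hγ
  have h0lt : (0 : Ordinal.{0}) < c.ord := (isSuccLimit_ord hc.aleph0_le).bot_lt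
  have h1lt : (1 : Ordinal.{0}) < c.ord := by
    have := hsl 0 h0lt
    rwa [zero_add] at this
  have hI : #(ULift.{1} ℕ) ≤ up ℵ₀ := by
    rw [mk_uLift, mk_nat]
  have hw : ∀ u : ULift.{1} ℕ → Ordinal.{0}, ∃ γ : Ordinal.{0},
      (∃ γ' < c.ord, ¬ ∀ᶠ n in atTop, u ⟨n⟩ ≤ β γ' n) →
        (γ < c.ord ∧ ¬ ∀ᶠ n in atTop, u ⟨n⟩ ≤ β γ n) := by
    intro u
    by_cases h : ∃ γ' < c.ord, ¬ ∀ᶠ n in atTop, u ⟨n⟩ ≤ β γ' n
    · obtain ⟨γ', h1, h3⟩ := h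
      exact ⟨γ', fun _ => ⟨h1, h3⟩⟩
    · exact ⟨0, fun h' => absurd h' h⟩
  choose gm hgm using hw
  obtain ⟨N, hN1, hN2, hN3⟩ := exists_closed_set (χ := ℵ₀) (ν₀ := 2 ^ ℵ₀) rfl le_rfl hI
    (fun i => β 0 i.down) (fun u i => β (gm u) i.down)
  have hch : ∀ (γ : Ordinal.{0}) (i : ULift.{1} ℕ), ∃ x : N, β γ i.down ≤ β 0 i.down →
      β γ i.down ≤ x.1 ∧ ∀ y ∈ N, β γ i.down ≤ y → x.1 ≤ y := by
    intro γ i
    by_cases h : β γ i.down ≤ β 0 i.down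
    · have hne1 : ({x | x ∈ N ∧ β γ i.down ≤ x} : Set Ordinal.{0}).Nonempty :=
        ⟨_, hN2 i, h⟩
      obtain ⟨a, ha, hm⟩ := WellFounded.has_min (wellFounded_lt (α := Ordinal.{0})) _ hne1
      exact ⟨⟨a, ha.1⟩, fun _ => ⟨ha.2, fun y hy hy' => not_lt.1 (hm _ ⟨hy, hy'⟩)⟩⟩
    · exact ⟨⟨_, hN2 i⟩, fun h' => absurd h' h⟩
  choose ch hch1 using hch
  have hcard : #(ULift.{1} ℕ → N) < up c := by
    have h1 : #(ULift.{1} ℕ → N) ≤ up (2 ^ ℵ₀) := by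
      rw [← Cardinal.power_def]
      have h3 : (#N) ^ (#(ULift.{1} ℕ)) ≤ (up (2 ^ ℵ₀)) ^ (up ℵ₀) := by
        refine (Cardinal.power_le_power_right hN1).trans ?_
        refine Cardinal.power_le_power_left ?_ hI
        intro h0
        have h4 : (2 ^ ℵ₀ : Cardinal.{0}) = 0 := Cardinal.lift_eq_zero.1 h0
        exact absurd h4 (cantor ℵ₀).pos.ne'
      refine h3.trans ?_
      rw [← Cardinal.lift_power, ← power_mul, aleph0_mul_aleph0]
    exact lt_of_le_of_lt h1 (Cardinal.lift_strictMono.lt_iff_lt.2 h2)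
  obtain ⟨u, hu⟩ := pigeonhole hc hcard ch
  have key : ∀ γ, 0 < γ → γ < c.ord → ch γ = u → ∀ᶠ n in atTop,
      β γ n ≤ (u ⟨n⟩).1 ∧ ∀ y ∈ N, β γ n ≤ y → (u ⟨n⟩).1 ≤ y := by
    intro γ h1 h3 h4
    filter_upwards [hdec 0 γ h1 h3] with n hn
    rw [← h4]
    exact hch1 γ ⟨n⟩ hn
  have low : ∀ γ < c.ord, ∀ᶠ n in atTop, (u ⟨n⟩).1 ≤ β γ n := by
    intro γ hγ
    by_contra hcon
    have h3 := hgm (fun i => (u i).1) ⟨γ, hγ, hcon⟩
    obtain ⟨γ', h4, h5, h6⟩ := hu (gm (fun i => (u i).1) + 1) (hsl _ h3.1)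
    have h7 : gm (fun i => (u i).1) < γ' := (lt_add_one _).trans_le h4
    have h8 := key γ' (bot_le.trans_lt h7) h5 h6
    have h9 := hdec _ γ' h7 h5
    apply h3.2
    filter_upwards [h8, h9] with n h10 h11
    exact h10.2 _ (hN3 (fun i => (u i).1) (fun i => (u i).2) ⟨n⟩) h11
  obtain ⟨γ₀, h1, h3, h4⟩ := hu 1 h1lt
  refine ⟨γ₀, h3, fun γ h5 h6 => ?_⟩
  have h7 := key γ₀ (zero_lt_one.trans_le h1) h3 h4
  rcases h5.eq_or_lt with rfl | h8
  · exact Filter.Eventually.of_forall fun _ => rfl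
  filter_upwards [h7, hdec γ₀ γ h8 h6, low γ h6] with n h9 h10 h11
  exact le_antisymm h10 (h9.1.trans h11)

theorem H2_closed (γ : Ordinal.{0}) (m : ℕ) :
    Cl2 lam z e G m (H2 lam z e G d γ m) ∧ Iio (d m).ord ⊆ H2 lam z e G d γ m ∧
      γ ∈ H2 lam z e G d γ m ∧ lam.ord ∈ H2 lam z e G d γ m := by
  refine ⟨⟨?_, ?_, ?_, ?_⟩, ?_, ?_, ?_⟩
  · intro ε hε α hα h M hM
    exact hM.1.zinv ε (hε M hM) α hα (h M hM)
  · intro β hβ M hM
    exact hM.1.cofm β (hβ M hM)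
  · intro β hβ i hi h M hM
    exact hM.1.em β (hβ M hM) i (hi M hM) h
  · intro k hk γ' hγ' h r hr M hM
    exact hM.1.Gm k hk γ' (hγ' M hM) h r (hr M hM)
  · intro α hα M hM
    exact hM.2.1 hα
  · intro M hM
    exact hM.2.2.1
  · intro M hM
    exact hM.2.2.2

theorem H2_mono_ev (S : SetupL κ χ ν₀ lam) (R : IsRootN χ ν₀ lam d t f) (hz : IsZ z)
    {γ γ' : Ordinal.{0}} (h : γ' < γ) (hγ : γ < (succ lam).ord) :
    ∀ᶠ m in atTop, γ' ∈ H2 lam z e G d γ m ∧ H2 lam z e G d γ' m ⊆ H2 lam z e G d γ m := by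
  have h1 : z γ γ' < lam.ord := by
    refine (hz.lt γ γ' h).trans_le ?_
    rw [Cardinal.ord_le_ord]
    exact card_le_of_lt_succ_ord hγ
  have h2 : (z γ γ').card < lam := Cardinal.lt_ord.1 h1
  filter_upwards [R.d_tend _ h2] with m hm
  obtain ⟨hc, hlow, hg, htop⟩ := H2_closed (lam := lam) (z := z) (e := e) (G := G) (d := d) γ m
  have h3 : z γ γ' ∈ H2 lam z e G d γ m := hlow (Cardinal.lt_ord.2 hm)
  have h4 : γ' ∈ H2 lam z e G d γ m := hc.zinv γ hg γ' h h3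
  refine ⟨h4, ?_⟩
  intro x hx
  exact hx (H2 lam z e G d γ m) ⟨hc, hlow, h4, htop⟩

open Classical in
private noncomputable def c4_op (z e : Ordinal.{0} → Ordinal.{0} → Ordinal.{0})
    (G : (ℕ → ℕ) → Ordinal.{0} → ℕ → Ordinal.{0} → Ordinal.{0}) (m : ℕ) :
    Fin 3 ⊕ (ℕ → ℕ) → Ordinal.{0} → Ordinal.{0} → Ordinal.{0}
  | Sum.inl 0, a, b => if h : ∃ α, α < a ∧ z a α = b then h.choose else a
  | Sum.inl 1, a, _ => a.cof.ord
  | Sum.inl 2, a, b => e a b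
  | Sum.inr k, a, b => G k a m b

/-- `exists_small_closure` with `2 ^ ℵ₀ ≤ d m` operations -/
theorem H2_small (S : SetupL κ χ ν₀ lam) (R : IsRootN χ ν₀ lam d t f) (hz : IsZ z)
    (γ : Ordinal.{0}) (m : ℕ) : #(H2 lam z e G d γ m) ≤ up (d m) := by
  classical
  have hd : ℵ₀ ≤ d m := S.aleph0_le_ν₀.trans (R.d_ge m)
  have hup : (ℵ₀ : Cardinal.{1}) ≤ up (d m) := by
    rw [← Cardinal.lift_aleph0.{1, 0}]
    exact Cardinal.lift_le.2 hd
  have hI : #(ULift.{1} Bool) ≤ up χ := by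
    refine (Cardinal.mk_le_aleph0 (α := ULift.{1} Bool)).trans ?_
    rw [← Cardinal.lift_aleph0.{1, 0}]
    exact Cardinal.lift_le.2 S.aleph0_le_χ
  have hP : #(ULift.{1} (Fin 3 ⊕ (ℕ → ℕ))) ≤ up (d m) := by
    rw [Cardinal.mk_uLift]
    refine Cardinal.lift_le.2 ?_
    have h1 : #(ℕ → ℕ) ≤ d m := by
      have h2 : #(ℕ → ℕ) = 2 ^ ℵ₀ := by simp
      rw [h2]
      calc (2 : Cardinal.{0}) ^ ℵ₀ ≤ 2 ^ χ :=
            Cardinal.power_le_power_left two_ne_zero S.aleph0_le_χ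
        _ = ν₀ := S.pow.symm
        _ ≤ d m := R.d_ge m
    rw [Cardinal.mk_sum, Cardinal.lift_id, Cardinal.lift_id]
    refine Cardinal.add_le_of_le hd ?_ h1
    exact (Cardinal.mk_le_aleph0 (α := Fin 3)).trans hd
  have hA : #(↥(Iio (d m).ord ∪ {γ, lam.ord} : Set Ordinal.{0})) ≤ up (d m) := by
    refine (Cardinal.mk_union_le _ _).trans (Cardinal.add_le_of_le hup (mk_Iio_ord _).le ?_)
    exact ((Set.toFinite _).countable.le_aleph0).trans hup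
  obtain ⟨N, hAN, hN, hW⟩ := exists_small_closure (I := ULift.{1} Bool)
    (P := ULift.{1} (Fin 3 ⊕ (ℕ → ℕ))) hd (R.d_pow m) hI hP
    (fun p g => c4_op z e G m p.down (g ⟨true⟩) (g ⟨false⟩)) hA
  have hW' : ∀ p, ∀ a ∈ N, ∀ b ∈ N, c4_op z e G m p a b ∈ N := by
    intro p a ha b hb
    have h := hW ⟨p⟩ (fun i => if i.down then a else b) (by
      intro i
      split_ifs
      · exact ha
      · exact hb)
    simpa using h
  have hcl : Cl2 lam z e G m N := by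
    refine ⟨?_, ?_, ?_, ?_⟩
    · intro ε hε α hα hzα
      have h1 := hW' (Sum.inl 0) ε hε _ hzα
      have hex : ∃ α', α' < ε ∧ z ε α' = z ε α := ⟨α, hα, rfl⟩
      simp only [c4_op] at h1
      rw [dif_pos hex] at h1
      have h2 := hz.inj ε _ _ hex.choose_spec.1 hα hex.choose_spec.2
      rwa [h2] at h1
    · intro β hβ
      exact hW' (Sum.inl 1) β hβ β hβ
    · intro β hβ i hi _
      exact hW' (Sum.inl 2) β hβ i hi
    · intro k _ γ' hγ' _ r hr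
      exact hW' (Sum.inr k) γ' hγ' r hr
  have hsub : H2 lam z e G d γ m ⊆ N :=
    Set.sInter_subset_of_mem ⟨hcl, subset_union_left.trans hAN,
      hAN (Or.inr (by simp)), hAN (Or.inr (by simp))⟩
  exact (mk_le_mk_of_subset hsub).trans hN

/-- if `lam ^ ℵ₀ > lam⁺` there is a sequence which is not contained in one of the hulls -/
theorem exists_x (S : SetupL κ χ ν₀ lam) (R : IsRootN χ ν₀ lam d t f)
    {H : Ordinal.{0} → ℕ → Set Ordinal.{0}} (hH : ∀ γ m, #(H γ m) ≤ up (d m))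
    (hbig : ¬ lam ^ ℵ₀ ≤ succ lam) :
    ∃ x : ℕ → Ordinal.{0}, (∀ n, x n < lam.ord) ∧
      ∀ γ < (succ lam).ord, ∀ m, ∃ n, x n ∉ H γ m := by
  by_contra hcon
  push Not at hcon
  apply hbig
  have hlam : ℵ₀ ≤ lam := S.aleph0_le_lam
  have h1 : #(ℕ → Iio lam.ord) = up (lam ^ ℵ₀) := by
    have h0 : up (lam ^ ℵ₀) = up lam ^ up ℵ₀ := Cardinal.lift_power _ _
    rw [Cardinal.mk_arrow, mk_Iio_ord, mk_nat, h0, Cardinal.lift_uzero]
  have h2 : ∀ x : ℕ → Iio lam.ord, ∃ p : Iio (succ lam).ord × ℕ,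
      ∀ n, (x n : Ordinal.{0}) ∈ H p.1 p.2 := by
    intro x
    obtain ⟨γ, hγ, m, h⟩ := hcon (fun n => x n) (fun n => (x n).2)
    exact ⟨⟨⟨γ, hγ⟩, m⟩, h⟩
  choose p hp using h2
  have h3 : #(ℕ → Iio lam.ord) ≤ #(Σ q : Iio (succ lam).ord × ℕ, (ℕ → H q.1 q.2)) := by
    refine Cardinal.mk_le_of_injective (f := fun x => ⟨p x, fun n => ⟨x n, hp x n⟩⟩) ?_
    intro x y hxy
    have h := congrArg (fun s : (Σ q : Iio (succ lam).ord × ℕ, (ℕ → H q.1 q.2)) =>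
      fun n => ((s.2 n : H s.1.1 s.1.2) : Ordinal.{0})) hxy
    funext n
    exact Subtype.ext (congrFun h n)
  have h4 : ∀ q : Iio (succ lam).ord × ℕ, #(ℕ → H q.1 q.2) ≤ up lam := by
    intro q
    rw [Cardinal.mk_arrow, mk_nat]
    have h5 : up (d q.2 ^ ℵ₀) ≤ up lam := by
      refine Cardinal.lift_le.2 ?_
      have h6 : d q.2 ^ ℵ₀ ≤ d q.2 ^ χ := by
        refine Cardinal.power_le_power_left ?_ S.aleph0_le_χ
        intro h0
        have := R.d_ge q.2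
        rw [h0] at this
        exact absurd (S.aleph0_lt_ν₀.trans_le this) (not_lt.2 bot_le)
      rw [R.d_pow] at h6
      exact h6.trans (R.d_lt q.2).le
    refine le_trans ?_ h5
    have h0 : up (d q.2 ^ ℵ₀) = up (d q.2) ^ up ℵ₀ := Cardinal.lift_power _ _
    rw [h0, Cardinal.lift_uzero]
    exact Cardinal.power_le_power_right (hH q.1 q.2)
  have h5 : #(Σ q : Iio (succ lam).ord × ℕ, (ℕ → H q.1 q.2)) ≤ up (succ lam) := by
    rw [Cardinal.mk_sigma]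
    refine (Cardinal.sum_le_sum _ (fun _ => up lam) h4).trans ?_
    rw [Cardinal.sum_const, Cardinal.mk_prod, mk_Iio_ord, mk_nat]
    have h6 : ℵ₀ ≤ up (succ lam) := by
      rw [Cardinal.aleph0_le_lift]
      exact hlam.trans (le_succ lam)
    have h7 : up lam ≤ up (succ lam) := Cardinal.lift_le.2 (le_succ lam)
    simp only [Cardinal.lift_id, Cardinal.lift_aleph0, Cardinal.lift_uzero]
    calc up (succ lam) * ℵ₀ * up lam ≤ up (succ lam) * up (succ lam) * up (succ lam) :=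
          mul_le_mul' (mul_le_mul' le_rfl h6) h7
      _ = up (succ lam) := by rw [Cardinal.mul_eq_self h6, Cardinal.mul_eq_self h6]
  rw [h1] at h3
  exact Cardinal.lift_le.1 (h3.trans h5)

/-- the pigeonhole of (8) -/
theorem exists_x' (S : SetupL κ χ ν₀ lam) {H : Ordinal.{0} → ℕ → Set Ordinal.{0}}
    (hmono : ∀ γ γ', γ < γ' → γ' < (succ lam).ord → ∀ᶠ m in atTop, H γ m ⊆ H γ' m)
    {x : ℕ → Ordinal.{0}} (hx : ∀ γ < (succ lam).ord, ∀ m, ∃ n, x n ∉ H γ m) :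
    ∃ n : ℕ → ℕ, ∀ γ < (succ lam).ord, ∀ᶠ m in atTop, x (n m) ∉ H γ m := by
  classical
  have hch : ∀ γ : Ordinal.{0}, ∀ m : ℕ, ∃ n, γ < (succ lam).ord → x n ∉ H γ m := by
    intro γ m
    by_cases h : γ < (succ lam).ord
    · obtain ⟨n, hn⟩ := hx γ h m
      exact ⟨n, fun _ => hn⟩
    · exact ⟨0, fun h' => absurd h' h⟩
  choose n hn using hch
  have hT : #(ULift.{1, 0} (ℕ → ℕ)) < up (succ lam) := by
    rw [mk_uLift]
    refine Cardinal.lift_lt.2 ?_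
    have h1 : #(ℕ → ℕ) = 2 ^ ℵ₀ := by
      rw [mk_pi, prod_const]
      simp
    rw [h1]
    exact S.two_pow_lt S.aleph0_le_χ
  obtain ⟨⟨u⟩, hu⟩ := pigeonhole S.succ_regular hT (fun γ => ULift.up (n γ))
  refine ⟨u, fun γ hγ => ?_⟩
  have hγ1 : γ + 1 < (succ lam).ord :=
    (isSuccLimit_ord S.succ_regular.aleph0_le).add_one_lt hγ
  obtain ⟨γ', h1, h2, h3⟩ := hu (γ + 1) hγ1
  have h4 : n γ' = u := congrArg ULift.down h3
  filter_upwards [hmono γ γ' ((lt_add_one γ).trans_le h1) h2] with m hm hmem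
  have h5 := hn γ' m h2
  rw [h4] at h5
  exact h5 (hm hmem)

/-- the least element above a gap -/
theorem gap (S : SetupL κ χ ν₀ lam) (R : IsRootN χ ν₀ lam d t f) (he : IsE e) {m : ℕ}
    {M : Set Ordinal.{0}} (hM : Cl2 lam z e G m M) (hlow : Iio (d m).ord ⊆ M)
    (htop : lam.ord ∈ M) {x : Ordinal.{0}} (hx : x < lam.ord) (hxM : x ∉ M) :
    sInf {β | β ∈ M ∧ x ≤ β} ∈ M ∧ x < sInf {β | β ∈ M ∧ x ≤ β} ∧
      sInf {β | β ∈ M ∧ x ≤ β} ≤ lam.ord ∧ (∀ γ ∈ M, γ < sInf {β | β ∈ M ∧ x ≤ β} → γ < x) ∧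
      RegO (sInf {β | β ∈ M ∧ x ≤ β}).cof.ord ∧
      (d m).ord < (sInf {β | β ∈ M ∧ x ≤ β}).cof.ord ∧
      (sInf {β | β ∈ M ∧ x ≤ β}).cof < lam := by
  have hne : ({β | β ∈ M ∧ x ≤ β} : Set Ordinal.{0}).Nonempty := ⟨lam.ord, htop, hx.le⟩
  have hmem : sInf {β | β ∈ M ∧ x ≤ β} ∈ {β | β ∈ M ∧ x ≤ β} := csInf_mem hne
  have hle : sInf {β | β ∈ M ∧ x ≤ β} ≤ lam.ord := csInf_le' ⟨htop, hx.le⟩
  have hmin : ∀ γ ∈ M, γ < sInf {β | β ∈ M ∧ x ≤ β} → γ < x := by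
    intro γ hγ h1
    by_contra h2
    have h3 : sInf {β | β ∈ M ∧ x ≤ β} ≤ γ := csInf_le' ⟨hγ, not_lt.1 h2⟩
    exact absurd h3 (not_le.2 h1)
  generalize sInf {β | β ∈ M ∧ x ≤ β} = b at hmem hle hmin ⊢
  obtain ⟨hbM, hxb⟩ := hmem
  have hlt : x < b := by
    rcases hxb.lt_or_eq with h1 | h1
    · exact h1
    · exact absurd (h1 ▸ hbM) hxM
  have hd : (d m).ord < b.cof.ord := by
    by_contra h1
    obtain ⟨i, hi, h2⟩ := he.cofinal b x hlt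
    have h3 : i ∈ M := hlow (hi.trans_le (not_lt.1 h1))
    exact absurd (hmin _ (hM.em b hbM i h3 hi) (he.lt b i hi)) (not_lt.2 h2)
  have hd' : d m < b.cof := Cardinal.ord_lt_ord.1 hd
  have hinf : ℵ₀ ≤ b.cof := (S.aleph0_le_ν₀.trans (R.d_ge m)).trans hd'.le
  have hreg : b.cof.IsRegular := by
    exact Cardinal.isRegular_cof (Ordinal.one_lt_cof_iff.1 (Cardinal.one_lt_aleph0.trans_le hinf))
  have hcof : b.cof ≤ lam := (Ordinal.cof_le_card b).trans (by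
    have := Ordinal.card_le_card hle
    rwa [Cardinal.card_ord] at this)
  refine ⟨hbM, hlt, hle, hmin, ⟨?_, ?_⟩, hd, S.not_regular hreg hcof⟩
  · rw [Cardinal.card_ord]
  · rw [Cardinal.card_ord]
    exact hreg

theorem exists_k (R : IsRootN χ ν₀ lam d t f) {a : ℕ → Cardinal.{0}} (ha : ∀ m, a m < lam) :
    ∃ k : ℕ → ℕ, StrictMono k ∧ ∀ m, a m ≤ t (k m) :=
  Filter.extraction_forall_of_eventually (P := fun m n => a m ≤ t n) fun m =>
    (R.t_tend (a m) (ha m)).mono fun _ h => h.le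

/-- the final contradiction of (8): stabilise `fun γ m => sInf {β | β ∈ H2 γ m ∧ x m ≤ β}` -/
theorem no_gaps (S : SetupL κ χ ν₀ lam) (R : IsRootN χ ν₀ lam d t f) (hz : IsZ z) (he : IsE e)
    (hG : ∀ k, StrictMono k → IsG lam d t k (G k)) {x : ℕ → Ordinal.{0}}
    (hx : ∀ m, x m < lam.ord)
    (hx' : ∀ γ < (succ lam).ord, ∀ᶠ m in atTop, x m ∉ H2 lam z e G d γ m) : False := by
  have hc := S.succ_regular
  have hlim : IsSuccLimit (succ lam).ord := isSuccLimit_ord hc.aleph0_le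
  obtain ⟨γ₀, hγ₀, hst⟩ := stabilise_dec hc (S.two_pow_lt S.aleph0_le_χ)
    (β := fun γ m => sInf {β | β ∈ H2 lam z e G d γ m ∧ x m ≤ β}) (by
      intro γ γ' h h'
      filter_upwards [H2_mono_ev (G := G) (e := e) S R hz h h'] with m hm
      refine csInf_le_csInf (OrderBot.bddBelow _) ⟨lam.ord, (H2_closed γ m).2.2.2, (hx m).le⟩ ?_
      rintro β ⟨h1, h2⟩
      exact ⟨hm.2 h1, h2⟩)
  -- the least elements above the gaps
  set b : ℕ → Ordinal.{0} := fun m => sInf {β | β ∈ H2 lam z e G d γ₀ m ∧ x m ≤ β} with hb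
  have hgap : ∀ᶠ m in atTop, b m ∈ H2 lam z e G d γ₀ m ∧ x m < b m ∧
      RegO (b m).cof.ord ∧ (d m).ord < (b m).cof.ord ∧ (b m).cof < lam := by
    filter_upwards [hx' γ₀ hγ₀] with m hm
    obtain ⟨h1, h2, -, -, h3, h4, h5⟩ := gap S R he (H2_closed (lam := lam) (z := z) (e := e)
      (G := G) (d := d) γ₀ m).1 (H2_closed γ₀ m).2.1 (H2_closed γ₀ m).2.2.2 (hx m) hm
    exact ⟨h1, h2, h3, h4, h5⟩
  have hlam : 0 < lam := bot_le.trans_lt S.lt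
  obtain ⟨k, hk, hka⟩ := exists_k R (a := fun m => if (b m).cof < lam then (b m).cof else 0) (by
    intro m
    split_ifs with h
    · exact h
    · exact hlam)
  obtain ⟨γ₁, hγ₁, hco⟩ := (hG k hk).cofinal (fun m => (b m).cof.ord) (fun m => ib e (b m) (x m))
  have hγ₂ : max γ₀ γ₁ + 1 < (succ lam).ord := hlim.add_one_lt (max_lt hγ₀ hγ₁)
  have e0 : γ₀ < max γ₀ γ₁ + 1 := (le_max_left _ _).trans_lt (lt_add_one _)
  have e1 : γ₁ < max γ₀ γ₁ + 1 := (le_max_right _ _).trans_lt (lt_add_one _)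
  have hall := hgap.and (hco.and ((hst _ e0.le hγ₂).and
    ((H2_mono_ev (G := G) (e := e) S R hz e0 hγ₂).and
      (H2_mono_ev (G := G) (e := e) S R hz e1 hγ₂))))
  obtain ⟨m, ⟨g1, g2, g3, g4, g5⟩, h2, h3, h4, h5⟩ := hall.exists
  have hM := (H2_closed (lam := lam) (z := z) (e := e) (G := G) (d := d) (max γ₀ γ₁ + 1) m).1
  have hbM : b m ∈ H2 lam z e G d (max γ₀ γ₁ + 1) m := h4.2 g1
  have hrM := hM.cofm _ hbM
  have hle : (b m).cof.ord ≤ (t (k m)).ord := by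
    have := hka m
    rw [if_pos g5] at this
    exact Cardinal.ord_le_ord.2 this
  have hib := ib_spec he g2
  have h6 := h2 g3 g4 hle hib.1
  have hgM := hM.Gm k hk γ₁ h5.1 hγ₁ _ hrM
  have hglt := (hG k hk).lt γ₁ hγ₁ m _ g3 g4 hle
  have heM := hM.em _ hbM _ hgM hglt
  have hxe : x m ≤ e (b m) (G k γ₁ m (b m).cof.ord) := hib.2.trans (he.mono_le h6.le hglt)
  have hlt : e (b m) (G k γ₁ m (b m).cof.ord) < b m := he.lt _ _ hglt
  have hinf : sInf {β | β ∈ H2 lam z e G d (max γ₀ γ₁ + 1) m ∧ x m ≤ β} ≤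
      e (b m) (G k γ₁ m (b m).cof.ord) := csInf_le (OrderBot.bddBelow _) ⟨heM, hxe⟩
  exact absurd (hinf.trans_lt hlt) (not_lt.2 (ge_of_eq h3))

/-- the case of cofinality `ω` -/
theorem omega_case (S : SetupL κ χ ν₀ lam) (hTP : StrongTP κ) : lam ^ ℵ₀ ≤ succ lam := by
  by_contra hbig
  obtain ⟨z, e, F, D⟩ := exists_data S
  obtain ⟨d, t, f, R⟩ := exists_rootN S D.isz
  have hG' : ∀ k : ℕ → ℕ, ∃ G : Ordinal.{0} → ℕ → Ordinal.{0} → Ordinal.{0},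
      StrictMono k → IsG lam d t k G := by
    intro k
    by_cases hk : StrictMono k
    · obtain ⟨G, hG⟩ := exists_G D R hTP hk
      exact ⟨G, fun _ => hG⟩
    · exact ⟨fun _ _ _ => 0, fun h => absurd h hk⟩
  choose G hG using hG'
  obtain ⟨x, hx, hx'⟩ := exists_x S R (H := H2 lam z e G d)
    (fun γ m => H2_small S R D.isz γ m) hbig
  obtain ⟨n, hn⟩ := exists_x' S (H := H2 lam z e G d)
    (fun γ γ' h hγ' => (H2_mono_ev S R D.isz h hγ').mono fun m hm => hm.2) hx'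
  exact no_gaps S R D.isz D.ise hG (x := fun m => x (n m)) (fun m => hx _) hn

end Pool.Agent.STW
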