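import Pool.Agent.STP.Branch
import Pool.Agent.STP.ClosedSet
import Pool.Agent.STP.NoBad

/-!
# Strong tree property at a weakly inaccessible cardinal and SCH above it: definitions

Text: MP_237dd7_lc_R22_page_helper94.md.  Ordinals and cardinals are in universe `0`, sets of them
live in `Type 1`; `up c` is the lift of `c`, `ssup w = sup {α + 1 : α ∈ w}`.
-/

open Cardinal Ordinal Order Set Filter

namespace Pool.Agent.STW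

open Pool.Agent.STP

/-- infinite regular cardinals, as ordinals -/
structure RegO (r : Ordinal.{0}) : Prop where
  eq : r.card.ord = r
  reg : r.card.IsRegular

/-- the filter of the final segments of the ordinal `t` -/
def tl (t : Ordinal.{0}) : Filter Ordinal.{0} :=
  Filter.map (fun a : Iio t => (a : Ordinal.{0})) atTop

/-- `A` is unbounded in `t` -/
def Unb (t : Ordinal.{0}) (A : Set Ordinal.{0}) : Prop := ∀ a < t, ∃ r ∈ A, a < r ∧ r < t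

/-- the coordinates at `τ`: the regular cardinals strictly between `κ` and `τ` -/
def Co (κ τ : Cardinal.{0}) : Set Ordinal.{0} := {r | RegO r ∧ κ.ord < r ∧ r < τ.ord}

/-- The standing hypotheses: `lam` has cofinality `ω` and is the least failure. -/
structure SetupL (κ χ ν₀ lam : Cardinal.{0}) : Prop where
  reg : κ.IsRegular
  unc : ℵ₀ < κ
  lim : ∀ b < κ, succ b < κ
  kle : κ ≤ χ
  pow : ν₀ = 2 ^ χ
  lt : ν₀ < lam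
  limit : ∀ b < lam, succ b < lam
  cof : lam.ord.cof = ℵ₀
  small : ∀ τ, ν₀ ≤ τ → τ < lam → τ ^ χ ≤ succ τ

/-- `τ` is a small singular cardinal: a limit cardinal in `(ν₀, lam)` of cofinality `< κ` -/
structure SS (κ ν₀ lam τ : Cardinal.{0}) : Prop where
  gt : ν₀ < τ
  lt : τ < lam
  limit : ∀ b < τ, succ b < τ
  cof : τ.ord.cof < κ

/-- `e β` restricted to `cof β` is strictly increasing and cofinal in `β` -/
structure IsE (e : Ordinal.{0} → Ordinal.{0} → Ordinal.{0}) : Prop where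
  lt : ∀ β i, i < β.cof.ord → e β i < β
  mono : ∀ β i j, i < j → j < β.cof.ord → e β i < e β j
  cofinal : ∀ β α, α < β → ∃ i < β.cof.ord, α ≤ e β i

/-- the least index `i` with `e β i ≥ α` -/
noncomputable def ib (e : Ordinal.{0} → Ordinal.{0} → Ordinal.{0}) (β α : Ordinal.{0}) :
    Ordinal.{0} := sInf {i | i < β.cof.ord ∧ α ≤ e β i}

/-- `(F ξ)`, `τ ≤ ξ < τ⁺`, is a universal scale at `τ` -/
structure IsUS (κ τ : Cardinal.{0}) (F : Ordinal.{0} → Ordinal.{0} → Ordinal.{0}) : Prop where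
  lt : ∀ ξ, τ.ord ≤ ξ → ξ < (succ τ).ord → ∀ r ∈ Co κ τ, F ξ r < r
  inc : ∀ ξ' ξ, τ.ord ≤ ξ' → ξ' < ξ → ξ < (succ τ).ord →
    ∀ᶠ r in tl τ.ord, r ∈ Co κ τ → F ξ' r < F ξ r
  uni : ∀ G : Set (Ordinal.{0} × Ordinal.{0}), #G ≤ up κ → ∃ ξ, τ.ord ≤ ξ ∧ ξ < (succ τ).ord ∧
    ∀ p ∈ G, p.1 ∈ Co κ τ → p.2 < p.1 → p.2 < F ξ p.1
  obed : ∀ ξ, τ.ord < ξ → ξ < (succ τ).ord → ℵ₀ < ξ.cof → ξ.cof < κ →
    ∃ E, IsClubIn E ξ ∧ ∀ α ∈ E, τ.ord ≤ α ∧ ∀ r ∈ Co κ τ, F α r < F ξ r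

/-- `G` is a set of pairs `(r, h)` with `r` a coordinate and `h < r` -/
def Cond (κ τ : Cardinal.{0}) (G : Set (Ordinal.{0} × Ordinal.{0})) : Prop :=
  ∀ p ∈ G, p.1 ∈ Co κ τ ∧ p.2 < p.1

/-- the least `ξ ∈ [τ, τ⁺)` such that `F ξ` is above `G` on a final segment -/
noncomputable def xi (τ : Cardinal.{0}) (F : Ordinal.{0} → Ordinal.{0} → Ordinal.{0})
    (G : Set (Ordinal.{0} × Ordinal.{0})) : Ordinal.{0} :=
  sInf {ξ | τ.ord ≤ ξ ∧ ξ < (succ τ).ord ∧ ∀ᶠ r in tl τ.ord, ∀ h, (r, h) ∈ G → h < F ξ r}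

/-- Closed sets ((2) of the text). -/
structure Closed (κ ν₀ lam : Cardinal.{0}) (z e F : Ordinal.{0} → Ordinal.{0} → Ordinal.{0})
    (M : Set Ordinal.{0}) : Prop where
  low : ∀ α < ν₀.ord, α ∈ M
  zm : ∀ ε ∈ M, ∀ α < ε, (α ∈ M ↔ z ε α ∈ M)
  supm : ∀ w ⊆ M, #w < up κ → ssup w ∈ M
  cofm : ∀ β ∈ M, β.cof.ord ∈ M
  em : ∀ β ∈ M, ∀ i ∈ M, i < β.cof.ord → e β i ∈ M
  ibm : ∀ β ∈ M, ∀ α ∈ M, α < β → ib e β α ∈ M
  Fm : ∀ τ, SS κ ν₀ lam τ → ∀ ξ ∈ M, τ.ord ≤ ξ → ξ < (succ τ).ord → ∀ r ∈ M, r ∈ Co κ τ →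
    F ξ r ∈ M
  xim : ∀ τ, SS κ ν₀ lam τ → ∀ G : Set (Ordinal.{0} × Ordinal.{0}), #G < up κ → Cond κ τ G →
    (∀ a < τ.ord, ∃ p ∈ G, a < p.1) → (∀ p ∈ G, p.1 ∈ M ∧ p.2 ∈ M) → xi τ F G ∈ M
  sucm : ∀ α ∈ M, (succ α.card).ord ∈ M

/-- all data of (1) -/
structure Data (κ χ ν₀ lam : Cardinal.{0}) (z e F : Ordinal.{0} → Ordinal.{0} → Ordinal.{0}) :
    Prop where
  setup : SetupL κ χ ν₀ lam
  isz : IsZ z
  ise : IsE e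
  us : ∀ τ, SS κ ν₀ lam τ → IsUS κ τ F

/-- there are fewer than `κ` traces on `y` of the sets `M` in the class `C` -/
def Few (κ : Cardinal.{0}) (C : Set Ordinal.{0} → Prop) (y : Set Ordinal.{0}) : Prop :=
  #{t : Set Ordinal.{0} | ∃ M, C M ∧ t = M ∩ y} < up κ

/-- the graph of the characteristic function of `M` on `Z` -/
def Gof (κ τ : Cardinal.{0}) (M Z : Set Ordinal.{0}) : Set (Ordinal.{0} × Ordinal.{0}) :=
  {p | p.1 ∈ M ∧ p.1 ∈ Z ∧ p.1 ∈ Co κ τ ∧ p.2 = ssup (M ∩ Z ∩ Iio p.1)}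

/-- the set `Ξ(Z)` of (3a) -/
def Xi (κ ν₀ lam τ : Cardinal.{0}) (z e F : Ordinal.{0} → Ordinal.{0} → Ordinal.{0})
    (Z : Set Ordinal.{0}) : Set Ordinal.{0} :=
  {ξ | ∃ M, Closed κ ν₀ lam z e F M ∧ Unb τ.ord (M ∩ Z ∩ Co κ τ) ∧ ξ = xi τ F (Gof κ τ M Z)}

/-- the chain `(Y i)`, `i < σ`, of (3c) -/
structure IsChain (κ ν₀ lam τ σ : Cardinal.{0}) (z e F : Ordinal.{0} → Ordinal.{0} → Ordinal.{0})
    (Y : Ordinal.{0} → Set Ordinal.{0}) : Prop where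
  sub : ∀ i < σ.ord, Y i ⊆ Iio (succ τ).ord
  small : ∀ i < σ.ord, #(Y i) < up κ
  mono : ∀ i j, i ≤ j → j < σ.ord → Y i ⊆ Y j
  lim : ∀ i < σ.ord, 0 < i → (∀ j < i, j + 1 < i) → ∀ α ∈ Y i, ∃ j < i, α ∈ Y j
  cofm : ∀ i < σ.ord, ∀ β ∈ Y i, β.cof.ord ∈ Y (i + 1)
  em : ∀ i < σ.ord, ∀ β ∈ Y i, ∀ j ∈ Y i, j < β.cof.ord → e β j ∈ Y (i + 1)
  ibm : ∀ i < σ.ord, ∀ β ∈ Y i, ∀ α ∈ Y i, α < β → ib e β α ∈ Y (i + 1)
  Fm : ∀ i < σ.ord, ∀ ξ ∈ Y i, τ.ord ≤ ξ → ∀ r ∈ Y i, r ∈ Co κ τ → F ξ r ∈ Y (i + 1)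
  sucm : ∀ i < σ.ord, ∀ α ∈ Y i, α < τ.ord → (succ α.card).ord ∈ Y (i + 1)
  supm : ∀ i < σ.ord, ∀ w ⊆ Y i, ssup w ∈ Y (i + 1)
  xim : ∀ i < σ.ord, ∀ ξ ∈ Xi κ ν₀ lam τ z e F (Y i), ξ ∈ Y (i + 1)

/-- the union of the chain -/
def UY (σ : Cardinal.{0}) (Y : Ordinal.{0} → Set Ordinal.{0}) : Set Ordinal.{0} :=
  {α | ∃ i < σ.ord, α ∈ Y i}

/-- the standing situation of (3c)-(3f) -/
structure SitY (κ χ ν₀ lam τ σ : Cardinal.{0})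
    (z e F : Ordinal.{0} → Ordinal.{0} → Ordinal.{0}) (Y : Ordinal.{0} → Set Ordinal.{0}) :
    Prop where
  data : Data κ χ ν₀ lam z e F
  ss : SS κ ν₀ lam τ
  reg : σ.IsRegular
  unc : ℵ₀ < σ
  gt : τ.ord.cof < σ
  lt : σ < κ
  chain : IsChain κ ν₀ lam τ σ z e F Y

/-- the function `c_ρ` of (3c) -/
noncomputable def crho (τ : Cardinal.{0}) (F : Ordinal.{0} → Ordinal.{0} → Ordinal.{0})
    (ρ r : Ordinal.{0}) : Ordinal.{0} :=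
  sInf {x | ∃ C, IsClubIn C ρ ∧ (∀ α ∈ C, τ.ord ≤ α) ∧ x = ssup ((fun ξ => F ξ r) '' C)}

/-- the root scale of (4) -/
structure IsRootN (χ ν₀ lam : Cardinal.{0}) (d t : ℕ → Cardinal.{0})
    (f : Ordinal.{0} → ℕ → Ordinal.{0}) : Prop where
  d_ge : ∀ n, ν₀ ≤ d n
  d_lt : ∀ n, d n < lam
  d_pow : ∀ n, d n ^ χ = d n
  d_tend : ∀ b < lam, ∀ᶠ n in atTop, b < d n
  t_reg : ∀ n, (t n).IsRegular
  t_gt : ∀ n, ν₀ < t n
  t_lt : ∀ n, t n < lam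
  t_tend : ∀ b < lam, ∀ᶠ n in atTop, b < t n
  f_lt : ∀ γ n, f γ n < (t n).ord
  cofinal : ∀ g : ℕ → Ordinal.{0}, (∀ n, g n < (t n).ord) →
    ∃ γ < (succ lam).ord, ∀ᶠ n in atTop, g n < f γ n

/-- the first hull system of (5) -/
def H1 (κ ν₀ lam : Cardinal.{0}) (z e F : Ordinal.{0} → Ordinal.{0} → Ordinal.{0})
    (d : ℕ → Cardinal.{0}) (f : Ordinal.{0} → ℕ → Ordinal.{0}) (γ : Ordinal.{0}) (m : ℕ) :
    Set Ordinal.{0} :=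
  ⋂₀ {M | Closed κ ν₀ lam z e F M ∧ (∀ γ' ∈ M, γ' < (succ lam).ord → ∀ n, f γ' n ∈ M) ∧
    Iio (d m).ord ⊆ M ∧ γ ∈ M}

/-- the scales of (6) -/
structure IsG (lam : Cardinal.{0}) (d t : ℕ → Cardinal.{0}) (k : ℕ → ℕ)
    (G : Ordinal.{0} → ℕ → Ordinal.{0} → Ordinal.{0}) : Prop where
  lt : ∀ γ < (succ lam).ord, ∀ m r, RegO r → (d m).ord < r → r ≤ (t (k m)).ord → G γ m r < r
  cofinal : ∀ r h : ℕ → Ordinal.{0}, ∃ γ < (succ lam).ord, ∀ᶠ m in atTop,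
    RegO (r m) → (d m).ord < r m → r m ≤ (t (k m)).ord → h m < r m → h m < G γ m (r m)

/-- the closure conditions of the second hull system of (7) -/
structure Cl2 (lam : Cardinal.{0}) (z e : Ordinal.{0} → Ordinal.{0} → Ordinal.{0})
    (G : (ℕ → ℕ) → Ordinal.{0} → ℕ → Ordinal.{0} → Ordinal.{0}) (m : ℕ)
    (M : Set Ordinal.{0}) : Prop where
  zinv : ∀ ε ∈ M, ∀ α < ε, z ε α ∈ M → α ∈ M
  cofm : ∀ β ∈ M, β.cof.ord ∈ M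
  em : ∀ β ∈ M, ∀ i ∈ M, i < β.cof.ord → e β i ∈ M
  Gm : ∀ k : ℕ → ℕ, StrictMono k → ∀ γ' ∈ M, γ' < (succ lam).ord → ∀ r ∈ M, G k γ' m r ∈ M

/-- the second hull system of (7) -/
def H2 (lam : Cardinal.{0}) (z e : Ordinal.{0} → Ordinal.{0} → Ordinal.{0})
    (G : (ℕ → ℕ) → Ordinal.{0} → ℕ → Ordinal.{0} → Ordinal.{0})
    (d : ℕ → Cardinal.{0}) (γ : Ordinal.{0}) (m : ℕ) : Set Ordinal.{0} :=
  ⋂₀ {M | Cl2 lam z e G m M ∧ Iio (d m).ord ⊆ M ∧ γ ∈ M ∧ lam.ord ∈ M}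

end Pool.Agent.STW
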