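import Pool.Agent.STW.Closed
import Pool.Agent.STW.ChainY

/-!
(3c) of the text: facts on closed sets and the union of the chain.
-/

open Cardinal Ordinal Order Set Filter

namespace Pool.Agent.STW

open Pool.Agent.STP

variable {κ χ ν₀ lam τ σ : Cardinal.{0}} {z e F : Ordinal.{0} → Ordinal.{0} → Ordinal.{0}}
  {Y : Ordinal.{0} → Set Ordinal.{0}} {M M' : Set Ordinal.{0}}

theorem SitY.UY_sub (T : SitY κ χ ν₀ lam τ σ z e F Y) : UY σ Y ⊆ Iio (succ τ).ord := by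
  rintro α ⟨i, hi, hα⟩
  exact T.chain.sub i hi hα

theorem SitY.UY_small (T : SitY κ χ ν₀ lam τ σ z e F Y) : #(UY σ Y) < up κ := by
  have hr : (up κ).IsRegular := T.data.setup.reg.lift
  have h1 : UY σ Y = ⋃ i : Iio σ.ord, Y i.1 := by
    ext α
    simp only [UY, Set.mem_ofPred_eq, mem_iUnion]
    constructor
    · rintro ⟨i, hi, h⟩
      exact ⟨⟨i, hi⟩, h⟩
    · rintro ⟨i, h⟩
      exact ⟨i.1, i.2, h⟩
  rw [h1, card_iUnion_lt_iff_forall_of_isRegular hr (by rw [mk_Iio_ord]; exact Cardinal.lift_lt.2 T.lt)]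
  exact fun i => T.chain.small i.1 i.2

theorem SitY.mono_mem (T : SitY κ χ ν₀ lam τ σ z e F Y) {i : Ordinal.{0}} (hi : i < σ.ord) :
    i + 1 < σ.ord ∧ Y i ⊆ UY σ Y :=
  ⟨(isSuccLimit_ord T.reg.aleph0_le).add_one_lt hi, fun _ hα => ⟨i, hi, hα⟩⟩

/-- few elements of the union lie in one member of the chain -/
theorem SitY.one (T : SitY κ χ ν₀ lam τ σ z e F Y) {A : Set Ordinal.{0}} (hA : A ⊆ UY σ Y)
    (hc : #A < up σ) : ∃ i < σ.ord, A ⊆ Y i := by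
  choose i hi hi' using fun (x : A) => hA x.2
  obtain ⟨γ, hγ, h1⟩ := sup_bound T.reg hc i hi
  exact ⟨γ, hγ, fun α hα => T.chain.mono _ _ (h1 ⟨α, hα⟩) hγ (hi' ⟨α, hα⟩)⟩

theorem SitY.UY_cl (T : SitY κ χ ν₀ lam τ σ z e F Y) :
    (∀ β ∈ UY σ Y, β.cof.ord ∈ UY σ Y) ∧
    (∀ β ∈ UY σ Y, ∀ j ∈ UY σ Y, j < β.cof.ord → e β j ∈ UY σ Y) ∧
    (∀ β ∈ UY σ Y, ∀ α ∈ UY σ Y, α < β → ib e β α ∈ UY σ Y) ∧
    (∀ ξ ∈ UY σ Y, τ.ord ≤ ξ → ∀ r ∈ UY σ Y, r ∈ Co κ τ → F ξ r ∈ UY σ Y) ∧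
    (∀ α ∈ UY σ Y, α < τ.ord → (succ α.card).ord ∈ UY σ Y) := by
  have two : ∀ a ∈ UY σ Y, ∀ b ∈ UY σ Y, ∃ i < σ.ord, a ∈ Y i ∧ b ∈ Y i := by
    rintro a ⟨i, hi, ha⟩ b ⟨j, hj, hb⟩
    exact ⟨max i j, max_lt hi hj, T.chain.mono i _ (le_max_left _ _) (max_lt hi hj) ha,
      T.chain.mono j _ (le_max_right _ _) (max_lt hi hj) hb⟩
  refine ⟨?_, ?_, ?_, ?_, ?_⟩
  · rintro β ⟨i, hi, hβ⟩
    exact ⟨i + 1, (T.mono_mem hi).1, T.chain.cofm i hi β hβ⟩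
  · intro β hβ j hj hlt
    obtain ⟨i, hi, h1, h2⟩ := two β hβ j hj
    exact ⟨i + 1, (T.mono_mem hi).1, T.chain.em i hi β h1 j h2 hlt⟩
  · intro β hβ α hα hlt
    obtain ⟨i, hi, h1, h2⟩ := two β hβ α hα
    exact ⟨i + 1, (T.mono_mem hi).1, T.chain.ibm i hi β h1 α h2 hlt⟩
  · intro ξ hξ hτ r hr hc
    obtain ⟨i, hi, h1, h2⟩ := two ξ hξ r hr
    exact ⟨i + 1, (T.mono_mem hi).1, T.chain.Fm i hi ξ h1 hτ r h2 hc⟩
  · rintro α ⟨i, hi, hα⟩ hlt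
    exact ⟨i + 1, (T.mono_mem hi).1, T.chain.sucm i hi α hα hlt⟩

theorem SitY.sup_mem (T : SitY κ χ ν₀ lam τ σ z e F Y) (hM : Closed κ ν₀ lam z e F M)
    {A : Set Ordinal.{0}} (hA : A ⊆ M ∩ UY σ Y) (hc : #A < up σ) :
    ssup A ∈ M ∩ UY σ Y := by
  have h1 : up σ < up κ := Cardinal.lift_lt.2 T.lt
  obtain ⟨i, hi, hAi⟩ := T.one (fun a ha => (hA ha).2) hc
  exact ⟨hM.supm A (fun a ha => (hA ha).1) (hc.trans h1),
    ⟨i + 1, (T.mono_mem hi).1, T.chain.supm i hi A hAi⟩⟩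

private theorem f7_cof {a o : Ordinal.{0}} {f : Iio a → Ordinal.{0}} (hf : StrictMono f)
    (h1 : ∀ i, f i < o) (h2 : ∀ γ < o, ∃ i, γ ≤ f i) : o.cof = a.cof := by
  have h3 : o = ⨆ i, f i + 1 := by
    have hb : BddAbove (range fun i => f i + 1) := by
      refine ⟨o, ?_⟩
      rintro _ ⟨i, rfl⟩
      exact add_one_le_of_lt (h1 i)
    apply le_antisymm
    · by_contra hcon
      rw [not_le] at hcon
      obtain ⟨i, hi⟩ := h2 _ hcon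
      have h4 : f i + 1 ≤ ⨆ i, f i + 1 := le_ciSup hb i
      exact absurd ((lt_add_one (f i)).trans_le h4) (not_lt.2 hi)
    · exact ciSup_le' fun i => add_one_le_of_lt (h1 i)
  rw [h3]
  exact Ordinal.cof_iSup_Iio_add_one hf

/-- `C = {ssup (M ∩ Y i) : i < σ}` is closed unbounded in `ρ = ssup (M ∩ UY)`; `cof ρ = σ`
(note `0 ∈ M`, and `ssup ∅ = 0 ∈ Y 1`, so `M ∩ UY` is not empty; the sequence `ssup (M ∩ Y i)` is
strictly increasing since `ssup (M ∩ Y i) ∈ M ∩ Y (i + 1)`, and continuous by `IsChain.lim`) -/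
theorem SitY.rho (T : SitY κ χ ν₀ lam τ σ z e F Y) (hM : Closed κ ν₀ lam z e F M) :
    (∃ C ⊆ M ∩ UY σ Y, IsClubIn C (ssup (M ∩ UY σ Y))) ∧ (ssup (M ∩ UY σ Y)).cof = σ ∧
      ssup (M ∩ UY σ Y) < (succ τ).ord := by
  have hsm : Small.{0} ↥(M ∩ UY σ Y) :=
    small_of_mk_le ((Cardinal.mk_le_mk_of_subset inter_subset_right).trans T.UY_small.le)
  have hsmi : ∀ i < σ.ord, Small.{0} ↥(M ∩ Y i) := fun i hi =>
    small_of_mk_le ((Cardinal.mk_le_mk_of_subset inter_subset_right).trans (T.chain.small i hi).le)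
  have hmem : ∀ i < σ.ord, ssup (M ∩ Y i) ∈ M ∧ ssup (M ∩ Y i) ∈ Y (i + 1) := by
    intro i hi
    refine ⟨hM.supm _ inter_subset_left ?_, T.chain.supm i hi _ inter_subset_right⟩
    exact (Cardinal.mk_le_mk_of_subset inter_subset_right).trans_lt (T.chain.small i hi)
  have hmemU : ∀ i < σ.ord, ssup (M ∩ Y i) ∈ M ∩ UY σ Y := by
    intro i hi
    have h1 := T.mono_mem hi
    exact ⟨(hmem i hi).1, i + 1, h1.1, (hmem i hi).2⟩
  have hmono : ∀ i j, i ≤ j → j < σ.ord → ssup (M ∩ Y i) ≤ ssup (M ∩ Y j) := by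
    intro i j hij hj
    exact ssup_mono (hsmi j hj) (inter_subset_inter_right M (T.chain.mono i j hij hj))
  have hstrict : ∀ i j, i < j → j < σ.ord → ssup (M ∩ Y i) < ssup (M ∩ Y j) := by
    intro i j hij hj
    have hi := hij.trans hj
    refine lt_ssup (hsmi j hj) ⟨(hmem i hi).1, ?_⟩
    exact T.chain.mono _ _ (add_one_le_of_lt hij) hj (hmem i hi).2
  have hlt : ∀ α ∈ M ∩ UY σ Y, ∃ i < σ.ord, α < ssup (M ∩ Y i) := by
    rintro α ⟨h1, i, hi, h2⟩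
    exact ⟨i, hi, lt_ssup (hsmi i hi) ⟨h1, h2⟩⟩
  refine ⟨⟨{α | ∃ i < σ.ord, α = ssup (M ∩ Y i)}, ?_, ?_⟩, ?_, ?_⟩
  · rintro _ ⟨i, hi, rfl⟩
    exact hmemU i hi
  · refine ⟨?_, ?_, ?_⟩
    · rintro _ ⟨i, hi, rfl⟩
      exact lt_ssup hsm (hmemU i hi)
    · intro γ hγ
      obtain ⟨α, hα, h1⟩ := (lt_ssup_iff hsm).1 hγ
      obtain ⟨i, hi, h2⟩ := hlt α hα
      exact ⟨_, ⟨i, hi, rfl⟩, h1.trans_lt h2⟩
    · intro β h0 hβ h
      obtain ⟨α, hα, h1⟩ := (lt_ssup_iff hsm).1 hβ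
      obtain ⟨i, hi, h2⟩ := hlt α hα
      have hne : ({i | i < σ.ord ∧ β ≤ ssup (M ∩ Y i)} : Set Ordinal.{0}).Nonempty :=
        ⟨i, hi, h1.trans h2.le⟩
      have h3 := csInf_mem hne
      set i₀ := sInf {i | i < σ.ord ∧ β ≤ ssup (M ∩ Y i)} with hi₀
      have hmin : ∀ j < σ.ord, ssup (M ∩ Y j) < β → j < i₀ := by
        intro j hj h4
        by_contra h5
        exact absurd (h3.2.trans (hmono _ _ (not_lt.1 h5) hj)) (not_le.2 h4)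
      have hmin' : ∀ j < i₀, ssup (M ∩ Y j) < β := by
        intro j hj
        by_contra h4
        have h5 : i₀ ≤ j := csInf_le' ⟨hj.trans h3.1, not_lt.1 h4⟩
        exact absurd hj (not_lt.2 h5)
      refine ⟨i₀, h3.1, le_antisymm h3.2 ?_⟩
      by_contra hcon
      rw [not_le] at hcon
      obtain ⟨α', hα', h4⟩ := (lt_ssup_iff (hsmi i₀ h3.1)).1 hcon
      have hlim : ∀ j < i₀, j + 1 < i₀ := by
        intro j hj
        obtain ⟨_, ⟨k, hk, rfl⟩, h5, h6⟩ := h _ (hmin' j hj)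
        have h7 : j < k := by
          by_contra h8
          exact absurd h5 (not_lt.2 (hmono _ _ (not_lt.1 h8) (hj.trans h3.1)))
        exact (add_one_le_of_lt h7).trans_lt (hmin k hk h6)
      obtain ⟨_, ⟨k, hk, rfl⟩, h5, h6⟩ := h 0 h0
      have hpos : 0 < i₀ := bot_le.trans_lt (hmin k hk h6)
      obtain ⟨j, hj, h7⟩ := T.chain.lim i₀ h3.1 hpos hlim α' hα'.2
      have h8 : α' < ssup (M ∩ Y j) := lt_ssup (hsmi j (hj.trans h3.1)) ⟨hα'.1, h7⟩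
      exact absurd (h8.trans (hmin' j hj)) (not_lt.2 h4)
  · have h1 : (ssup (M ∩ UY σ Y)).cof = σ.ord.cof := by
      refine f7_cof (f := fun i : Iio σ.ord => ssup (M ∩ Y i.1)) ?_ ?_ ?_
      · intro i j hij
        exact hstrict i.1 j.1 hij j.2
      · intro i
        exact lt_ssup hsm (hmemU i.1 i.2)
      · intro γ hγ
        obtain ⟨α, hα, h1⟩ := (lt_ssup_iff hsm).1 hγ
        obtain ⟨i, hi, h2⟩ := hlt α hα
        exact ⟨⟨i, hi⟩, h1.trans h2.le⟩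
    rw [h1, T.reg.cof_ord]
  · refine ssup_lt_of_regular (T.ss.succ_regular T.data.setup) ?_ ?_
    · refine (Cardinal.mk_le_mk_of_subset inter_subset_right).trans_lt (T.UY_small.trans ?_)
      exact Cardinal.lift_lt.2 (T.ss.κ_lt_succ T.data.setup)
    · intro α hα
      exact T.UY_sub hα.2

/-- case A: if the coordinates in `M ∩ UY` are bounded in `τ`, then `M ∩ UY` is bounded in `τ`
(for `α ∈ M ∩ UY`, `κ ≤ α < τ`, the cardinal `|α|⁺` is a coordinate in `M ∩ UY` above `α`) -/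
theorem SitY.caseA (T : SitY κ χ ν₀ lam τ σ z e F Y) (hM : Closed κ ν₀ lam z e F M)
    (h : ¬ Unb τ.ord (M ∩ UY σ Y ∩ Co κ τ)) :
    ∃ t < τ.ord, M ∩ UY σ Y ∩ Iio τ.ord ⊆ Iio t := by
  have h0 : ∃ a < τ.ord, ∀ r ∈ M ∩ UY σ Y ∩ Co κ τ, a < r → τ.ord ≤ r := by
    unfold Unb at h
    push Not at h
    exact h
  obtain ⟨a, ha, h1⟩ := h0
  have hκ : κ.ord < τ.ord := Cardinal.ord_lt_ord.2 (T.ss.κ_lt T.data.setup)
  refine ⟨max a κ.ord, max_lt ha hκ, ?_⟩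
  rintro α ⟨⟨hα, hαY⟩, hατ⟩
  have hατ' : α < τ.ord := hατ
  show α < max a κ.ord
  rcases lt_or_ge α κ.ord with h2 | h2
  · exact lt_max_of_lt_right h2
  apply lt_max_of_lt_left
  have hαc : κ ≤ α.card := by
    have := Ordinal.card_le_card h2
    rwa [Cardinal.card_ord] at this
  have hinf : ℵ₀ ≤ α.card := T.data.setup.unc.le.trans hαc
  have hcτ : α.card < τ := Cardinal.lt_ord.1 hατ'
  have hα1 : α < (succ α.card).ord := Cardinal.lt_ord.2 (lt_succ _)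
  have hm : (succ α.card).ord ∈ M := hM.sucm α hα
  have hy : (succ α.card).ord ∈ UY σ Y := T.UY_cl.2.2.2.2 α hαY hατ'
  have hlt : (succ α.card).ord < τ.ord := Cardinal.ord_lt_ord.2 (T.ss.limit _ hcτ)
  have hco : (succ α.card).ord ∈ Co κ τ := by
    refine ⟨⟨?_, ?_⟩, ?_, hlt⟩
    · rw [Cardinal.card_ord]
    · rw [Cardinal.card_ord]
      exact isRegular_succ hinf
    · exact Cardinal.ord_lt_ord.2 (hαc.trans_lt (lt_succ _))
  by_contra hcon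
  push Not at hcon
  exact absurd (h1 _ ⟨⟨hm, hy⟩, hco⟩ (hcon.trans_lt hα1)) (not_le.2 hlt)

/-- case B: for `i` with `M ∩ Y i ∩ Co κ τ` unbounded in `τ` the ordinal
`ξ = xi τ F (Gof κ τ M (Y i))` lies in `M ∩ UY` and bounds the characteristic function of `M` on
`Y i` -/
theorem SitY.xi_mem (T : SitY κ χ ν₀ lam τ σ z e F Y) (hM : Closed κ ν₀ lam z e F M)
    {i : Ordinal.{0}} (hi : i < σ.ord) (hu : Unb τ.ord (M ∩ Y i ∩ Co κ τ)) :
    ∃ ξ ∈ M ∩ UY σ Y, τ.ord ≤ ξ ∧ ξ < (succ τ).ord ∧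
      ∀ᶠ r in tl τ.ord, r ∈ M ∩ Y i ∩ Co κ τ → ssup (M ∩ Y i ∩ Iio r) < F ξ r := by
  have hZ := T.chain.small i hi
  obtain ⟨h1, h2, h3⟩ := Gof_facts T.data T.ss hM hZ
  obtain ⟨h4, h5, h6, -⟩ := xi_spec (T.data.us τ T.ss) h1.le h2
  have h7 : xi τ F (Gof κ τ M (Y i)) ∈ M := xi_Gof_mem T.data T.ss hM hZ hu
  have h8 : xi τ F (Gof κ τ M (Y i)) ∈ Y (i + 1) := T.chain.xim i hi _ ⟨M, hM, hu, rfl⟩
  refine ⟨_, ⟨h7, i + 1, (T.mono_mem hi).1, h8⟩, h4, h5, ?_⟩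
  filter_upwards [h6] with r hr hr'
  exact hr _ ⟨hr'.1.1, hr'.1.2, hr'.2, rfl⟩

/-- case B: there is a cofinal set of `cof τ` coordinates inside any unbounded set -/
theorem SitY.cofinal_sub (T : SitY κ χ ν₀ lam τ σ z e F Y) {A : Set Ordinal.{0}}
    (hA : Unb τ.ord A) : ∃ B ⊆ A, #B < up σ ∧ Unb τ.ord B := by
  obtain ⟨E, h1, _, h3⟩ := fund (δ := τ.ord) rfl
  have h4 : ∀ i : Iio τ.ord.cof.ord, ∃ r ∈ A, E i < r ∧ r < τ.ord := fun i => hA _ (h1 i i.2)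
  choose g g1 g2 g3 using h4
  refine ⟨range g, ?_, ?_, ?_⟩
  · rintro _ ⟨i, rfl⟩
    exact g1 i
  · refine mk_range_le.trans_lt ?_
    rw [mk_Iio_ord]
    exact Cardinal.lift_lt.2 T.gt
  · intro a ha
    obtain ⟨i, hi, hai⟩ := h3 a ha
    exact ⟨g ⟨i, hi⟩, mem_range_self _, hai.trans_lt (g2 ⟨i, hi⟩), g3 ⟨i, hi⟩⟩

/-- case B: `ρ > τ` -/
theorem SitY.rho_gt (T : SitY κ χ ν₀ lam τ σ z e F Y) (hM : Closed κ ν₀ lam z e F M)
    (h : Unb τ.ord (M ∩ UY σ Y ∩ Co κ τ)) : τ.ord < ssup (M ∩ UY σ Y) := by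
  obtain ⟨B, hB, hc, hu⟩ := T.cofinal_sub h
  have h1 : ssup B ∈ M ∩ UY σ Y := T.sup_mem hM (fun x hx => (hB hx).1) hc
  have h2 : Small.{0} ↥(M ∩ UY σ Y) :=
    small_of_mk_le ((mk_le_mk_of_subset inter_subset_right).trans T.UY_small.le)
  have h3 : τ.ord ≤ ssup B := by
    refine le_of_forall_lt fun a ha => ?_
    obtain ⟨r, hr, har, _⟩ := hu a ha
    exact har.trans (lt_ssup (small_of_mk_le hc.le) hr)
  exact h3.trans_lt (lt_ssup h2 h1)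

end Pool.Agent.STW
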