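import Pool.Agent.STP.Club

/-!
Stationary sets and Fodor's lemma (helper77).
-/

open Cardinal Ordinal Order Set Filter

namespace Pool.Agent.STW

open Pool.Agent.STP

/-- `S` meets every closed unbounded subset of the ordinal `o`. -/
def IsStat (S : Set Ordinal.{0}) (o : Ordinal.{0}) : Prop :=
  ∀ E, IsClubIn E o → ∃ α ∈ S, α ∈ E

theorem IsStat.mono {S S' : Set Ordinal.{0}} {o : Ordinal.{0}} (h : IsStat S o) (hS : S ⊆ S') :
    IsStat S' o := fun E hE => by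
  obtain ⟨α, h1, h2⟩ := h E hE
  exact ⟨α, hS h1, h2⟩

/-- the final segments are closed unbounded -/
theorem club_Ioo {o γ : Ordinal.{0}} (ho : ℵ₀ < o.cof) (hγ : γ < o) : IsClubIn (Ioo γ o) o := by
  refine ⟨fun α h => h.2, fun ζ hζ => ?_, fun β _ hβ h => ⟨?_, hβ⟩⟩
  · have h1 : max γ ζ < o := max_lt hγ hζ
    refine ⟨max γ ζ + 1, ⟨?_, one_add_lt ho h1⟩, ?_⟩
    · exact (le_max_left _ _).trans_lt (lt_add_one _)
    · exact (le_max_right _ _).trans_lt (lt_add_one _)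
  · by_contra hcon
    obtain ⟨ε, h1, h2, h3⟩ := h 0 (by assumption)
    exact hcon (h1.1.trans h3)

theorem IsStat.inter_club {S E : Set Ordinal.{0}} {o : Ordinal.{0}} (ho : ℵ₀ < o.cof)
    (h : IsStat S o) (hE : IsClubIn E o) : IsStat (S ∩ E) o := fun E' hE' => by
  obtain ⟨α, h1, h2⟩ := h _ (hE.inter ho hE')
  exact ⟨α, ⟨h1, h2.1⟩, h2.2⟩

theorem IsStat.unb {S : Set Ordinal.{0}} {o : Ordinal.{0}} (ho : ℵ₀ < o.cof)
    (h : IsStat S o) {γ : Ordinal.{0}} (hγ : γ < o) : ∃ α ∈ S, γ < α ∧ α < o := by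
  obtain ⟨α, h1, h2⟩ := h _ (club_Ioo ho hγ)
  exact ⟨α, h1, h2.1, h2.2⟩

theorem not_isStat {S : Set Ordinal.{0}} {o : Ordinal.{0}} (h : ¬ IsStat S o) :
    ∃ E, IsClubIn E o ∧ ∀ α ∈ E, α ∉ S := by
  unfold IsStat at h
  push Not at h
  obtain ⟨E, h1, h2⟩ := h
  exact ⟨E, h1, fun α h3 h4 => h2 α h4 h3⟩

/-- the diagonal intersection of closed unbounded sets -/
theorem club_diag {θ : Cardinal.{0}} (hθ : θ.IsRegular) (hθ0 : ℵ₀ < θ)
    {C : Ordinal.{0} → Set Ordinal.{0}} (hC : ∀ j < θ.ord, IsClubIn (C j) θ.ord) :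
    IsClubIn {i | i < θ.ord ∧ ∀ j < i, i ∈ C j} θ.ord := by
  classical
  have h0 : ℵ₀ < θ.ord.cof := by
    rw [hθ.cof_ord]
    exact hθ0
  have hlim : IsSuccLimit θ.ord := isSuccLimit_ord hθ.aleph0_le
  refine ⟨fun α h => h.1, ?_, ?_⟩
  · intro γ hγ
    have hst : ∀ k : Ordinal.{0}, ∃ n, k < θ.ord → n < θ.ord ∧ k < n ∧ ∀ j ≤ k, n ∈ C j := by
      intro k
      by_cases hk : k < θ.ord
      · have hT : #(Iio (k + 1)) < up θ.ord.cof := by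
          rw [Cardinal.mk_Iio_ordinal, hθ.cof_ord]
          exact Cardinal.lift_lt.2 (lt_ord.1 (hlim.add_one_lt hk))
        have h1 := club_iInter h0 hT (E := fun t => C t.1)
          (fun t => hC t.1 ((lt_add_one_iff.1 t.2).trans_lt hk))
        obtain ⟨n, hn1, hn2⟩ := h1.unb k hk
        exact ⟨n, fun _ => ⟨hn1.1, hn2, fun j hj => hn1.2 ⟨j, lt_add_one_iff.2 hj⟩⟩⟩
      · exact ⟨0, fun h' => absurd h' hk⟩
    choose N hN using hst
    obtain ⟨β, h1, h2, h3⟩ := seq_ex h0 (fun k hk => (hN k hk).1) hγ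
    refine ⟨β, ⟨h2, fun j hj => ?_⟩, h1⟩
    refine (hC j (hj.trans h2)).closed β (bot_le.trans_lt h1) h2 fun ζ hζ => ?_
    obtain ⟨α, h4, h5, h6⟩ := h3 (max j ζ) (max_lt hj hζ)
    refine ⟨N α, (hN α h6).2.2 j ((le_max_left _ _).trans h4), ?_, h5⟩
    exact ((le_max_right _ _).trans h4).trans_lt (hN α h6).2.1
  · intro β hβ0 hβ h
    refine ⟨hβ, fun j hj => ?_⟩
    refine (hC j (hj.trans hβ)).closed β hβ0 hβ fun ζ hζ => ?_
    obtain ⟨ε, h1, h2, h3⟩ := h (max j ζ) (max_lt hj hζ)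
    exact ⟨ε, h1.2 j ((le_max_left _ _).trans_lt h2), (le_max_right _ _).trans_lt h2, h3⟩

/-- FODOR'S LEMMA -/
theorem fodor {θ : Cardinal.{0}} (hθ : θ.IsRegular) (hθ0 : ℵ₀ < θ) {S : Set Ordinal.{0}}
    (hS : IsStat S θ.ord) {f : Ordinal.{0} → Ordinal.{0}}
    (hf : ∀ i ∈ S, 0 < i → i < θ.ord → f i < i) :
    ∃ j < θ.ord, IsStat {i | i ∈ S ∧ f i = j} θ.ord := by
  classical
  by_contra hcon
  push Not at hcon
  have h0 : ℵ₀ < θ.ord.cof := by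
    rw [hθ.cof_ord]
    exact hθ0
  have hC : ∀ j : Ordinal.{0}, ∃ C : Set Ordinal.{0}, j < θ.ord → IsClubIn C θ.ord ∧
      ∀ i ∈ C, ¬ (i ∈ S ∧ f i = j) := by
    intro j
    by_cases hj : j < θ.ord
    · obtain ⟨C, h1, h2⟩ := not_isStat (hcon j hj)
      exact ⟨C, fun _ => ⟨h1, h2⟩⟩
    · exact ⟨∅, fun h' => absurd h' hj⟩
  choose C hC using hC
  have hpos : (0 : Ordinal.{0}) < θ.ord := (isSuccLimit_ord hθ.aleph0_le).bot_lt
  have hD := (club_diag hθ hθ0 (fun j hj => (hC j hj).1)).inter h0 (club_Ioo h0 hpos)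
  obtain ⟨i, hi, ⟨hi1, hi2⟩, hi3, hi4⟩ := hS _ hD
  have h1 := hf i hi hi3 hi4
  exact (hC (f i) (h1.trans hi4)).2 i (hi2 _ h1) ⟨hi, rfl⟩

end Pool.Agent.STW
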