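import Pool.Agent.STW.Silver
import Pool.Agent.STP.PowSing

/-!
The reduction (page (0)): from the case of cofinality `ω` and Silver's theorem to all cardinals.
-/

open Cardinal Ordinal Order Set Filter

namespace Pool.Agent.STW

open Pool.Agent.STP

theorem red_Iio {c : Cardinal.{0}} (i : c.ord.ToType) : #(Iio i) < c := by
  have h := mk_Iio_lt i (by rw [mk_ord_toType, type_toType])
  rwa [mk_ord_toType] at h

/-- bounded functions: if `χ < cof τ` and `b ^ χ ≤ τ` for all `b < τ` then `τ ^ χ ≤ τ` -/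
theorem red_bdd {χ τ : Cardinal.{0}} (hτ : ℵ₀ ≤ τ) (hcof : χ < τ.ord.cof)
    (h : ∀ b < τ, b ^ χ ≤ τ) : τ ^ χ ≤ τ := by
  classical
  have hα : #τ.ord.ToType = τ := mk_ord_toType τ
  have hbd : ∀ f : χ.out → τ.ord.ToType, ∃ t, ∀ x, f x < t := by
    intro f
    have h1 : #(range f) < τ.ord.cof := by
      refine mk_range_le.trans_lt ?_
      rwa [mk_out]
    have h2 : ¬ IsCofinal (range f) := by
      intro hc
      have h3 := Order.cof_le hc
      rw [cof_toType] at h3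
      exact absurd h1 (not_lt.2 h3)
    unfold IsCofinal at h2
    push Not at h2
    obtain ⟨t, ht⟩ := h2
    exact ⟨t, fun x => ht _ (mem_range_self x)⟩
  choose t ht using hbd
  let Φ : (χ.out → τ.ord.ToType) → Σ t : τ.ord.ToType, (χ.out → Iio t) :=
    fun f => ⟨t f, fun x => ⟨f x, ht f x⟩⟩
  have hΦ : Function.Injective Φ := by
    intro f g hfg
    funext x
    have h2 : ∀ (p q : Σ t : τ.ord.ToType, (χ.out → Iio t)), p = q →
        (p.2 x : τ.ord.ToType) = q.2 x := by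
      rintro p q rfl
      rfl
    exact h2 _ _ hfg
  have h1 := mk_le_of_injective hΦ
  rw [mk_pi, prod_const] at h1
  simp only [mk_out, hα, Cardinal.lift_id] at h1
  refine h1.trans ?_
  rw [mk_sigma]
  have h2 : ∀ t : τ.ord.ToType, #(χ.out → Iio t) ≤ τ := by
    intro t
    rw [mk_pi, prod_const]
    simp only [mk_out, Cardinal.lift_id]
    refine h _ ?_
    exact red_Iio t
  refine (sum_le_sum _ (fun _ => τ) h2).trans ?_
  rw [sum_const]
  simp only [hα, Cardinal.lift_id]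
  rw [mul_eq_self hτ]

/-- (R1) Hausdorff -/
theorem hausdorff {χ σ : Cardinal.{0}} (hχ : ℵ₀ ≤ χ) (h : 2 ^ χ ≤ σ) (hσ : σ ^ χ ≤ succ σ) :
    (succ σ) ^ χ ≤ succ σ := by
  have h1 : χ < σ := (cantor χ).trans_le h
  have h2 : ℵ₀ ≤ σ := hχ.trans h1.le
  have hreg : (succ σ).IsRegular := isRegular_succ h2
  refine red_bdd (h2.trans (le_succ σ)) ?_ ?_
  · rw [hreg.cof_ord]
    exact h1.trans (lt_succ σ)
  · intro b hb
    exact (power_le_power_right (lt_succ_iff.1 hb)).trans hσ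

/-- the powers of the smaller cardinals -/
theorem red_small {χ τ : Cardinal.{0}} (h : 2 ^ χ < τ) (hlim : ∀ b < τ, succ b < τ)
    (hP : ∀ b, 2 ^ χ ≤ b → b < τ → b ^ χ ≤ succ b) {b : Cardinal.{0}} (hb : b < τ) :
    b ^ χ < τ := by
  have h1 : max (2 ^ χ) b < τ := max_lt h hb
  exact ((power_le_power_right (le_max_right _ _)).trans (hP _ (le_max_left _ _) h1)).trans_lt
    (hlim _ h1)

/-- (R2) -/
theorem pow_of_cof_gt {χ τ : Cardinal.{0}} (hχ : ℵ₀ ≤ χ) (h : 2 ^ χ < τ)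
    (hlim : ∀ b < τ, succ b < τ) (hcof : χ < τ.ord.cof)
    (hP : ∀ b, 2 ^ χ ≤ b → b < τ → b ^ χ ≤ succ b) : τ ^ χ ≤ τ :=
  red_bdd (hχ.trans ((cantor χ).trans h).le) hcof fun _ hb => (red_small h hlim hP hb).le

/-- (R3) -/
theorem pow_of_cof_le {χ τ : Cardinal.{0}} (hχ : ℵ₀ ≤ χ) (h : 2 ^ χ < τ)
    (hlim : ∀ b < τ, succ b < τ)
    (hP : ∀ b, 2 ^ χ ≤ b → b < τ → b ^ χ ≤ succ b) : τ ^ χ ≤ τ ^ τ.ord.cof := by
  classical
  have hτ : ℵ₀ ≤ τ := hχ.trans ((cantor χ).trans h).le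
  have hα : #τ.ord.ToType = τ := mk_ord_toType τ
  have hlimo : IsSuccLimit τ.ord := isSuccLimit_ord hτ
  obtain ⟨C, hC, hCc⟩ := exists_cof_eq (α := τ.ord.ToType)
  rw [cof_toType] at hCc
  -- a strictly larger element of the cofinal set
  have hC' : ∀ a : τ.ord.ToType, ∃ c ∈ C, a < c := by
    intro a
    obtain ⟨a', ha'⟩ : ∃ a', a < a' := by
      by_contra hcon
      push Not at hcon
      have h1 : Order.cof τ.ord.ToType ≤ 1 := by
        have : Nonempty τ.ord.ToType := ⟨a⟩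
        rw [cof_le_one_iff]
        exact ⟨a, hcon⟩
      rw [cof_toType] at h1
      have h2 := one_lt_cof_iff.mpr hlimo
      exact absurd h1 (not_le.mpr h2)
    obtain ⟨c, hcC, hc⟩ := hC a'
    exact ⟨c, hcC, ha'.trans_le hc⟩
  -- the codes
  have hcode : ∀ c : τ.ord.ToType, ∃ φ : (χ.out → Option (Iio c)) → τ.ord.ToType,
      Function.Injective φ := by
    intro c
    have h1 : #(χ.out → Option (Iio c)) ≤ #τ.ord.ToType := by
      rw [mk_pi, prod_const]
      simp only [mk_out, Cardinal.lift_id, hα, mk_option]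
      refine (red_small h hlim hP ?_).le
      exact add_lt_of_lt hτ (red_Iio c) (one_lt_aleph0.trans_le hτ)
    obtain ⟨φ⟩ := h1
    exact ⟨φ, φ.injective⟩
  choose φ hφ using hcode
  let Φ : (χ.out → τ.ord.ToType) → (C → τ.ord.ToType) := fun g c =>
    φ c fun x => if hx : g x < c then some ⟨g x, hx⟩ else none
  have hΦ : Function.Injective Φ := by
    intro f g hfg
    funext x
    obtain ⟨c, hcC, hc⟩ := hC' (f x)
    have h1 := congrFun (hφ c (congrFun hfg ⟨c, hcC⟩)) x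
    simp only [hc, dif_pos] at h1
    by_cases h2 : g x < c
    · simp only [h2, dif_pos, Option.some.injEq, Subtype.mk.injEq] at h1
      exact h1
    · simp only [h2, dif_neg, not_false_iff] at h1
      cases h1
  have h1 := mk_le_of_injective hΦ
  rw [mk_pi, prod_const, mk_pi, prod_const] at h1
  simpa only [mk_out, hα, Cardinal.lift_id, hCc] using h1

/-- (R4) -/
theorem pow_le {χ : Cardinal.{0}} (hχ : ℵ₀ ≤ χ)
    (H : ∀ lam : Cardinal.{0}, 2 ^ χ < lam → (∀ b < lam, succ b < lam) → lam.ord.cof = ℵ₀ →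
      (∀ τ, 2 ^ χ ≤ τ → τ < lam → τ ^ χ ≤ succ τ) → lam ^ ℵ₀ ≤ succ lam) :
    ∀ τ : Cardinal.{0}, 2 ^ χ ≤ τ → τ ^ χ ≤ succ τ := by
  intro τ
  induction τ using WellFoundedLT.induction with
  | _ τ ih =>
    intro hτ
    rcases hτ.eq_or_lt with h0 | h0
    · rw [← h0, ← power_mul, mul_eq_self hχ]
      exact le_succ _
    have hinf : ℵ₀ ≤ τ := hχ.trans ((cantor χ).trans h0).le
    have hP : ∀ b, 2 ^ χ ≤ b → b < τ → b ^ χ ≤ succ b := fun b hb hb' => ih b hb' hb
    by_cases hlim : ∀ b < τ, succ b < τ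
    · by_cases hcof : χ < τ.ord.cof
      · exact (pow_of_cof_gt hχ h0 hlim hcof hP).trans (le_succ τ)
      · rw [not_lt] at hcof
        refine (pow_of_cof_le hχ h0 hlim hP).trans ?_
        have h1 : ℵ₀ ≤ τ.ord.cof := Ordinal.aleph0_le_cof_iff.2 (one_lt_cof_iff.2 (isSuccLimit_ord hinf))
        rcases h1.eq_or_lt with h2 | h2
        · rw [← h2]
          exact H τ h0 hlim h2.symm hP
        · exact silver hχ h0 hlim h2 hcof hP
    · push Not at hlim
      obtain ⟨b, hb, hb'⟩ := hlim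
      have h1 : τ = succ b := le_antisymm hb' (succ_le_of_lt hb)
      have h2 : 2 ^ χ ≤ b := by
        rw [h1] at h0
        exact lt_succ_iff.1 h0
      have h3 := hausdorff hχ h2 (hP b h2 hb)
      rw [← h1] at h3
      exact h3.trans (le_succ τ)

/-- (R5) -/
theorem sch {χ μ : Cardinal.{0}} (hμ : μ.IsStrongLimit) (hχ : ℵ₀ ≤ χ) (_hlt : χ < μ)
    (hcof : μ.ord.cof ≤ χ) (h : μ ^ χ ≤ succ μ) : 2 ^ μ = succ μ := by
  refine le_antisymm (pow_le_of_count hμ hχ hcof ?_) (succ_le_of_lt (cantor μ))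
  have h1 := mk_bounded_subset_le (Iio μ.ord) (up χ)
  rw [mk_Iio_ord] at h1
  have h2 : max (up μ) ℵ₀ = up μ := by
    apply max_eq_left
    have := Cardinal.lift_le.{1}.2 hμ.aleph0_le
    simpa [up] using this
  rw [h2] at h1
  have h3 : (up μ : Cardinal.{1}) ^ up χ = up (μ ^ χ) := by
    simp [up]
  rw [h3] at h1
  refine h1.trans ?_
  exact Cardinal.lift_le.2 h

/-- the end of the page: the case of cofinality `ω` (for all `χ ≥ κ`) gives SCH above `κ` -/
theorem sch_of_omega {κ : Cardinal.{0}} (hunc : ℵ₀ < κ)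
    (H : ∀ χ : Cardinal.{0}, κ ≤ χ → ∀ lam : Cardinal.{0}, 2 ^ χ < lam →
      (∀ b < lam, succ b < lam) → lam.ord.cof = ℵ₀ →
      (∀ τ, 2 ^ χ ≤ τ → τ < lam → τ ^ χ ≤ succ τ) → lam ^ ℵ₀ ≤ succ lam)
    {μ : Cardinal.{0}} (hκμ : κ < μ) (hsing : μ.IsSingular) (hμ : μ.IsStrongLimit) :
    2 ^ μ = succ μ := by
  have h1 : μ.ord.cof < μ := hsing.cof_ord_lt
  have h2 : max κ μ.ord.cof < μ := max_lt hκμ h1
  have h3 : ℵ₀ ≤ max κ μ.ord.cof := hunc.le.trans (le_max_left _ _)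
  have h4 : 2 ^ max κ μ.ord.cof < μ := hμ.isStrongPrelimit h2
  exact sch hμ h3 h2 (le_max_right _ _)
    (pow_le h3 (H _ (le_max_left _ _)) μ h4.le)

end Pool.Agent.STW
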