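import Pool.Agent.STW.Concl
import Pool.Agent.STW.Reduction

/-!
Main theorems.
-/

open Cardinal Ordinal Order Set Filter

namespace Pool.Agent.STW

open Pool.Agent.STP

/-- SCH in the strong form above a weakly inaccessible cardinal with the strong tree property. -/
theorem main_pow {κ : Cardinal.{0}} (hκ : κ.IsRegular) (hunc : ℵ₀ < κ)
    (hlim : ∀ c < κ, succ c < κ) (hTP : StrongTP κ) {χ : Cardinal.{0}} (hχ : κ ≤ χ) :
    ∀ τ : Cardinal.{0}, 2 ^ χ ≤ τ → τ ^ χ ≤ succ τ :=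
  pow_le (hunc.le.trans hχ) fun lam h1 h2 h3 h4 =>
    omega_case (κ := κ) (χ := χ) (ν₀ := 2 ^ χ) ⟨hκ, hunc, hlim, hχ, rfl, h1, h2, h3, h4⟩ hTP

theorem main {κ : Cardinal.{0}} (hκ : κ.IsRegular) (hunc : ℵ₀ < κ)
    (hlim : ∀ c < κ, succ c < κ) (hTP : StrongTP κ) {μ : Cardinal.{0}} (hκμ : κ < μ)
    (hsing : μ.IsSingular) (hμ : μ.IsStrongLimit) : 2 ^ μ = succ μ :=
  sch_of_omega hunc (fun χ hχ lam h1 h2 h3 h4 =>
    omega_case (κ := κ) (χ := χ) (ν₀ := 2 ^ χ) ⟨hκ, hunc, hlim, hχ, rfl, h1, h2, h3, h4⟩ hTP)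
    hκμ hsing hμ

end Pool.Agent.STW
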