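import Pool.Agent.STW.Facts

/-!
(3e) of the text: NEST.
-/

open Cardinal Ordinal Order Set Filter

namespace Pool.Agent.STW

open Pool.Agent.STP

variable {κ χ ν₀ lam τ σ : Cardinal.{0}} {z e F : Ordinal.{0} → Ordinal.{0} → Ordinal.{0}}
  {Y : Ordinal.{0} → Set Ordinal.{0}} {M M' : Set Ordinal.{0}}

/-- `M` and `M'` have common elements in `UY` above every `α < ρ` -/
theorem SitY.common (T : SitY κ χ ν₀ lam τ σ z e F Y) (hM : Closed κ ν₀ lam z e F M)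
    (hM' : Closed κ ν₀ lam z e F M') (hρ : ssup (M ∩ UY σ Y) = ssup (M' ∩ UY σ Y))
    {α : Ordinal.{0}} (hα : α < ssup (M ∩ UY σ Y)) : ∃ β ∈ M ∩ M' ∩ UY σ Y, α < β := by
  obtain ⟨⟨C, hC, hCc⟩, hcof, _⟩ := T.rho hM
  obtain ⟨⟨C', hC', hCc'⟩, _, _⟩ := T.rho hM'
  rw [← hρ] at hCc'
  have h0 : ℵ₀ < (ssup (M ∩ UY σ Y)).cof := by
    rw [hcof]
    exact T.unc
  obtain ⟨β, hβ, h1⟩ := (hCc.inter h0 hCc').unb α hα
  exact ⟨β, ⟨⟨(hC hβ.1).1, (hC' hβ.2).1⟩, (hC hβ.1).2⟩, h1⟩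

/-- two sets `N = M ∩ UY ∩ β`, `N' = M' ∩ UY ∩ β` with the same strict supremum `η > α`, `β`
regular uncountable, have a common element `≥ α` below `β` (successor `η`, or an `ω`-sequence
alternating between the two) -/
theorem SitY.alternate (T : SitY κ χ ν₀ lam τ σ z e F Y) (hM : Closed κ ν₀ lam z e F M)
    (hM' : Closed κ ν₀ lam z e F M') {β α : Ordinal.{0}} (hβ : β ∈ Co κ τ)
    (hα : α ∈ M ∩ UY σ Y) (hαβ : α < β)
    (hη : ssup (M ∩ UY σ Y ∩ Iio β) = ssup (M' ∩ UY σ Y ∩ Iio β)) :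
    ∃ γ ∈ M ∩ M' ∩ UY σ Y, α ≤ γ ∧ γ < β := by
  classical
  have hs := small_Iio_inter (M ∩ UY σ Y) β
  have hs' := small_Iio_inter (M' ∩ UY σ Y) β
  have hαη : α < ssup (M ∩ UY σ Y ∩ Iio β) := lt_ssup hs ⟨hα, hαβ⟩
  have hmax : ∀ {A B : Set Ordinal.{0}} {x : Ordinal.{0}}, Small.{0} ↥(A ∩ Iio β) →
      Small.{0} ↥(B ∩ Iio β) → x ∈ A ∩ Iio β → (∀ y ∈ A ∩ Iio β, y ≤ x) →
      ssup (A ∩ Iio β) = ssup (B ∩ Iio β) → x ∈ B ∩ Iio β := by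
    intro A B x hA hB hx hmx heq
    have h1 : x < ssup (B ∩ Iio β) := by
      rw [← heq]
      exact lt_ssup hA hx
    obtain ⟨y, hy, h2⟩ := (lt_ssup_iff hB).1 h1
    have h3 : y < ssup (A ∩ Iio β) := by
      rw [heq]
      exact lt_ssup hB hy
    obtain ⟨w, hw, h4⟩ := (lt_ssup_iff hA).1 h3
    have h5 : y = x := le_antisymm (h4.trans (hmx w hw)) h2
    rwa [h5] at hy
  by_cases h1 : ∃ x ∈ M ∩ UY σ Y ∩ Iio β, ∀ y ∈ M ∩ UY σ Y ∩ Iio β, y ≤ x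
  · obtain ⟨x, hx, hmx⟩ := h1
    have h2 := hmax hs hs' hx hmx hη
    exact ⟨x, ⟨⟨hx.1.1, h2.1.1⟩, hx.1.2⟩, hmx α ⟨hα, hαβ⟩, hx.2⟩
  by_cases h1' : ∃ x ∈ M' ∩ UY σ Y ∩ Iio β, ∀ y ∈ M' ∩ UY σ Y ∩ Iio β, y ≤ x
  · obtain ⟨x, hx, hmx⟩ := h1'
    have h2 := hmax hs' hs hx hmx hη.symm
    refine ⟨x, ⟨⟨h2.1.1, hx.1.1⟩, hx.1.2⟩, ?_, hx.2⟩
    rw [hη] at hαη
    obtain ⟨y, hy, h3⟩ := (lt_ssup_iff hs').1 hαη
    exact h3.trans (hmx y hy)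
  push Not at h1 h1'
  -- the steps
  have hstep : ∀ x : Ordinal.{0}, ∃ y, x ∈ M ∩ UY σ Y ∩ Iio β →
      y ∈ M' ∩ UY σ Y ∩ Iio β ∧ x < y := by
    intro x
    by_cases hx : x ∈ M ∩ UY σ Y ∩ Iio β
    · have h2 : x < ssup (M' ∩ UY σ Y ∩ Iio β) := by
        rw [← hη]
        exact lt_ssup hs hx
      obtain ⟨y, hy, h3⟩ := (lt_ssup_iff hs').1 h2
      obtain ⟨w, hw, h4⟩ := h1' y hy
      exact ⟨w, fun _ => ⟨hw, h3.trans_lt h4⟩⟩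
    · exact ⟨0, fun h => absurd h hx⟩
  have hstep' : ∀ x : Ordinal.{0}, ∃ y, x ∈ M' ∩ UY σ Y ∩ Iio β →
      y ∈ M ∩ UY σ Y ∩ Iio β ∧ x < y := by
    intro x
    by_cases hx : x ∈ M' ∩ UY σ Y ∩ Iio β
    · have h2 : x < ssup (M ∩ UY σ Y ∩ Iio β) := by
        rw [hη]
        exact lt_ssup hs' hx
      obtain ⟨y, hy, h3⟩ := (lt_ssup_iff hs).1 h2
      obtain ⟨w, hw, h4⟩ := h1 y hy
      exact ⟨w, fun _ => ⟨hw, h3.trans_lt h4⟩⟩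
    · exact ⟨0, fun h => absurd h hx⟩
  choose f hf using hstep
  choose f' hf' using hstep'
  let a : ℕ → Ordinal.{0} := fun n => (fun x => f' (f x))^[n] α
  have ha0 : ∀ n, a n ∈ M ∩ UY σ Y ∩ Iio β := by
    intro n
    induction n with
    | zero => exact ⟨hα, hαβ⟩
    | succ n ih =>
      show (fun x => f' (f x))^[n + 1] α ∈ _
      rw [Function.iterate_succ_apply']
      exact (hf' _ (hf _ ih).1).1
  have hs1 : ∀ n, a (n + 1) = f' (f (a n)) := fun n => Function.iterate_succ_apply' _ n α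
  have hfa : ∀ n, f (a n) ∈ M' ∩ UY σ Y ∩ Iio β ∧ a n < f (a n) ∧ f (a n) < a (n + 1) := by
    intro n
    have h2 := hf _ (ha0 n)
    refine ⟨h2.1, h2.2, ?_⟩
    rw [hs1]
    exact (hf' _ h2.1).2
  have hcnt : ∀ g : ℕ → Ordinal.{0}, #(range g) < up σ := by
    intro g
    have h2 : #(range g) ≤ ℵ₀ := (countable_range g).le_aleph0
    refine h2.trans_lt ?_
    rw [← Cardinal.lift_aleph0.{1, 0}]
    exact Cardinal.lift_lt.2 T.unc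
  have hsm : ∀ g : ℕ → Ordinal.{0}, Small.{0} (range g) := fun g =>
    small_of_mk_le (hcnt g).le
  have heq : ssup (range a) = ssup (range fun n => f (a n)) := by
    apply le_antisymm
    · apply ssup_le
      rintro _ ⟨n, rfl⟩
      exact (hfa n).2.1.trans (lt_ssup (hsm _) ⟨n, rfl⟩)
    · apply ssup_le
      rintro _ ⟨n, rfl⟩
      exact (hfa n).2.2.trans (lt_ssup (hsm _) ⟨n + 1, rfl⟩)
  have hm1 := T.sup_mem hM (A := range a) (by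
    rintro _ ⟨n, rfl⟩
    exact (ha0 n).1) (hcnt a)
  have hm2 := T.sup_mem hM' (A := range fun n => f (a n)) (by
    rintro _ ⟨n, rfl⟩
    exact (hfa n).1.1) (hcnt _)
  rw [← heq] at hm2
  refine ⟨ssup (range a), ⟨⟨hm1.1, hm2.1⟩, hm1.2⟩, ?_, ?_⟩
  · exact (lt_ssup (hsm a) ⟨0, rfl⟩).le
  · refine Co_ssup_lt hβ ((hcnt a).le.trans (Cardinal.lift_le.2 T.lt.le)) ?_
    rintro _ ⟨n, rfl⟩
    exact (ha0 n).2

/-- the core: no least point of difference `α ∈ M`, `α ∉ M'` -/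
theorem SitY.core (T : SitY κ χ ν₀ lam τ σ z e F Y) (hM : Closed κ ν₀ lam z e F M)
    (hM' : Closed κ ν₀ lam z e F M') (hρ : ssup (M ∩ UY σ Y) = ssup (M' ∩ UY σ Y))
    (hτρ : τ.ord < ssup (M ∩ UY σ Y)) {t α : Ordinal.{0}} (htα : t ≤ α)
    (h1 : ∀ r ∈ M ∩ UY σ Y ∩ Co κ τ, t ≤ r →
      ssup (M ∩ UY σ Y ∩ Iio r) = crho τ F (ssup (M ∩ UY σ Y)) r)
    (h2 : ∀ r ∈ M' ∩ UY σ Y ∩ Co κ τ, t ≤ r →
      ssup (M' ∩ UY σ Y ∩ Iio r) = crho τ F (ssup (M' ∩ UY σ Y)) r)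
    (hατ : α < τ.ord) (hα : α ∈ M ∩ UY σ Y) (hα' : α ∉ M')
    (hmin : ∀ γ < α, γ ∈ UY σ Y → (γ ∈ M ↔ γ ∈ M')) : False := by
  have S := T.data.setup
  have hν : ν₀.ord ≤ α := by
    by_contra h
    exact hα' (hM'.low α (not_le.1 h))
  have hne : ({β | β ∈ M ∩ M' ∩ UY σ Y ∧ α < β} : Set Ordinal.{0}).Nonempty := by
    obtain ⟨β, h3, h4⟩ := T.common hM hM' hρ (hατ.trans hτρ)
    exact ⟨β, h3, h4⟩
  obtain ⟨⟨⟨hβM, hβM'⟩, hβY⟩, hαβ⟩ := csInf_mem hne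
  have hleast : ∀ γ ∈ M ∩ M' ∩ UY σ Y, α ≤ γ →
      sInf {β | β ∈ M ∩ M' ∩ UY σ Y ∧ α < β} ≤ γ := by
    intro γ hγ h3
    refine csInf_le' ⟨hγ, lt_of_le_of_ne h3 ?_⟩
    rintro rfl
    exact hα' hγ.1.2
  set β := sInf {β | β ∈ M ∩ M' ∩ UY σ Y ∧ α < β} with hβdef
  have hβτ : β < (succ τ).ord := T.UY_sub hβY
  have hcl := T.UY_cl
  rcases Ordinal.zero_or_succ_or_isSuccLimit β with h0 | ⟨γ, hγ⟩ | hlim
  · rw [h0] at hαβ
    exact absurd hαβ (not_lt.2 bot_le)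
  · have hγ' : β = γ + 1 := hγ.symm
    have h3 := T.data.ise.succ γ
    rw [← hγ'] at h3
    have h0M : (0 : Ordinal.{0}) ∈ M ∩ UY σ Y := by
      have h4 := T.sup_mem hM (A := ∅) (empty_subset _) (by
        rw [Cardinal.mk_eq_zero]
        exact (zero_le : (0 : Cardinal.{1}) ≤ up 0).trans_lt
          (Cardinal.lift_lt.2 (Cardinal.aleph0_pos.trans T.unc)))
      rwa [ssup_empty] at h4
    have h0M' : (0 : Ordinal.{0}) ∈ M' := by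
      have h4 := T.sup_mem hM' (A := ∅) (empty_subset _) (by
        rw [Cardinal.mk_eq_zero]
        exact (zero_le : (0 : Cardinal.{1}) ≤ up 0).trans_lt
          (Cardinal.lift_lt.2 (Cardinal.aleph0_pos.trans T.unc)))
      rw [ssup_empty] at h4
      exact h4.1
    have h5 : γ ∈ M ∩ M' ∩ UY σ Y := by
      rw [← h3.1]
      exact ⟨⟨hM.em β hβM 0 h0M.1 h3.2, hM'.em β hβM' 0 h0M' h3.2⟩,
        hcl.2.1 β hβY 0 h0M.2 h3.2⟩
    have h6 : α ≤ γ := by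
      rw [hγ'] at hαβ
      exact Order.lt_add_one_iff.1 hαβ
    have h7 := hleast γ h5 h6
    rw [hγ'] at h7
    exact absurd (lt_add_one γ) (not_lt.2 h7)
  · have hr : β.cof.ord ∈ M ∩ M' ∩ UY σ Y :=
      ⟨⟨hM.cofm β hβM, hM'.cofm β hβM'⟩, hcl.1 β hβY⟩
    rcases le_or_gt β.cof.ord α with h3 | h3
    · obtain ⟨h4, h5⟩ := ib_spec T.data.ise hαβ
      have hiM : ib e β α ∈ M := hM.ibm β hβM α hα.1 hαβ
      have hiY : ib e β α ∈ UY σ Y := hcl.2.2.1 β hβY α hα.2 hαβ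
      have hiM' : ib e β α ∈ M' := (hmin _ (h4.trans_le h3) hiY).1 hiM
      have h6 : e β (ib e β α) ∈ M ∩ M' ∩ UY σ Y :=
        ⟨⟨hM.em β hβM _ hiM h4, hM'.em β hβM' _ hiM' h4⟩, hcl.2.1 β hβY _ hiY h4⟩
      exact absurd (T.data.ise.lt β _ h4) (not_lt.2 (hleast _ h6 h5))
    · have h4 : β.cof.ord = β := le_antisymm (Ordinal.ord_cof_le β) (hleast _ hr h3.le)
      have h5 : β.card = β.cof := by
        conv_lhs => rw [← h4]
        exact card_ord _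
      have hreg : RegO β := by
        refine ⟨by rw [h5, h4], ?_⟩
        rw [h5]
        refine ⟨?_, by rw [Ordinal.cof_ord_cof]⟩
        rw [Ordinal.aleph0_le_cof_iff]
        exact Ordinal.one_lt_cof_iff.2 hlim
      have hβCo : β ∈ Co κ τ := by
        refine ⟨hreg, ?_, T.ss.regO_lt S hreg hβτ⟩
        exact ((Cardinal.ord_lt_ord.2 S.κ_lt).trans_le hν).trans hαβ
      have h6 := h1 β ⟨⟨hβM, hβY⟩, hβCo⟩ (htα.trans hαβ.le)
      have h7 := h2 β ⟨⟨hβM', hβY⟩, hβCo⟩ (htα.trans hαβ.le)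
      rw [← hρ] at h7
      obtain ⟨γ, hγ, h8, h9⟩ := T.alternate hM hM' hβCo hα hαβ (h6.trans h7.symm)
      exact absurd h9 (not_lt.2 (hleast γ hγ h8))

theorem SitY.nest (T : SitY κ χ ν₀ lam τ σ z e F Y) (hM : Closed κ ν₀ lam z e F M)
    (hM' : Closed κ ν₀ lam z e F M') (hρ : ssup (M ∩ UY σ Y) = ssup (M' ∩ UY σ Y))
    (hτρ : τ.ord < ssup (M ∩ UY σ Y)) {t : Ordinal.{0}} (ht : t < τ.ord)
    (h1 : ∀ r ∈ M ∩ UY σ Y ∩ Co κ τ, t ≤ r →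
      ssup (M ∩ UY σ Y ∩ Iio r) = crho τ F (ssup (M ∩ UY σ Y)) r)
    (h2 : ∀ r ∈ M' ∩ UY σ Y ∩ Co κ τ, t ≤ r →
      ssup (M' ∩ UY σ Y ∩ Iio r) = crho τ F (ssup (M' ∩ UY σ Y)) r)
    (hlow : M ∩ (UY σ Y ∩ Iio t) = M' ∩ (UY σ Y ∩ Iio t)) :
    M ∩ (UY σ Y ∩ Iio τ.ord) = M' ∩ (UY σ Y ∩ Iio τ.ord) := by
  have key : ∀ α : Ordinal.{0}, α < τ.ord → α ∈ UY σ Y → (α ∈ M ↔ α ∈ M') := by
    intro α
    induction α using WellFoundedLT.induction with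
    | ind α ih =>
      intro hατ hαY
      have hmin : ∀ γ < α, γ ∈ UY σ Y → (γ ∈ M ↔ γ ∈ M') :=
        fun γ hγ hγY => ih γ hγ (hγ.trans hατ) hγY
      rcases lt_or_ge α t with hlt | hge
      · constructor
        · intro hα
          have h3 : α ∈ M ∩ (UY σ Y ∩ Iio t) := ⟨hα, hαY, hlt⟩
          rw [hlow] at h3
          exact h3.1
        · intro hα
          have h3 : α ∈ M' ∩ (UY σ Y ∩ Iio t) := ⟨hα, hαY, hlt⟩
          rw [← hlow] at h3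
          exact h3.1
      · constructor
        · intro hα
          by_contra hα'
          exact T.core hM hM' hρ hτρ hge h1 h2 hατ ⟨hα, hαY⟩ hα' hmin
        · intro hα
          by_contra hα'
          exact T.core hM' hM hρ.symm (hρ ▸ hτρ) hge h2 h1 hατ ⟨hα, hαY⟩ hα'
            (fun γ hγ hγY => (hmin γ hγ hγY).symm)
  ext α
  constructor
  · rintro ⟨h3, h4, h5⟩
    exact ⟨(key α h5 h4).1 h3, h4, h5⟩
  · rintro ⟨h3, h4, h5⟩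
    exact ⟨(key α h5 h4).2 h3, h4, h5⟩

end Pool.Agent.STW
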