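import Pool.Agent.STW.Fodor

/-!
Silver's theorem in the form needed here (helper77): if `λ` is singular of uncountable cofinality
`θ ≤ χ`, `2 ^ χ < λ` and `τ ^ χ ≤ τ⁺` for all `τ ∈ [2 ^ χ, λ)`, then `λ ^ θ ≤ λ⁺`.
-/

open Cardinal Ordinal Order Set Filter

namespace Pool.Agent.STW

open Pool.Agent.STP

/-- a continuous sequence of ordinals which is cofinal in `lam`, and the standing hypotheses -/
structure Ladder (lam θ χ : Cardinal.{0}) (e s : Ordinal.{0} → Ordinal.{0}) : Prop where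
  reg : θ.IsRegular
  unc : ℵ₀ < θ
  le : θ ≤ χ
  lt : 2 ^ χ < lam
  lim : ∀ τ < lam, succ τ < lam
  pow : ∀ τ, 2 ^ χ ≤ τ → τ < lam → τ ^ χ ≤ succ τ
  e_lt : ∀ i < θ.ord, e i < lam.ord
  e_ge : ∀ i, (2 ^ χ : Cardinal.{0}).ord ≤ e i
  s_eq : ∀ i, s i = ssup (e '' Iio i)
  s_lt : ∀ i < θ.ord, s i < lam.ord
  cofinal : ∀ γ < lam.ord, ∃ i < θ.ord, γ < s i

section
variable {lam θ χ : Cardinal.{0}} {e s : Ordinal.{0} → Ordinal.{0}}

theorem Ladder.lt_s (L : Ladder lam θ χ e s) {γ i : Ordinal.{0}} (h : γ < s i) :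
    ∃ j < i, γ ≤ e j := by
  rw [L.s_eq] at h
  obtain ⟨_, ⟨j, hj, rfl⟩, h1⟩ := (lt_ssup_iff (small_image _ _)).1 h
  exact ⟨j, hj, h1⟩

theorem Ladder.s_mono (L : Ladder lam θ χ e s) {i j : Ordinal.{0}} (h : i ≤ j) : s i ≤ s j := by
  rw [L.s_eq, L.s_eq]
  exact ssup_mono (small_image _ _) (image_mono (Iio_subset_Iio h))

theorem Ladder.ord_le (L : Ladder lam θ χ e s) {i : Ordinal.{0}} (h : 0 < i) :
    (max (2 ^ χ) (s i).card).ord ≤ s i := by
  rcases max_cases (2 ^ χ) (s i).card with ⟨h1, _⟩ | ⟨h1, _⟩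
  · rw [h1]
    have h2 : e 0 < s i := by
      rw [L.s_eq]
      exact lt_ssup (small_image _ _) ⟨0, h, rfl⟩
    exact (L.e_ge 0).trans h2.le
  · rw [h1]
    exact ord_card_le _

theorem Ladder.aleph0_le (L : Ladder lam θ χ e s) : ℵ₀ ≤ χ := L.unc.le.trans L.le

theorem Ladder.aleph0_le_pow (L : Ladder lam θ χ e s) : ℵ₀ ≤ 2 ^ χ :=
  L.aleph0_le.trans (cantor χ).le

theorem Ladder.cof (L : Ladder lam θ χ e s) : ℵ₀ < θ.ord.cof := by
  rw [L.reg.cof_ord]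
  exact L.unc

/-- few functions into a small ordinal -/
theorem Ladder.mk_fun (L : Ladder lam θ χ e s) {ε : Ordinal.{0}} {τ : Cardinal.{0}}
    (hτ : 2 ^ χ ≤ τ) (hτ' : τ < lam) (h : ε.card ≤ τ) :
    #(Iio θ.ord → Option (Iio ε)) ≤ up (succ τ) := by
  have h0 : ℵ₀ ≤ τ := L.aleph0_le_pow.trans hτ
  have h1 : #(Iio θ.ord → Option (Iio ε)) = (up ε.card + 1) ^ up θ := by
    rw [← Cardinal.power_def, Cardinal.mk_option, Cardinal.mk_Iio_ordinal, mk_Iio_ord]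
  rw [h1]
  have h2 : up ε.card + 1 ≤ up τ := by
    have h3 : ε.card + 1 ≤ τ := by
      refine (add_le_add_left h 1).trans ?_
      rw [Cardinal.add_one_eq h0]
    have h4 : up (ε.card + 1) ≤ up τ := Cardinal.lift_le.2 h3
    rwa [up, Cardinal.lift_add, Cardinal.lift_one] at h4
  calc (up ε.card + 1) ^ up θ ≤ up τ ^ up θ := Cardinal.power_le_power_right h2
    _ = up (τ ^ θ) := by rw [up, up, up, Cardinal.lift_power]
    _ ≤ up (τ ^ χ) := Cardinal.lift_le.2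
        (Cardinal.power_le_power_left (Cardinal.aleph0_pos.trans_le h0).ne' L.le)
    _ ≤ up (succ τ) := Cardinal.lift_le.2 (L.pow τ hτ hτ')

variable {X : Type 1} {f : X → Ordinal.{0} → Ordinal.{0}}

/-- Lemma 1: a family of almost disjoint functions each of which is bounded by `g₀` on a stationary
set has at most `lam` members. -/
theorem Ladder.lemma1 (L : Ladder lam θ χ e s)
    (had : ∀ g g' : X, g ≠ g' → ∃ i₀ < θ.ord, ∀ i, i₀ ≤ i → i < θ.ord → f g i ≠ f g' i)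
    {g₀ : Ordinal.{0} → Ordinal.{0}}
    (hg₀ : ∀ i < θ.ord, g₀ i < (succ (max (2 ^ χ) (s i).card)).ord) :
    #{g : X | IsStat {i | f g i ≤ g₀ i} θ.ord} ≤ up lam := by
  classical
  obtain ⟨z, hz⟩ := exists_isZ
  have h0 := L.cof
  have hpos : (0 : Ordinal.{0}) < θ.ord := (isSuccLimit_ord L.reg.aleph0_le).bot_lt
  have hv : ∀ g : X, ∀ i : Ordinal.{0}, ∃ j, 0 < i → i < θ.ord → f g i ≤ g₀ i →
      j < i ∧ z (g₀ i + 1) (f g i) ≤ e j := by
    intro g i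
    by_cases h : 0 < i ∧ i < θ.ord ∧ f g i ≤ g₀ i
    · obtain ⟨h1, h2, h3⟩ := h
      have h4 := hz.lt (g₀ i + 1) (f g i) (lt_add_one_iff.2 h3)
      have h5 : (g₀ i + 1).card ≤ max (2 ^ χ) (s i).card := by
        apply card_le_of_lt_succ_ord
        have h6 : IsSuccLimit (succ (max (2 ^ χ) (s i).card)).ord :=
          isSuccLimit_ord ((L.aleph0_le_pow.trans (le_max_left _ _)).trans (le_succ _))
        exact h6.add_one_lt (hg₀ i h2)
      have h6 : z (g₀ i + 1) (f g i) < s i :=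
        h4.trans_le ((ord_le_ord.2 h5).trans (L.ord_le h1))
      obtain ⟨j, hj, h7⟩ := L.lt_s h6
      exact ⟨j, fun _ _ _ => ⟨hj, h7⟩⟩
    · exact ⟨0, fun h1 h2 h3 => absurd ⟨h1, h2, h3⟩ h⟩
  choose h hh using hv
  let T : X → Ordinal.{0} → Set Ordinal.{0} := fun g j =>
    {i | i ∈ ({i | f g i ≤ g₀ i} ∩ Ioo 0 θ.ord : Set Ordinal.{0}) ∧ h g i = j}
  have hcov : {g : X | IsStat {i | f g i ≤ g₀ i} θ.ord} ⊆
      ⋃ j : Iio θ.ord, {g : X | IsStat (T g j.1) θ.ord} := by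
    intro g hg
    have hS := IsStat.inter_club h0 hg (club_Ioo h0 hpos)
    obtain ⟨j, hj, h1⟩ := fodor L.reg L.unc hS (f := h g)
      (fun i hi _ hi' => (hh g i hi.2.1 hi' hi.1).1)
    exact mem_iUnion.2 ⟨⟨j, hj⟩, h1⟩
  have hone : ∀ j : Iio θ.ord, #{g : X | IsStat (T g j.1) θ.ord} ≤ up lam := by
    intro j
    have hj : j.1 < θ.ord := j.2
    have hej := L.e_lt j.1 hj
    have hτ1 : 2 ^ χ ≤ (e j.1 + 1).card := by
      have h1 := Ordinal.card_le_card ((L.e_ge j.1).trans (lt_add_one (e j.1)).le)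
      rwa [card_ord] at h1
    have hlam0 : IsSuccLimit lam.ord :=
      isSuccLimit_ord (L.aleph0_le_pow.trans L.lt.le)
    have hτ2 : (e j.1 + 1).card < lam := lt_ord.1 (hlam0.add_one_lt hej)
    have h1 := L.mk_fun hτ1 hτ2 (ε := e j.1 + 1) le_rfl
    refine le_trans ?_ (h1.trans (Cardinal.lift_le.2 (L.lim _ hτ2).le))
    refine Cardinal.mk_le_of_injective (f := fun g => fun i : Iio θ.ord =>
      if hi : i.1 ∈ T g.1 j.1 then some ⟨z (g₀ i.1 + 1) (f g.1 i.1), by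
        have h2 := hh g.1 i.1 hi.1.2.1 i.2 hi.1.1
        rw [hi.2] at h2
        exact lt_add_one_iff.2 h2.2⟩ else none) ?_
    intro g g' hgg
    by_contra hne
    have hne' : g.1 ≠ g'.1 := fun h' => hne (Subtype.ext h')
    obtain ⟨i₀, hi₀, h2⟩ := had _ _ hne'
    obtain ⟨i, hiT, hi1, hi2⟩ := IsStat.unb h0 g.2 hi₀
    have h3 := congrFun hgg ⟨i, hi2⟩
    simp only [dif_pos hiT] at h3
    by_cases hiT' : i ∈ T g'.1 j.1
    · simp only [dif_pos hiT'] at h3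
      have h4 : z (g₀ i + 1) (f g.1 i) = z (g₀ i + 1) (f g'.1 i) :=
        congrArg Subtype.val (Option.some.inj h3)
      exact h2 i hi1.le hi2 (hz.inj _ _ _ (lt_add_one_iff.2 hiT.1.1)
        (lt_add_one_iff.2 hiT'.1.1) h4)
    · simp only [dif_neg hiT'] at h3
      exact absurd h3 (by simp)
  refine (Cardinal.mk_le_mk_of_subset hcov).trans ((Cardinal.mk_iUnion_le _).trans ?_)
  have hlam : ℵ₀ ≤ up lam := by
    rw [← Cardinal.lift_aleph0.{1, 0}]
    exact Cardinal.lift_le.2 (L.aleph0_le_pow.trans L.lt.le)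
  calc #(Iio θ.ord) * ⨆ j : Iio θ.ord, #{g : X | IsStat (T g j.1) θ.ord}
      ≤ up lam * up lam := by
        refine mul_le_mul' ?_ (ciSup_le' hone)
        rw [mk_Iio_ord]
        exact Cardinal.lift_le.2 ((L.le.trans (cantor χ).le).trans L.lt.le)
    _ = up lam := Cardinal.mul_eq_self hlam

/-- Lemma 2: a family of almost disjoint functions below `(max (2 ^ χ) |s i|)⁺` has at most `lam⁺`
members. -/
theorem Ladder.lemma2 (L : Ladder lam θ χ e s)
    (had : ∀ g g' : X, g ≠ g' → ∃ i₀ < θ.ord, ∀ i, i₀ ≤ i → i < θ.ord → f g i ≠ f g' i)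
    (hf : ∀ g, ∀ i < θ.ord, f g i < (succ (max (2 ^ χ) (s i).card)).ord) :
    #X ≤ up (succ lam) := by
  classical
  by_contra hcon
  rw [not_le] at hcon
  have h0 := L.cof
  have hlam : ℵ₀ ≤ up (succ lam) := by
    rw [← Cardinal.lift_aleph0.{1, 0}]
    exact Cardinal.lift_le.2 ((L.aleph0_le_pow.trans L.lt.le).trans (le_succ _))
  obtain ⟨Y, hY⟩ := Cardinal.le_mk_iff_exists_set.1 hcon.le
  have h1 : #(⋃ g₀ : Y, {g : X | IsStat {i | f g i ≤ f g₀.1 i} θ.ord} : Set X) ≤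
      up (succ lam) := by
    refine (Cardinal.mk_iUnion_le _).trans ?_
    calc #Y * ⨆ g₀ : Y, #{g : X | IsStat {i | f g i ≤ f g₀.1 i} θ.ord}
        ≤ up (succ lam) * up (succ lam) := by
          refine mul_le_mul' hY.le (ciSup_le' fun g₀ => ?_)
          exact (L.lemma1 had (hf g₀.1)).trans (Cardinal.lift_le.2 (le_succ _))
      _ = up (succ lam) := Cardinal.mul_eq_self hlam
  have h2 : ∃ g : X, g ∉ (⋃ g₀ : Y, {g : X | IsStat {i | f g i ≤ f g₀.1 i} θ.ord} : Set X) := by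
    by_contra h3
    push Not at h3
    rw [eq_univ_of_forall h3, Cardinal.mk_univ] at h1
    exact absurd h1 (not_le.2 hcon)
  obtain ⟨g, hg⟩ := h2
  have h3 : Y ⊆ {g' : X | IsStat {i | f g' i ≤ f g i} θ.ord} := by
    intro g₀ hg₀
    have h4 : ¬ IsStat {i | f g i ≤ f g₀ i} θ.ord := fun h5 =>
      hg (mem_iUnion.2 ⟨⟨g₀, hg₀⟩, h5⟩)
    obtain ⟨E, hE1, hE2⟩ := not_isStat h4
    intro E' hE'
    obtain ⟨α, hα, _⟩ := (hE1.inter h0 hE').unb 0 (isSuccLimit_ord L.reg.aleph0_le).bot_lt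
    have h6 : ¬ f g α ≤ f g₀ α := hE2 α hα.1
    exact ⟨α, (not_le.1 h6).le, hα.2⟩
  have h4 := (Cardinal.mk_le_mk_of_subset h3).trans (L.lemma1 had (hf g))
  rw [hY] at h4
  exact absurd (Cardinal.lift_le.1 h4) (not_le.2 (lt_succ lam))

end

/-- the ladder exists -/
theorem exists_ladder {lam θ χ : Cardinal.{0}} (hθ : lam.ord.cof = θ) (hθ0 : ℵ₀ < θ)
    (hθχ : θ ≤ χ) (hχ : 2 ^ χ < lam) (H : ∀ τ, 2 ^ χ ≤ τ → τ < lam → τ ^ χ ≤ succ τ) :
    ∃ e s, Ladder lam θ χ e s := by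
  classical
  have hreg : θ.IsRegular := ⟨hθ0.le, by rw [← hθ, Ordinal.cof_ord_cof]⟩
  have hχlam : χ < lam := (cantor χ).trans hχ
  have hlam0 : ℵ₀ ≤ lam := hθ0.le.trans (hθχ.trans hχlam.le)
  have hlim : ∀ τ < lam, succ τ < lam := by
    intro τ hτ
    by_contra hcon
    rw [not_lt] at hcon
    have h1 : lam = succ τ := le_antisymm hcon (succ_le_of_lt hτ)
    have h2 : ℵ₀ ≤ τ := by
      by_contra h3
      rw [not_le] at h3
      have h4 : succ τ < ℵ₀ := isSuccLimit_aleph0.succ_lt h3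
      rw [← h1] at h4
      exact absurd hlam0 (not_le.2 h4)
    have h3 : lam.IsRegular := by
      rw [h1]
      exact isRegular_succ h2
    rw [h3.cof_ord] at hθ
    rw [← hθ] at hθχ
    exact absurd hχlam (not_lt.2 hθχ)
  obtain ⟨E, hE1, _, hE3⟩ := fund (δ := lam.ord) hθ
  have hθlim : IsSuccLimit θ.ord := isSuccLimit_ord hreg.aleph0_le
  refine ⟨fun i => max (E i) (2 ^ χ : Cardinal.{0}).ord,
    fun i => ssup ((fun i => max (E i) (2 ^ χ : Cardinal.{0}).ord) '' Iio i),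
    ⟨hreg, hθ0, hθχ, hχ, hlim, H, ?_, ?_, ?_, ?_, ?_⟩⟩
  · intro i hi
    exact max_lt (hE1 i hi) (ord_lt_ord.2 hχ)
  · intro i
    exact le_max_right _ _
  · intro i
    rfl
  · intro i hi
    apply ssup_lt_cof
    · refine Cardinal.mk_image_le.trans_lt ?_
      rw [Cardinal.mk_Iio_ordinal, hθ]
      exact Cardinal.lift_lt.2 (lt_ord.1 hi)
    · rintro _ ⟨j, hj, rfl⟩
      exact max_lt (hE1 j ((mem_Iio.1 hj).trans hi)) (ord_lt_ord.2 hχ)
  · intro γ hγ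
    obtain ⟨i, hi, h1⟩ := hE3 γ hγ
    refine ⟨i + 1, hθlim.add_one_lt hi, ?_⟩
    exact (h1.trans (le_max_left _ _)).trans_lt
      (lt_ssup (small_image _ _) ⟨i, lt_add_one i, rfl⟩)

/-- SILVER'S THEOREM (local form). -/
theorem silver_aux {lam θ χ : Cardinal.{0}} (hθ : lam.ord.cof = θ) (hθ0 : ℵ₀ < θ) (hθχ : θ ≤ χ)
    (hχ : 2 ^ χ < lam) (H : ∀ τ, 2 ^ χ ≤ τ → τ < lam → τ ^ χ ≤ succ τ) :
    lam ^ θ ≤ succ lam := by
  classical
  obtain ⟨e, s, L⟩ := exists_ladder hθ hθ0 hθχ hχ H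
  have hτlam : ∀ i < θ.ord, max (2 ^ χ) (s i).card < lam := fun i hi =>
    max_lt hχ (lt_ord.1 (L.s_lt i hi))
  -- the codes
  have hcode : ∀ i : Ordinal.{0}, ∃ c : (Iio θ.ord → Option (Iio (s i))) → Ordinal.{0},
      i < θ.ord → (∀ p, c p < (succ (max (2 ^ χ) (s i).card)).ord) ∧ Function.Injective c := by
    intro i
    by_cases hi : i < θ.ord
    · have h1 := L.mk_fun (le_max_left _ _) (hτlam i hi) (le_max_right (2 ^ χ) (s i).card)
      rw [← mk_Iio_ord] at h1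
      obtain ⟨c⟩ := h1
      exact ⟨fun p => (c p).1, fun _ => ⟨fun p => (c p).2,
        fun p p' h => c.injective (Subtype.ext h)⟩⟩
    · exact ⟨fun _ => 0, fun h' => absurd h' hi⟩
  choose c hc using hcode
  let P : (Iio θ.ord → Iio lam.ord) → (i : Ordinal.{0}) → (Iio θ.ord → Option (Iio (s i))) :=
    fun g i j => if h : (g j).1 < s i then some ⟨(g j).1, h⟩ else none
  have key := L.lemma2 (X := Iio θ.ord → Iio lam.ord) (f := fun g i => c i (P g i)) ?_ ?_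
  · have h1 : #(Iio θ.ord → Iio lam.ord) = up (lam ^ θ) := by
      rw [← Cardinal.power_def, mk_Iio_ord, mk_Iio_ord, up, up, up, Cardinal.lift_power]
    rw [h1] at key
    exact Cardinal.lift_le.1 key
  · intro g g' hgg
    obtain ⟨j, hj⟩ := Function.ne_iff.1 hgg
    have hj' : (g j).1 ≠ (g' j).1 := fun h => hj (Subtype.ext h)
    obtain ⟨i₀, hi₀, h1⟩ := L.cofinal (max (g j).1 (g' j).1) (max_lt (g j).2 (g' j).2)
    refine ⟨i₀, hi₀, fun i hi hiθ heq => ?_⟩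
    have h2 := congrFun ((hc i hiθ).2 heq) j
    have h3 : (g j).1 < s i := ((le_max_left _ _).trans_lt h1).trans_le (L.s_mono hi)
    have h4 : (g' j).1 < s i := ((le_max_right _ _).trans_lt h1).trans_le (L.s_mono hi)
    simp only [P, dif_pos h3, dif_pos h4] at h2
    have h5 : (⟨(g j).1, h3⟩ : Iio (s i)) = ⟨(g' j).1, h4⟩ := Option.some.inj h2
    exact hj' (congrArg (fun w : Iio (s i) => (w : Ordinal.{0})) h5)
  · intro g i hi
    exact (hc i hi).1 _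

/-- SILVER'S THEOREM (the form of the page). -/
theorem silver {χ lam : Cardinal.{0}} (_hχ : ℵ₀ ≤ χ) (hlt : 2 ^ χ < lam)
    (_hlim : ∀ b < lam, succ b < lam) (hcof : ℵ₀ < lam.ord.cof) (hcof' : lam.ord.cof ≤ χ)
    (hP : ∀ τ, 2 ^ χ ≤ τ → τ < lam → τ ^ χ ≤ succ τ) : lam ^ lam.ord.cof ≤ succ lam :=
  silver_aux rfl hcof hcof' hlt hP

end Pool.Agent.STW
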