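import Pool.Agent.STW.Facts

/-!
(3d) of the text: the threshold.
-/

open Cardinal Ordinal Order Set Filter

namespace Pool.Agent.STW

open Pool.Agent.STP

variable {κ χ ν₀ lam τ σ : Cardinal.{0}} {z e F : Ordinal.{0} → Ordinal.{0} → Ordinal.{0}}
  {Y : Ordinal.{0} → Set Ordinal.{0}} {M M' : Set Ordinal.{0}}

/-- the minimum in the definition of `crho` is attained -/
theorem crho_spec {ρ : Ordinal.{0}} (h : ∃ C, IsClubIn C ρ) (hρ : τ.ord < ρ) (r : Ordinal.{0}) :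
    ∃ C, IsClubIn C ρ ∧ (∀ α ∈ C, τ.ord ≤ α) ∧ crho τ F ρ r = ssup ((fun ξ => F ξ r) '' C) := by
  obtain ⟨C, hC⟩ := h
  have hne : ({x | ∃ C, IsClubIn C ρ ∧ (∀ α ∈ C, τ.ord ≤ α) ∧
      x = ssup ((fun ξ => F ξ r) '' C)} : Set Ordinal.{0}).Nonempty := by
    refine ⟨_, C ∩ Ici τ.ord, ⟨fun α hα => hC.lt α hα.1, fun γ hγ => ?_, fun β h0 hβ h1 => ?_⟩,
      fun α hα => hα.2, rfl⟩
    · obtain ⟨ε, h1, h2⟩ := hC.unb (max γ τ.ord) (max_lt hγ hρ)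
      exact ⟨ε, ⟨h1, (le_max_right _ _).trans h2.le⟩, (le_max_left _ _).trans_lt h2⟩
    · refine ⟨hC.closed β h0 hβ fun γ hγ => ?_, ?_⟩
      · obtain ⟨ε, h2, h3⟩ := h1 γ hγ
        exact ⟨ε, h2.1, h3⟩
      · obtain ⟨ε, h2, h3, h4⟩ := h1 0 h0
        exact (mem_Ici.1 h2.2).trans h4.le
  exact csInf_mem hne

theorem crho_le {ρ : Ordinal.{0}} {C : Set Ordinal.{0}} (h : IsClubIn C ρ)
    (hC : ∀ α ∈ C, τ.ord ≤ α) (r : Ordinal.{0}) :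
    crho τ F ρ r ≤ ssup ((fun ξ => F ξ r) '' C) := by
  unfold crho
  exact csInf_le' ⟨C, h, hC, rfl⟩

private theorem t3_Ioo {o γ : Ordinal.{0}} (ho : ℵ₀ < o.cof) (hγ : γ < o) :
    IsClubIn (Ioo γ o) o := by
  refine ⟨fun α h => h.2, fun ζ hζ => ?_, fun β h0 hβ h => ⟨?_, hβ⟩⟩
  · have h1 : max γ ζ < o := max_lt hγ hζ
    refine ⟨max γ ζ + 1, ⟨?_, one_add_lt ho h1⟩, ?_⟩
    · exact (le_max_left _ _).trans_lt (lt_add_one _)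
    · exact (le_max_right _ _).trans_lt (lt_add_one _)
  · obtain ⟨ε, h1, h2, h3⟩ := h 0 h0
    exact h1.1.trans h3

/-- `≥` of the threshold -/
theorem SitY.thresh_ge (T : SitY κ χ ν₀ lam τ σ z e F Y) (hM : Closed κ ν₀ lam z e F M)
    (h : Unb τ.ord (M ∩ UY σ Y ∩ Co κ τ)) {r : Ordinal.{0}} (hr : r ∈ M ∩ UY σ Y ∩ Co κ τ) :
    crho τ F (ssup (M ∩ UY σ Y)) r ≤ ssup (M ∩ UY σ Y ∩ Iio r) := by
  obtain ⟨⟨C, hC1, hC2⟩, hcof, hlt⟩ := T.rho hM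
  have hτ := T.rho_gt hM h
  have h0 : ℵ₀ < (ssup (M ∩ UY σ Y)).cof := by
    rw [hcof]
    exact T.unc
  have hC3 := hC2.inter h0 (t3_Ioo h0 hτ)
  refine (crho_le hC3 (fun α hα => hα.2.1.le) r).trans ?_
  refine ssup_mono (small_Iio_inter _ _) ?_
  rintro _ ⟨ξ, hξ, rfl⟩
  have h1 := hC1 hξ.1
  have h2 : ξ < (succ τ).ord := (hC2.lt ξ hξ.1).trans hlt
  refine ⟨⟨?_, ?_⟩, ?_⟩
  · exact hM.Fm τ T.ss ξ h1.1 hξ.2.1.le h2 r hr.1.1 hr.2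
  · exact T.UY_cl.2.2.2.1 ξ h1.2 hξ.2.1.le r hr.1.2 hr.2
  · exact (T.data.us τ T.ss).lt ξ hξ.2.1.le h2 r hr.2

/-- `≤` of the threshold -/
theorem SitY.thresh_le (T : SitY κ χ ν₀ lam τ σ z e F Y) (hM : Closed κ ν₀ lam z e F M)
    (h : Unb τ.ord (M ∩ UY σ Y ∩ Co κ τ)) :
    ∀ᶠ r in tl τ.ord, r ∈ M ∩ UY σ Y ∩ Co κ τ →
      ssup (M ∩ UY σ Y ∩ Iio r) ≤ crho τ F (ssup (M ∩ UY σ Y)) r := by
  classical
  obtain ⟨⟨C₀, hC1, hC2⟩, hcof, hlt⟩ := T.rho hM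
  have hτ := T.rho_gt hM h
  have h0 : ℵ₀ < (ssup (M ∩ UY σ Y)).cof := by
    rw [hcof]
    exact T.unc
  have hpos := T.ss.pos
  have hadd := T.ss.add_one_lt T.data.setup
  have hsm : Small.{0} ↥(M ∩ UY σ Y) :=
    small_of_mk_le ((Cardinal.mk_le_mk_of_subset inter_subset_right).trans T.UY_small.le)
  by_contra hcon
  have hcon' : Unb τ.ord {r | r ∈ M ∩ UY σ Y ∩ Co κ τ ∧
      crho τ F (ssup (M ∩ UY σ Y)) r < ssup (M ∩ UY σ Y ∩ Iio r)} := by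
    rw [unb_iff hpos hadd]
    intro h1
    apply hcon
    refine h1.mono fun r hr h2 => ?_
    by_contra h3
    exact hr ⟨h2, not_le.1 h3⟩
  obtain ⟨B, hB1, hB2, hB3⟩ := T.cofinal_sub hcon'
  have hη : ∀ r : B, ∃ η, η ∈ M ∩ UY σ Y ∧ η < r.1 ∧
      crho τ F (ssup (M ∩ UY σ Y)) r.1 ≤ η := by
    intro r
    obtain ⟨η, h1, h2⟩ := (lt_ssup_iff (small_Iio_inter _ _)).1 (hB1 r.2).2
    exact ⟨η, h1.1, h1.2, h2⟩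
  choose η hη1 hη2 hη3 using hη
  choose C hCa hCb hCc using fun r : B => crho_spec (F := F) ⟨C₀, hC2⟩ hτ r.1
  have hBcof : #B < up (ssup (M ∩ UY σ Y)).cof := by
    rw [hcof]
    exact hB2
  have hint := club_iInter h0 hBcof hCa
  -- one `i`
  have hup : ℵ₀ ≤ up σ := by
    rw [← Cardinal.lift_aleph0.{1, 0}]
    exact Cardinal.lift_le.2 T.unc.le
  obtain ⟨i, hi, hiY⟩ := T.one (A := B ∪ range η) (by
    rintro x (hx | ⟨r, rfl⟩)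
    · exact (hB1 hx).1.1.2
    · exact (hη1 r).2) ((Cardinal.mk_union_le _ _).trans_lt
      (Cardinal.add_lt_of_lt hup hB2 (mk_range_le.trans_lt hB2)))
  have hu : Unb τ.ord (M ∩ Y i ∩ Co κ τ) := by
    refine hB3.mono fun r hr => ?_
    exact ⟨⟨(hB1 hr).1.1.1, hiY (Or.inl hr)⟩, (hB1 hr).1.2⟩
  obtain ⟨ξ₀, hξ1, hξ2, hξ3, hξ4⟩ := T.xi_mem hM hi hu
  obtain ⟨ξ, hξC, hξ5⟩ := hint.unb ξ₀ (lt_ssup hsm hξ1)
  have hξ6 : ξ < (succ τ).ord := hξC.1.trans hlt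
  have hinc := (T.data.us τ T.ss).inc ξ₀ ξ hξ2 hξ5 hξ6
  obtain ⟨r, hr, hr1, hr2⟩ := hB3.exists hpos hadd (hξ4.and hinc)
  have h3 : r ∈ M ∩ Y i ∩ Co κ τ := ⟨⟨(hB1 hr).1.1.1, hiY (Or.inl hr)⟩, (hB1 hr).1.2⟩
  have h4 : η ⟨r, hr⟩ < ssup (M ∩ Y i ∩ Iio r) :=
    lt_ssup (small_Iio_inter _ _) ⟨⟨(hη1 ⟨r, hr⟩).1, hiY (Or.inr ⟨⟨r, hr⟩, rfl⟩)⟩, hη2 ⟨r, hr⟩⟩
  have h5 : η ⟨r, hr⟩ < F ξ r := (h4.trans (hr1 h3)).trans (hr2 h3.2)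
  have h6 : F ξ r < crho τ F (ssup (M ∩ UY σ Y)) r := by
    rw [hCc ⟨r, hr⟩]
    have hs : Small.{0} (C ⟨r, hr⟩) := by
      refine small_subset (s := Iio (ssup (M ∩ UY σ Y))) ?_
      exact fun x hx => (hCa ⟨r, hr⟩).lt x hx
    have hs' : Small.{0} ((fun ξ => F ξ r) '' C ⟨r, hr⟩) := small_image _ _
    exact lt_ssup hs' ⟨ξ, hξC.2 ⟨r, hr⟩, rfl⟩
  exact absurd (h5.trans h6) (not_lt.2 (hη3 ⟨r, hr⟩))

theorem SitY.thresh (T : SitY κ χ ν₀ lam τ σ z e F Y) (hM : Closed κ ν₀ lam z e F M)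
    (h : Unb τ.ord (M ∩ UY σ Y ∩ Co κ τ)) :
    ∃ t < τ.ord, ∀ r ∈ M ∩ UY σ Y ∩ Co κ τ, t ≤ r →
      ssup (M ∩ UY σ Y ∩ Iio r) = crho τ F (ssup (M ∩ UY σ Y)) r := by
  obtain ⟨t, ht, h1⟩ := (tl_iff T.ss.pos).1 (T.thresh_le hM h)
  exact ⟨t, ht, fun r hr htr => le_antisymm (h1 r htr hr.2.2.2 hr) (T.thresh_ge hM h hr)⟩

end Pool.Agent.STW
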