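import Pool.Agent.STW.Thresh
import Pool.Agent.STW.Nest

/-!
(3) of the text: few traces.
-/

open Cardinal Ordinal Order Set Filter

namespace Pool.Agent.STW

open Pool.Agent.STP

variable {κ χ ν₀ lam τ σ : Cardinal.{0}} {z e F : Ordinal.{0} → Ordinal.{0} → Ordinal.{0}}
  {Y : Ordinal.{0} → Set Ordinal.{0}}

theorem Few.sub {C : Set Ordinal.{0} → Prop} {y y' : Set Ordinal.{0}} (h : Few κ C y')
    (hy : y ⊆ y') : Few κ C y := by
  unfold Few at h ⊢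
  refine lt_of_le_of_lt ?_ h
  have h1 : {t : Set Ordinal.{0} | ∃ M, C M ∧ t = M ∩ y} ⊆
      (fun t => t ∩ y) '' {t : Set Ordinal.{0} | ∃ M, C M ∧ t = M ∩ y'} := by
    rintro _ ⟨M, hM, rfl⟩
    refine ⟨M ∩ y', ⟨M, hM, rfl⟩, ?_⟩
    show M ∩ y' ∩ y = M ∩ y
    rw [inter_assoc, inter_eq_self_of_subset_right hy]
  exact (mk_le_mk_of_subset h1).trans mk_image_le

/-- a union of fewer than `κ` families of fewer than `κ` sets -/
theorem few_of_cover (hκ : κ.IsRegular) {I : Type 1} (hI : #I < up κ)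
    {A : Set (Set Ordinal.{0})} {B : I → Set (Set Ordinal.{0})} (h : ∀ i, #(B i) < up κ)
    (hA : ∀ t ∈ A, ∃ i, t ∈ B i) : #A < up κ := by
  have h1 : #(⋃ i, B i) < up κ :=
    (card_iUnion_lt_iff_forall_of_isRegular (up_isRegular hκ) hI).2 h
  have h2 : A ⊆ ⋃ i, B i := fun t ht => by
    obtain ⟨i, hi⟩ := hA t ht
    exact mem_iUnion.2 ⟨i, hi⟩
  exact (Cardinal.mk_le_mk_of_subset h2).trans_lt h1

theorem traces_low (D : Data κ χ ν₀ lam z e F) {y : Set Ordinal.{0}} (hy : y ⊆ Iio ν₀.ord) :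
    Few κ (Closed κ ν₀ lam z e F) y := by
  unfold Few
  have h1 : {t : Set Ordinal.{0} | ∃ M, Closed κ ν₀ lam z e F M ∧ t = M ∩ y} ⊆ {y} := by
    rintro t ⟨M, hM, rfl⟩
    exact inter_eq_right.2 fun α hα => hM.low α (hy hα)
  refine (Cardinal.mk_le_mk_of_subset h1).trans_lt ?_
  rw [Cardinal.mk_singleton]
  exact Cardinal.one_lt_aleph0.trans_le (up_isRegular D.setup.reg).aleph0_le

theorem traces_succ (D : Data κ χ ν₀ lam z e F) {b : Cardinal.{0}} (hb : ν₀ ≤ b)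
    (IH : ∀ y ⊆ Iio b.ord, #y < up κ → Few κ (Closed κ ν₀ lam z e F) y) :
    ∀ y ⊆ Iio (succ b).ord, #y < up κ → Few κ (Closed κ ν₀ lam z e F) y := by
  classical
  intro y hy hyc
  have S := D.setup
  obtain ⟨c₀, hc₀⟩ : ∃ c₀ : Cardinal.{0}, up c₀ = #y := Cardinal.mem_range_lift_of_le hyc.le
  set c : Cardinal.{0} := max c₀ ℵ₀ with hc
  have hcκ : c < κ := by
    refine max_lt ?_ S.unc
    rw [← hc₀] at hyc
    exact Cardinal.lift_lt.1 hyc
  have hyc' : #y ≤ up c := by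
    rw [← hc₀]
    exact Cardinal.lift_le.2 (le_max_left _ _)
  have hreg : (succ b).IsRegular := isRegular_succ (S.aleph0_le_ν₀.trans hb)
  have hI : #{ε : Ordinal.{0} | (∃ w : Set Ordinal.{0}, w ⊆ y ∧ ε = ssup w) ∧
      ε < (succ b).ord} < up κ := by
    refine lt_of_le_of_lt (Cardinal.mk_le_mk_of_subset ?_)
      ((mk_ssup_image_le (le_max_right c₀ ℵ₀) hyc').trans_lt (Cardinal.lift_lt.2 hcκ))
    exact fun ε h => h.1
  refine few_of_cover S.reg hI (B := fun ε =>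
    (fun s : Set Ordinal.{0} => {α | α ∈ y ∧ α < ε.1 ∧ z ε.1 α ∈ s}) ''
      {s | ∃ M, Closed κ ν₀ lam z e F M ∧ s = M ∩ (z ε.1 '' (y ∩ Iio ε.1))}) ?_ ?_
  · intro ε
    refine Cardinal.mk_image_le.trans_lt (IH _ ?_ ?_)
    · rintro _ ⟨α, hα, rfl⟩
      refine (D.isz.lt ε.1 α hα.2).trans_le (Cardinal.ord_le_ord.2 ?_)
      exact card_le_of_lt_succ_ord ε.2.2
    · exact Cardinal.mk_image_le.trans_lt
        ((Cardinal.mk_le_mk_of_subset inter_subset_left).trans_lt hyc)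
  · rintro t ⟨M, hM, rfl⟩
    have hws : Small.{0} ↥(M ∩ y) :=
      small_of_mk_le ((Cardinal.mk_le_mk_of_subset inter_subset_right).trans hyc')
    have hwc : #↥(M ∩ y) < up κ := (Cardinal.mk_le_mk_of_subset inter_subset_right).trans_lt hyc
    have hεM : ssup (M ∩ y) ∈ M := hM.supm _ inter_subset_left hwc
    have hκb : κ < succ b := (S.κ_lt.trans_le hb).trans (lt_succ b)
    have hεb : ssup (M ∩ y) < (succ b).ord :=
      ssup_lt_of_regular hreg (hwc.trans (Cardinal.lift_lt.2 hκb)) fun α hα => hy hα.2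
    refine ⟨⟨ssup (M ∩ y), ⟨_, inter_subset_right, rfl⟩, hεb⟩,
      M ∩ (z (ssup (M ∩ y)) '' (y ∩ Iio (ssup (M ∩ y)))), ⟨M, hM, rfl⟩, ?_⟩
    ext α
    constructor
    · rintro ⟨h1, h2, h3, -⟩
      exact ⟨(hM.zm _ hεM α h2).2 h3, h1⟩
    · intro h1
      have h2 : α < ssup (M ∩ y) := lt_ssup hws h1
      exact ⟨h1.2, h2, (hM.zm _ hεM α h2).1 h1.1, α, ⟨h1.2, h2⟩, rfl⟩

theorem traces_bdd (D : Data κ χ ν₀ lam z e F) (hτ : ν₀ < τ) (hlim : ∀ b < τ, succ b < τ)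
    (hcof : κ ≤ τ.ord.cof)
    (IH : ∀ b < τ, ∀ y ⊆ Iio b.ord, #y < up κ → Few κ (Closed κ ν₀ lam z e F) y) :
    ∀ y ⊆ Iio τ.ord, #y < up κ → Few κ (Closed κ ν₀ lam z e F) y := by
  intro y hy hc
  have h1 : ssup y < τ.ord := by
    refine ssup_lt_cof (hc.trans_le (Cardinal.lift_le.2 hcof)) ?_
    intro α hα
    exact hy hα
  have h2 : (ssup y).card < τ := card_lt_of_lt_ord h1
  refine IH _ (hlim _ h2) y ?_ hc
  intro α hα
  have h3 : ssup y < (succ (ssup y).card).ord := by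
    rw [Cardinal.lt_ord]
    exact lt_succ _
  exact (lt_ssup (small_of_mk_le hc.le) hα).trans h3

private theorem w6_up {κ : Cardinal.{0}} {X : Type 1} (h : #X < up κ) :
    ∃ c : Cardinal.{0}, c < κ ∧ #X = up c := by
  obtain ⟨c, hc⟩ := Cardinal.mem_range_lift_of_le h.le
  refine ⟨c, ?_, hc.symm⟩
  rw [← hc] at h
  exact Cardinal.lift_lt.1 h

/-- the count (3f) in the situation `SitY` -/
theorem SitY.count (T : SitY κ χ ν₀ lam τ σ z e F Y)
    (IH : ∀ b < τ, ∀ y ⊆ Iio b.ord, #y < up κ → Few κ (Closed κ ν₀ lam z e F) y) :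
    Few κ (Closed κ ν₀ lam z e F) (UY σ Y ∩ Iio τ.ord) := by
  classical
  have S := T.data.setup
  have hup : ℵ₀ ≤ up κ := by
    rw [← Cardinal.lift_aleph0.{1, 0}]
    exact Cardinal.lift_le.2 S.unc.le
  -- low traces
  have hlow : ∀ t < τ.ord, Few κ (Closed κ ν₀ lam z e F) (UY σ Y ∩ Iio t) := by
    intro t ht
    refine IH (succ t.card) (T.ss.limit _ (lt_ord.1 ht)) _ ?_ ?_
    · intro x hx
      refine (mem_Iio.1 hx.2).trans ?_
      exact Cardinal.lt_ord.2 (lt_succ _)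
    · exact (Cardinal.mk_le_mk_of_subset inter_subset_left).trans_lt T.UY_small
  have hcof := T.data.ise.cofinal τ.ord
  have het : ∀ i < τ.ord.cof.ord, e τ.ord i < τ.ord := T.data.ise.lt τ.ord
  -- the suprema
  let P : Set Ordinal.{0} := {x | ∃ w : Set Ordinal.{0}, w ⊆ UY σ Y ∧ x = ssup w}
  have hP : #P < up κ := by
    obtain ⟨c, hc, hc'⟩ := w6_up T.UY_small
    have h1 := mk_ssup_image_le (A := UY σ Y) (b := max c ℵ₀) (le_max_right _ _)
      (by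
        rw [hc']
        exact Cardinal.lift_le.2 (le_max_left _ _))
    exact h1.trans_lt (Cardinal.lift_lt.2 (max_lt hc S.unc))
  have hI : #(Iio τ.ord.cof.ord) < up κ := by
    rw [mk_Iio_ord]
    exact Cardinal.lift_lt.2 T.ss.cof
  let B : Iio τ.ord.cof.ord ⊕ (P × Iio τ.ord.cof.ord) → Set (Set Ordinal.{0}) := fun s =>
    match s with
    | Sum.inl i => {t | ∃ M, Closed κ ν₀ lam z e F M ∧ t = M ∩ (UY σ Y ∩ Iio (e τ.ord i.1))}
    | Sum.inr p => {t | ∃ M, Closed κ ν₀ lam z e F M ∧ Unb τ.ord (M ∩ UY σ Y ∩ Co κ τ) ∧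
        p.1.1 = ssup (M ∩ UY σ Y) ∧ (∀ r ∈ M ∩ UY σ Y ∩ Co κ τ, e τ.ord p.2.1 ≤ r →
          ssup (M ∩ UY σ Y ∩ Iio r) = crho τ F (ssup (M ∩ UY σ Y)) r) ∧
        t = M ∩ (UY σ Y ∩ Iio τ.ord)}
  refine few_of_cover S.reg (I := Iio τ.ord.cof.ord ⊕ (P × Iio τ.ord.cof.ord)) (B := B) ?_ ?_ ?_
  · rw [Cardinal.mk_sum, Cardinal.lift_id, Cardinal.lift_id, Cardinal.mk_prod,
      Cardinal.lift_id, Cardinal.lift_id]
    exact Cardinal.add_lt_of_lt hup hI (Cardinal.mul_lt_of_lt hup hP hI)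
  · rintro (i | p)
    · exact hlow _ (het i.1 i.2)
    · refine lt_of_le_of_lt ?_ (hlow _ (het p.2.1 p.2.2))
      have hmap : ∀ t ∈ B (Sum.inr p), t ∩ Iio (e τ.ord p.2.1) ∈
          {t | ∃ M, Closed κ ν₀ lam z e F M ∧ t = M ∩ (UY σ Y ∩ Iio (e τ.ord p.2.1))} := by
        rintro t ⟨M, hM, _, _, _, rfl⟩
        refine ⟨M, hM, ?_⟩
        ext x
        constructor
        · rintro ⟨⟨h1, h2, _⟩, h3⟩
          exact ⟨h1, h2, h3⟩
        · rintro ⟨h1, h2, h3⟩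
          exact ⟨⟨h1, h2, (mem_Iio.1 h3).trans (het p.2.1 p.2.2)⟩, h3⟩
      refine Cardinal.mk_le_of_injective (f := fun t => ⟨t.1 ∩ Iio (e τ.ord p.2.1),
        hmap t.1 t.2⟩) ?_
      rintro ⟨t, ht⟩ ⟨t', ht'⟩ heq
      have heq' : t ∩ Iio (e τ.ord p.2.1) = t' ∩ Iio (e τ.ord p.2.1) :=
        congrArg (fun w : {t : Set Ordinal.{0} | ∃ M, Closed κ ν₀ lam z e F M ∧
          t = M ∩ (UY σ Y ∩ Iio (e τ.ord p.2.1))} => (w : Set Ordinal.{0})) heq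
      obtain ⟨M, hM, hB, hρ, hth, rfl⟩ := ht
      obtain ⟨M', hM', hB', hρ', hth', rfl⟩ := ht'
      apply Subtype.ext
      show M ∩ (UY σ Y ∩ Iio τ.ord) = M' ∩ (UY σ Y ∩ Iio τ.ord)
      refine T.nest hM hM' (hρ.symm.trans hρ') (T.rho_gt hM hB) (het p.2.1 p.2.2) hth hth' ?_
      have h3 : ∀ N : Set Ordinal.{0}, N ∩ (UY σ Y ∩ Iio (e τ.ord p.2.1)) =
          N ∩ (UY σ Y ∩ Iio τ.ord) ∩ Iio (e τ.ord p.2.1) := by
        intro N
        ext x
        constructor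
        · rintro ⟨h1, h2, h3⟩
          exact ⟨⟨h1, h2, (mem_Iio.1 h3).trans (het p.2.1 p.2.2)⟩, h3⟩
        · rintro ⟨⟨h1, h2, _⟩, h3⟩
          exact ⟨h1, h2, h3⟩
      rw [h3 M, h3 M']
      exact heq'
  · rintro t ⟨M, hM, rfl⟩
    by_cases hB : Unb τ.ord (M ∩ UY σ Y ∩ Co κ τ)
    · obtain ⟨t, ht, h1⟩ := T.thresh hM hB
      obtain ⟨i, hi, h2⟩ := hcof t ht
      refine ⟨Sum.inr (⟨ssup (M ∩ UY σ Y), ⟨_, inter_subset_right, rfl⟩⟩, ⟨i, hi⟩), ?_⟩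
      exact ⟨M, hM, hB, rfl, fun r hr h3 => h1 r hr (h2.trans h3), rfl⟩
    · obtain ⟨t, ht, h1⟩ := T.caseA hM hB
      obtain ⟨i, hi, h2⟩ := hcof t ht
      refine ⟨Sum.inl ⟨i, hi⟩, M, hM, ?_⟩
      ext x
      constructor
      · rintro ⟨h3, h4, h5⟩
        exact ⟨h3, h4, (mem_Iio.1 (h1 ⟨⟨h3, h4⟩, h5⟩)).trans_le h2⟩
      · rintro ⟨h3, h4, h5⟩
        exact ⟨h3, h4, (mem_Iio.1 h5).trans (het i hi)⟩

theorem traces_sing (D : Data κ χ ν₀ lam z e F) (h : SS κ ν₀ lam τ)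
    (IH : ∀ b < τ, ∀ y ⊆ Iio b.ord, #y < up κ → Few κ (Closed κ ν₀ lam z e F) y) :
    ∀ y ⊆ Iio τ.ord, #y < up κ → Few κ (Closed κ ν₀ lam z e F) y := by
  intro y hy hyc
  have h0 : max ℵ₀ τ.ord.cof < κ := max_lt D.setup.unc h.cof
  have hreg : (succ (max ℵ₀ τ.ord.cof)).IsRegular := Cardinal.isRegular_succ (le_max_left _ _)
  have hlt : succ (max ℵ₀ τ.ord.cof) < κ := D.setup.lim _ h0
  obtain ⟨Y, hY, hyY⟩ := exists_chain (e := e) (F := F) (z := z) D h hreg hlt hy hyc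
  have T : SitY κ χ ν₀ lam τ (succ (max ℵ₀ τ.ord.cof)) z e F Y :=
    { data := D
      ss := h
      reg := hreg
      unc := (le_max_left _ _).trans_lt (lt_succ _)
      gt := (le_max_right _ _).trans_lt (lt_succ _)
      lt := hlt
      chain := hY }
  have hpos : (0 : Ordinal.{0}) < (succ (max ℵ₀ τ.ord.cof)).ord := by
    rw [← Cardinal.ord_zero, Cardinal.ord_lt_ord]
    exact bot_le.trans_lt (lt_succ (max ℵ₀ τ.ord.cof))
  exact Few.sub (T.count IH) fun α hα => ⟨⟨0, hpos, hyY hα⟩, hy hα⟩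

theorem traces (D : Data κ χ ν₀ lam z e F) : ∀ τ < lam, ∀ y ⊆ Iio τ.ord, #y < up κ →
    Few κ (Closed κ ν₀ lam z e F) y := by
  intro τ
  induction τ using WellFoundedLT.induction with
  | ind τ ih =>
  intro hτ
  have IH : ∀ b < τ, ∀ y ⊆ Iio b.ord, #y < up κ → Few κ (Closed κ ν₀ lam z e F) y :=
    fun b hb => ih b hb (hb.trans hτ)
  rcases le_or_gt τ ν₀ with h1 | h1
  · intro y hy hyc
    exact traces_low D (hy.trans (Iio_subset_Iio (Cardinal.ord_le_ord.2 h1)))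
  · by_cases hlim : ∀ b < τ, succ b < τ
    · rcases lt_or_ge τ.ord.cof κ with h2 | h2
      · exact traces_sing D ⟨h1, hτ, hlim, h2⟩ IH
      · exact traces_bdd D h1 hlim h2 IH
    · push Not at hlim
      obtain ⟨b, hb, hb'⟩ := hlim
      have h3 : τ = succ b := le_antisymm hb' (succ_le_of_lt hb)
      have h4 : ν₀ ≤ b := by
        rw [h3] at h1
        exact Order.lt_succ_iff.1 h1
      rw [h3]
      exact traces_succ D h4 (IH b hb)

end Pool.Agent.STW
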