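import Pool.Agent.STW.Basic

/-!
(1) of the text: universal scales.
-/

open Cardinal Ordinal Order Set Filter

namespace Pool.Agent.STW

open Pool.Agent.STP

variable {κ χ ν₀ lam τ : Cardinal.{0}}

/-- a regressive function on the coordinates which tends to `τ`: `π r = ssup (T ∩ Iio r)` for a
cofinal `T ⊆ τ` of size `cof τ < κ` -/
theorem exists_pi (S : SetupL κ χ ν₀ lam) (h : SS κ ν₀ lam τ) :
    ∃ π : Ordinal.{0} → Ordinal.{0}, (∀ r ∈ Co κ τ, π r < r) ∧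
      ∀ b < τ.ord, ∀ᶠ r in tl τ.ord, b < π r := by
  obtain ⟨E, h1, -, h3⟩ := fund (δ := τ.ord) rfl
  have hT : #(E '' Iio τ.ord.cof.ord) ≤ up κ := by
    refine mk_image_le.trans ?_
    rw [mk_Iio_ord]
    exact Cardinal.lift_le.2 h.cof.le
  have hsub : ∀ r, #(E '' Iio τ.ord.cof.ord ∩ Iio r : Set Ordinal.{0}) ≤ up κ := fun r =>
    (mk_le_mk_of_subset inter_subset_left).trans hT
  refine ⟨fun r => ssup (E '' Iio τ.ord.cof.ord ∩ Iio r), fun r hr => ?_, fun b hb => ?_⟩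
  · exact Co_ssup_lt hr (hsub r) fun α hα => hα.2
  · obtain ⟨i, hi, hbi⟩ := h3 b hb
    refine (tl_gt (h.add_one_lt S) (h1 i hi)).mono fun r hr => ?_
    exact hbi.trans_lt (lt_ssup (small_of_mk_le (hsub r)) ⟨mem_image_of_mem _ hi, hr⟩)

/-- enumeration of the sets of at most `κ` pairs of ordinals below `τ`, in length `τ⁺` -/
theorem exists_enum (S : SetupL κ χ ν₀ lam) (h : SS κ ν₀ lam τ) :
    ∃ g : Ordinal.{0} → Set (Ordinal.{0} × Ordinal.{0}), (∀ ξ, #(g ξ) ≤ up κ) ∧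
      ∀ G : Set (Ordinal.{0} × Ordinal.{0}), #G ≤ up κ → (∀ p ∈ G, p.1 < τ.ord ∧ p.2 < τ.ord) →
        ∃ ξ, τ.ord ≤ ξ ∧ ξ < (succ τ).ord ∧ g ξ = G := by
  classical
  have hτ : ℵ₀ ≤ τ := h.aleph0_le S
  have hτ' : (ℵ₀ : Cardinal.{1}) ≤ up τ := Cardinal.aleph0_le_lift.2 hτ
  have hs : #((Iio τ.ord ×ˢ Iio τ.ord : Set (Ordinal.{0} × Ordinal.{0}))) = up τ := by
    rw [Cardinal.mk_setProd, mk_Iio_ord, Cardinal.mul_eq_self hτ']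
  have h1 : #{t : Set (Ordinal.{0} × Ordinal.{0}) // t ⊆ Iio τ.ord ×ˢ Iio τ.ord ∧ #t ≤ up κ} ≤
      #(Iio (succ τ).ord) := by
    rw [mk_Iio_ord]
    calc _ ≤ max #((Iio τ.ord ×ˢ Iio τ.ord : Set (Ordinal.{0} × Ordinal.{0}))) ℵ₀ ^ up κ :=
          Cardinal.mk_bounded_subset_le _ _
      _ = up τ ^ up κ := by rw [hs, max_eq_left hτ']
      _ ≤ up τ ^ up χ :=
          Cardinal.power_le_power_left (ne_of_gt (Cardinal.aleph0_pos.trans_le hτ'))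
            (Cardinal.lift_le.2 S.kle)
      _ = up (τ ^ χ) := (Cardinal.lift_power _ _).symm
      _ ≤ up (succ τ) := Cardinal.lift_le.2 (S.small τ h.gt.le h.lt)
  obtain ⟨e⟩ := Cardinal.le_def _ _ |>.1 h1
  have hadd : ∀ a < (succ τ).ord, τ.ord + a < (succ τ).ord := fun a ha =>
    (Ordinal.isPrincipal_add_ord (h.succ_regular S).aleph0_le) SS.lt_succ_ord ha
  refine ⟨fun ξ => if hx : ∃ p : {t : Set (Ordinal.{0} × Ordinal.{0}) //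
      t ⊆ Iio τ.ord ×ˢ Iio τ.ord ∧ #t ≤ up κ}, τ.ord + (e p : Ordinal.{0}) = ξ
      then (hx.choose : Set (Ordinal.{0} × Ordinal.{0})) else ∅, ?_, ?_⟩
  · intro ξ
    dsimp only
    split_ifs with hx
    · exact hx.choose.2.2
    · simp
  · intro G hG hG'
    have hp : G ⊆ Iio τ.ord ×ˢ Iio τ.ord ∧ #G ≤ up κ := ⟨fun p hp => hG' p hp, hG⟩
    refine ⟨τ.ord + (e ⟨G, hp⟩ : Ordinal.{0}), le_self_add, hadd _ (e ⟨G, hp⟩).2, ?_⟩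
    have hx : ∃ p : {t : Set (Ordinal.{0} × Ordinal.{0}) //
      t ⊆ Iio τ.ord ×ˢ Iio τ.ord ∧ #t ≤ up κ}, τ.ord + (e p : Ordinal.{0}) =
        τ.ord + (e ⟨G, hp⟩ : Ordinal.{0}) := ⟨⟨G, hp⟩, rfl⟩
    dsimp only
    rw [dif_pos hx]
    have h3 := hx.choose_spec
    have h4 : e hx.choose = e ⟨G, hp⟩ := Subtype.ext (add_left_cancel h3)
    have h5 := e.injective h4
    exact congrArg Subtype.val h5

/-- the recursion of (1) -/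
noncomputable def US_F (τ : Cardinal.{0}) (z : Ordinal.{0} → Ordinal.{0} → Ordinal.{0})
    (π : Ordinal.{0} → Ordinal.{0}) (g : Ordinal.{0} → Set (Ordinal.{0} × Ordinal.{0}))
    (E : Ordinal.{0} → Set Ordinal.{0}) (ξ r : Ordinal.{0}) : Ordinal.{0} :=
  ssup ((range fun t : {ξ' : Ordinal.{0} // ξ' < ξ ∧ τ.ord ≤ ξ' ∧ (z ξ ξ' < π r ∨ ξ' ∈ E ξ)} =>
    US_F τ z π g E t.1 r) ∪ {h | h < r ∧ (r, h) ∈ g ξ})
termination_by ξ
decreasing_by exact t.2.1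

private theorem u3_card (S : SetupL κ χ ν₀ lam) (h : SS κ ν₀ lam τ)
    {z : Ordinal.{0} → Ordinal.{0} → Ordinal.{0}} (hz : IsZ z) {π : Ordinal.{0} → Ordinal.{0}}
    (hπ : ∀ r ∈ Co κ τ, π r < r) {g : Ordinal.{0} → Set (Ordinal.{0} × Ordinal.{0})}
    (hg : ∀ ξ, #(g ξ) ≤ up κ) {E : Ordinal.{0} → Set Ordinal.{0}} (hE : ∀ ξ, #(E ξ) ≤ up κ)
    (ξ r : Ordinal.{0}) (hr : r ∈ Co κ τ) (f : Ordinal.{0} → Ordinal.{0}) :
    #((range fun t : {ξ' : Ordinal.{0} // ξ' < ξ ∧ τ.ord ≤ ξ' ∧ (z ξ ξ' < π r ∨ ξ' ∈ E ξ)} =>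
      f t.1) ∪ {h | h < r ∧ (r, h) ∈ g ξ} : Set Ordinal.{0}) < up r.card := by
  have hinf : ℵ₀ ≤ up r.card := by
    rw [← Cardinal.lift_aleph0.{1, 0}]
    exact Cardinal.lift_le.2 (Co_reg hr).aleph0_le
  have hκ : up κ < up r.card := Cardinal.lift_lt.2 (Co_κ_lt hr)
  have hA : #({ξ' | ξ' < ξ ∧ z ξ ξ' < π r} : Set Ordinal.{0}) < up r.card := by
    have h1 : #({ξ' | ξ' < ξ ∧ z ξ ξ' < π r} : Set Ordinal.{0}) ≤ #(Iio (π r)) := by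
      refine Cardinal.mk_le_of_injective
        (f := fun t : ({ξ' | ξ' < ξ ∧ z ξ ξ' < π r} : Set Ordinal.{0}) =>
          (⟨z ξ t.1, t.2.2⟩ : Iio (π r))) ?_
      intro s t hst
      exact Subtype.ext (hz.inj ξ s.1 t.1 s.2.1 t.2.1 (congrArg Subtype.val hst))
    refine h1.trans_lt ?_
    rw [Cardinal.mk_Iio_ordinal]
    apply Cardinal.lift_lt.2
    have h2 := hπ r hr
    conv_rhs at h2 => rw [← hr.1.eq]
    exact Cardinal.lt_ord.1 h2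
  have hB : #({ξ' : Ordinal.{0} // ξ' < ξ ∧ τ.ord ≤ ξ' ∧ (z ξ ξ' < π r ∨ ξ' ∈ E ξ)}) <
      up r.card := by
    have h1 : {ξ' : Ordinal.{0} | ξ' < ξ ∧ τ.ord ≤ ξ' ∧ (z ξ ξ' < π r ∨ ξ' ∈ E ξ)} ⊆
        {ξ' | ξ' < ξ ∧ z ξ ξ' < π r} ∪ E ξ := by
      rintro x ⟨h2, _, h3 | h3⟩
      · exact Or.inl ⟨h2, h3⟩
      · exact Or.inr h3
    refine (Cardinal.mk_le_mk_of_subset h1).trans_lt ((Cardinal.mk_union_le _ _).trans_lt ?_)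
    exact Cardinal.add_lt_of_lt hinf hA ((hE ξ).trans_lt hκ)
  have hC : #({h | h < r ∧ (r, h) ∈ g ξ} : Set Ordinal.{0}) < up r.card := by
    refine lt_of_le_of_lt ?_ ((hg ξ).trans_lt hκ)
    refine Cardinal.mk_le_of_injective
      (f := fun t : ({h | h < r ∧ (r, h) ∈ g ξ} : Set Ordinal.{0}) => (⟨(r, t.1), t.2.2⟩ : g ξ)) ?_
    intro s t hst
    exact Subtype.ext (congrArg Prod.snd (congrArg Subtype.val hst))
  exact (Cardinal.mk_union_le _ _).trans_lt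
    (Cardinal.add_lt_of_lt hinf (Cardinal.mk_range_le.trans_lt hB) hC)

/-- the values are below `r` and the members are below the value -/
theorem US_F_spec (S : SetupL κ χ ν₀ lam) (h : SS κ ν₀ lam τ)
    {z : Ordinal.{0} → Ordinal.{0} → Ordinal.{0}} (hz : IsZ z) {π : Ordinal.{0} → Ordinal.{0}}
    (hπ : ∀ r ∈ Co κ τ, π r < r) {g : Ordinal.{0} → Set (Ordinal.{0} × Ordinal.{0})}
    (hg : ∀ ξ, #(g ξ) ≤ up κ) {E : Ordinal.{0} → Set Ordinal.{0}} (hE : ∀ ξ, #(E ξ) ≤ up κ) :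
    (∀ ξ < (succ τ).ord, ∀ r ∈ Co κ τ, US_F τ z π g E ξ r < r) ∧
    (∀ ξ < (succ τ).ord, ∀ r ∈ Co κ τ, ∀ ξ' < ξ, τ.ord ≤ ξ' → (z ξ ξ' < π r ∨ ξ' ∈ E ξ) →
      US_F τ z π g E ξ' r < US_F τ z π g E ξ r) ∧
    (∀ ξ < (succ τ).ord, ∀ r ∈ Co κ τ, ∀ h < r, (r, h) ∈ g ξ → h < US_F τ z π g E ξ r) := by
  have hc := fun ξ r hr => u3_card S h hz hπ hg hE ξ r hr fun ξ' => US_F τ z π g E ξ' r
  refine ⟨?_, ?_, ?_⟩
  · intro ξ
    induction ξ using WellFoundedLT.induction with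
    | ind ξ ih =>
      intro hξ r hr
      have h1 : r = r.card.ord := hr.1.eq.symm
      rw [US_F]
      refine lt_of_lt_of_eq (ssup_lt_of_regular (Co_reg hr) (hc ξ r hr) ?_) hr.1.eq
      rw [hr.1.eq]
      rintro α (⟨t, rfl⟩ | hα)
      · exact ih t.1 t.2.1 (t.2.1.trans hξ) r hr
      · exact hα.1
  · intro ξ _ r hr ξ' hξ' hτ hor
    conv_rhs => rw [US_F]
    exact lt_ssup (small_of_mk_le (hc ξ r hr).le) (Or.inl ⟨⟨ξ', hξ', hτ, hor⟩, rfl⟩)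
  · intro ξ _ r hr x hx hxg
    rw [US_F]
    exact lt_ssup (small_of_mk_le (hc ξ r hr).le) (Or.inr ⟨hx, hxg⟩)

/-- small closed unbounded sets above `τ` -/
theorem exists_E (S : SetupL κ χ ν₀ lam) (h : SS κ ν₀ lam τ) :
    ∃ E : Ordinal.{0} → Set Ordinal.{0}, (∀ ξ, #(E ξ) ≤ up κ) ∧
      ∀ ξ, τ.ord < ξ → ℵ₀ < ξ.cof → ξ.cof < κ → IsClubIn (E ξ) ξ ∧ ∀ α ∈ E ξ, τ.ord ≤ α := by
  have key : ∀ ξ : Ordinal.{0}, ∃ E : Set Ordinal.{0}, #E ≤ up κ ∧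
      (τ.ord < ξ → ℵ₀ < ξ.cof → ξ.cof < κ → IsClubIn E ξ ∧ ∀ α ∈ E, τ.ord ≤ α) := by
    intro ξ
    by_cases hξ : τ.ord < ξ ∧ ℵ₀ < ξ.cof ∧ ξ.cof < κ
    · obtain ⟨h1, h2, h3⟩ := hξ
      obtain ⟨C, hC, hC'⟩ := exists_small_club h2.le
      refine ⟨C ∩ Ici τ.ord, (Cardinal.mk_le_mk_of_subset inter_subset_left).trans
        (hC'.trans (Cardinal.lift_le.2 h3.le)), fun _ _ _ => ⟨⟨fun α hα => hC.lt α hα.1, ?_, ?_⟩,
        fun α hα => hα.2⟩⟩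
      · intro γ hγ
        obtain ⟨ε, hε, h4⟩ := hC.unb (max γ τ.ord) (max_lt hγ h1)
        exact ⟨ε, ⟨hε, ((le_max_right _ _).trans_lt h4).le⟩, (le_max_left _ _).trans_lt h4⟩
      · intro β h0 hβ h4
        refine ⟨hC.closed β h0 hβ fun γ hγ => ?_, ?_⟩
        · obtain ⟨ε, hε, h5⟩ := h4 γ hγ
          exact ⟨ε, hε.1, h5⟩
        · obtain ⟨ε, hε, h5, h6⟩ := h4 0 h0
          exact hε.2.trans h6.le
    · refine ⟨∅, by simp, fun h1 h2 h3 => absurd ⟨h1, h2, h3⟩ hξ⟩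
  choose E h1 h2 using key
  exact ⟨E, h1, h2⟩

theorem exists_us (S : SetupL κ χ ν₀ lam) (h : SS κ ν₀ lam τ) : ∃ F, IsUS κ τ F := by
  obtain ⟨z, hz⟩ := exists_isZ
  obtain ⟨π, hπ1, hπ2⟩ := exists_pi S h
  obtain ⟨g, hg1, hg2⟩ := exists_enum S h
  obtain ⟨E, hE1, hE2⟩ := exists_E S h
  obtain ⟨a1, a2, a3⟩ := US_F_spec S h hz hπ1 hg1 hE1
  refine ⟨US_F τ z π g E, fun ξ _ h2 r hr => a1 ξ h2 r hr, ?_, ?_, ?_⟩
  · intro ξ' ξ h1 h2 h3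
    have h4 : z ξ ξ' < τ.ord :=
      (hz.lt ξ ξ' h2).trans_le (Cardinal.ord_le_ord.2 (card_le_of_lt_succ_ord h3))
    filter_upwards [hπ2 _ h4] with r hr hrC
    exact a2 ξ h3 r hrC ξ' h2 h1 (Or.inl hr)
  · intro G hG
    obtain ⟨ξ, h1, h2, h3⟩ := hg2 {p | p ∈ G ∧ p.1 < τ.ord ∧ p.2 < τ.ord}
      ((Cardinal.mk_le_mk_of_subset fun p hp => hp.1).trans hG) fun p hp => hp.2
    refine ⟨ξ, h1, h2, fun p hp hC hlt => ?_⟩
    refine a3 ξ h2 p.1 hC p.2 hlt ?_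
    rw [h3]
    exact ⟨hp, hC.2.2, hlt.trans hC.2.2⟩
  · intro ξ h1 h2 h3 h4
    obtain ⟨h5, h6⟩ := hE2 ξ h1 h3 h4
    exact ⟨E ξ, h5, fun α hα => ⟨h6 α hα, fun r hr =>
      a2 ξ h2 r hr α (h5.lt α hα) (h6 α hα) (Or.inr hα)⟩⟩

theorem exists_data (S : SetupL κ χ ν₀ lam) : ∃ z e F, Data κ χ ν₀ lam z e F := by
  classical
  obtain ⟨z, hz⟩ := exists_isZ
  obtain ⟨e, he⟩ := exists_isE
  have key : ∀ τ : Cardinal.{0}, ∃ F, SS κ ν₀ lam τ → IsUS κ τ F := by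
    intro τ
    by_cases h : SS κ ν₀ lam τ
    · obtain ⟨F, hF⟩ := exists_us S h
      exact ⟨F, fun _ => hF⟩
    · exact ⟨fun _ _ => 0, fun h' => absurd h' h⟩
  choose Φ hΦ using key
  refine ⟨z, e, fun ξ r => Φ ξ.card ξ r, ⟨S, hz, he, fun τ h => ?_⟩⟩
  have hc : ∀ ξ : Ordinal.{0}, τ.ord ≤ ξ → ξ < (succ τ).ord → ξ.card = τ := by
    intro ξ h1 h2
    refine le_antisymm (card_le_of_lt_succ_ord h2) ?_
    have h3 := Ordinal.card_le_card h1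
    rwa [card_ord] at h3
  have hU := hΦ τ h
  refine ⟨?_, ?_, ?_, ?_⟩
  · intro ξ h1 h2 r hr
    simp only [hc ξ h1 h2]
    exact hU.lt ξ h1 h2 r hr
  · intro ξ' ξ h1 h2 h3
    simp only [hc ξ' h1 (h2.trans h3), hc ξ (h1.trans h2.le) h3]
    exact hU.inc ξ' ξ h1 h2 h3
  · intro G hG
    obtain ⟨ξ, h1, h2, h3⟩ := hU.uni G hG
    refine ⟨ξ, h1, h2, ?_⟩
    simp only [hc ξ h1 h2]
    exact h3
  · intro ξ h1 h2 h3 h4
    obtain ⟨E, hE, h5⟩ := hU.obed ξ h1 h2 h3 h4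
    refine ⟨E, hE, fun α hα => ⟨(h5 α hα).1, fun r hr => ?_⟩⟩
    simp only [hc ξ h1.le h2, hc α (h5 α hα).1 ((hE.lt α hα).trans h2)]
    exact (h5 α hα).2 r hr

end Pool.Agent.STW
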