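import Pool.Agent.STW.Basic

/-!
(3a) of the text: the functions `xi` and the lemma (XI).
-/

open Cardinal Ordinal Order Set Filter

namespace Pool.Agent.STW

open Pool.Agent.STP

variable {κ χ ν₀ lam τ : Cardinal.{0}} {z e F : Ordinal.{0} → Ordinal.{0} → Ordinal.{0}}

theorem xi_spec (U : IsUS κ τ F) {G : Set (Ordinal.{0} × Ordinal.{0})} (hG : #G ≤ up κ)
    (hc : Cond κ τ G) :
    τ.ord ≤ xi τ F G ∧ xi τ F G < (succ τ).ord ∧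
      (∀ᶠ r in tl τ.ord, ∀ h, (r, h) ∈ G → h < F (xi τ F G) r) ∧
      ∀ ξ, τ.ord ≤ ξ → ξ < xi τ F G → ¬ ∀ᶠ r in tl τ.ord, ∀ h, (r, h) ∈ G → h < F ξ r := by
  obtain ⟨ξ₀, h1, h2, h3⟩ := U.uni G hG
  have hne : {ξ : Ordinal.{0} | τ.ord ≤ ξ ∧ ξ < (succ τ).ord ∧
      ∀ᶠ r in tl τ.ord, ∀ h, (r, h) ∈ G → h < F ξ r}.Nonempty :=
    ⟨ξ₀, h1, h2, Eventually.of_forall fun r h hrh => h3 (r, h) hrh (hc _ hrh).1 (hc _ hrh).2⟩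
  have hm := csInf_mem hne
  refine ⟨hm.1, hm.2.1, hm.2.2, fun ξ hξ hlt hev => ?_⟩
  exact notMem_of_lt_csInf hlt (OrderBot.bddBelow _) ⟨hξ, hlt.trans hm.2.1, hev⟩

theorem Gof_facts (D : Data κ χ ν₀ lam z e F) (h : SS κ ν₀ lam τ) {M Z : Set Ordinal.{0}}
    (hM : Closed κ ν₀ lam z e F M) (hZ : #Z < up κ) :
    #(Gof κ τ M Z) < up κ ∧ Cond κ τ (Gof κ τ M Z) ∧
      (∀ p ∈ Gof κ τ M Z, p.1 ∈ M ∧ p.2 ∈ M) := by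
  have hw : ∀ r : Ordinal.{0}, #(M ∩ Z ∩ Iio r : Set Ordinal.{0}) < up κ := fun r =>
    (Cardinal.mk_le_mk_of_subset (fun α hα => hα.1.2)).trans_lt hZ
  refine ⟨?_, ?_, ?_⟩
  · have h1 : Gof κ τ M Z ⊆ (fun r => (r, ssup (M ∩ Z ∩ Iio r))) '' Z := by
      rintro ⟨r, s⟩ hp
      obtain ⟨_, h3, _, h5⟩ := hp
      exact ⟨r, h3, Prod.ext rfl h5.symm⟩
    exact ((Cardinal.mk_le_mk_of_subset h1).trans Cardinal.mk_image_le).trans_lt hZ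
  · intro p hp
    obtain ⟨_, _, h4, h5⟩ := hp
    refine ⟨h4, ?_⟩
    rw [h5]
    exact Co_ssup_lt h4 (hw p.1).le (fun α hα => hα.2)
  · intro p hp
    obtain ⟨h2, _, _, h5⟩ := hp
    refine ⟨h2, ?_⟩
    rw [h5]
    exact hM.supm _ (fun α hα => hα.1.1) (hw p.1)

theorem xi_Gof_mem (D : Data κ χ ν₀ lam z e F) (h : SS κ ν₀ lam τ) {M Z : Set Ordinal.{0}}
    (hM : Closed κ ν₀ lam z e F M) (hZ : #Z < up κ) (hu : Unb τ.ord (M ∩ Z ∩ Co κ τ)) :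
    xi τ F (Gof κ τ M Z) ∈ M := by
  obtain ⟨h1, h2, h3⟩ := Gof_facts D h hM hZ
  refine hM.xim τ h _ h1 h2 (fun a ha => ?_) h3
  obtain ⟨r, hr, har, _⟩ := hu a ha
  exact ⟨(r, ssup (M ∩ Z ∩ Iio r)), ⟨hr.1.1, hr.1.2, hr.2, rfl⟩, har⟩

/-- the abstract count: `Ξ ⊆ [τ, τ⁺)`, and no `ξ ∈ Ξ` has the same trace as a `ξ'` with
`ξ' + 1 < ξ`.  Use `Pool.Agent.STP.xi_small` (NoBad.lean) with `I = Ordinal`,
`l = tl τ.ord ⊓ 𝓟 R`, `J = R`, `a = τ.ord`, `T = (succ τ).ord`, `y j = Z`. -/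
theorem xi_count (S : SetupL κ χ ν₀ lam) (h : SS κ ν₀ lam τ) (U : IsUS κ τ F)
    {R Z X : Set Ordinal.{0}} (hR : R ⊆ Co κ τ) (hRc : #R < up κ) (hZ : #Z < up κ)
    (hX : ∀ ξ ∈ X, τ.ord ≤ ξ ∧ ξ < (succ τ).ord)
    (hX' : ∀ ξ ∈ X, ∀ ξ', τ.ord ≤ ξ' → ξ' + 1 < ξ →
      ¬ ∀ᶠ r in tl τ.ord, r ∈ R → ∀ η ∈ Z, (F ξ' r ≤ η ↔ F ξ r ≤ η)) :
    #X < up κ := by
  refine xi_small (I := Ordinal.{0}) (l := tl τ.ord ⊓ 𝓟 R) (J := R)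
    (mem_inf_of_right (mem_principal_self R)) S.reg S.unc S.lim hRc (a := τ.ord)
    (T := (succ τ).ord) (F := F) ?_ ?_ (y := fun _ => Z) (fun _ _ => hZ) hX ?_
  · intro ξ ξ' h1 h2 h3
    rw [eventually_inf_principal]
    exact (U.inc ξ ξ' h1 h2 h3).mono fun r hr hrR => (hr (hR hrR)).le
  · intro δ h1 h2 h3 h4
    obtain ⟨E, hE, hE'⟩ := U.obed δ h1 h2 h3 h4
    refine ⟨E, hE, ?_⟩
    rw [eventually_inf_principal]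
    exact Filter.Eventually.of_forall fun r hrR α hα _ => ((hE' α hα).2 r (hR hrR)).le
  · intro ξ hξ ξ' h1 h2 h3
    refine hX' ξ hξ ξ' h1 h2 ?_
    have h4 := h3
    unfold SameTrace at h4
    rw [eventually_inf_principal] at h4
    exact h4

/-- the hypothesis of `xi_count` for `X = Xi Z`, `R = Z ∩ Co κ τ` -/
theorem Xi_sep (D : Data κ χ ν₀ lam z e F) (h : SS κ ν₀ lam τ) {Z : Set Ordinal.{0}}
    (hZ : #Z < up κ) {ξ : Ordinal.{0}} (hξ : ξ ∈ Xi κ ν₀ lam τ z e F Z) {ξ' : Ordinal.{0}}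
    (h1 : τ.ord ≤ ξ') (h2 : ξ' + 1 < ξ) :
    ¬ ∀ᶠ r in tl τ.ord, r ∈ Z ∩ Co κ τ → ∀ η ∈ Z, (F ξ' r ≤ η ↔ F ξ r ≤ η) := by
  intro hE
  obtain ⟨M, hM, -, rfl⟩ := hξ
  obtain ⟨g1, g2, -⟩ := Gof_facts D h hM hZ
  obtain ⟨-, s2, s3, s4⟩ := xi_spec (D.us τ h) g1.le g2
  have hle : τ.ord ≤ ξ' + 1 := h1.trans (lt_add_one ξ').le
  have hinc := (D.us τ h).inc ξ' (ξ' + 1) h1 (lt_add_one ξ') (h2.trans s2)
  refine s4 (ξ' + 1) hle h2 ?_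
  filter_upwards [hE, hinc, s3] with r e1 e2 e3 k hk
  by_contra hcon
  rw [not_lt] at hcon
  obtain ⟨k1, k2, k3, k4⟩ := hk
  change r ∈ M at k1
  change r ∈ Z at k2
  change r ∈ Co κ τ at k3
  change k = ssup (M ∩ Z ∩ Iio r) at k4
  have hsm : Small.{0} (M ∩ Z ∩ Iio r : Set Ordinal.{0}) :=
    small_subset (Set.inter_subset_right : M ∩ Z ∩ Iio r ⊆ Iio r)
  have h5 : F ξ' r < ssup (M ∩ Z ∩ Iio r) := by
    rw [← k4]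
    exact (e2 k3).trans_le hcon
  obtain ⟨η, hη, hη2⟩ := (lt_ssup_iff hsm).1 h5
  have h6 := (e1 ⟨k2, k3⟩ η hη.1.2).1 hη2
  have h7 : η < ssup (M ∩ Z ∩ Iio r) := lt_ssup hsm hη
  have h8 := e3 k ⟨k1, k2, k3, k4⟩
  rw [k4] at h8
  exact absurd (h6.trans_lt (h7.trans h8)) (lt_irrefl _)

theorem Xi_small (D : Data κ χ ν₀ lam z e F) (h : SS κ ν₀ lam τ) {Z : Set Ordinal.{0}}
    (hZ : #Z < up κ) :
    #(Xi κ ν₀ lam τ z e F Z) < up κ ∧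
      ∀ ξ ∈ Xi κ ν₀ lam τ z e F Z, τ.ord ≤ ξ ∧ ξ < (succ τ).ord := by
  have hX : ∀ ξ ∈ Xi κ ν₀ lam τ z e F Z, τ.ord ≤ ξ ∧ ξ < (succ τ).ord := by
    rintro ξ ⟨M, hM, hu, rfl⟩
    obtain ⟨h1, h2, _⟩ := Gof_facts D h hM hZ
    obtain ⟨h3, h4, _⟩ := xi_spec (D.us τ h) h1.le h2
    exact ⟨h3, h4⟩
  refine ⟨xi_count D.setup h (D.us τ h) (R := Z ∩ Co κ τ) inter_subset_right
    ((Cardinal.mk_le_mk_of_subset inter_subset_left).trans_lt hZ) hZ hX ?_, hX⟩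
  intro ξ hξ ξ' h1 h2
  exact Xi_sep D h hZ hξ h1 h2

end Pool.Agent.STW
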